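import Mathlib

/-!
# Polarised Hodge-Lefschetz data

The structure carried by the rational cohomology `H^*(X, ℚ)` of a connected smooth projective
complex variety `X` of dimension `d`: degrees, Hodge decomposition, Poincaré pairing, cup product
with an ample class and with `c₁(X)`, hard Lefschetz and the Hodge-Riemann relations.
-/

set_option autoImplicit false

open scoped TensorProduct ComplexOrder

namespace Pool.Agent.Lib.OrlovSig

/-- Complex conjugation on `ℂ ⊗ V`. -/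
noncomputable def conj (V : Type*) [AddCommGroup V] [Module ℚ V] :
    ℂ ⊗[ℚ] V →ₗ[ℚ] ℂ ⊗[ℚ] V :=
  LinearMap.rTensor V (Complex.conjAe.toLinearMap.restrictScalars ℚ)

/-- The block of a degree `j`: `0` if `j ≡ d mod 4`; `1` (`j < d`) or `2` (`j > d`) if
`j ≡ d + 2 mod 4`; `3` (`j < d`) or `4` (`j > d`) if `j` and `d` have different parity. -/
def block (d j : ℕ) : ℕ :=
  if j % 4 = d % 4 then 0
  else if j % 2 = d % 2 then (if j < d then 1 else 2) else (if j < d then 3 else 4)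

/-- The data carried by the rational cohomology `V = H^*(X, ℚ)` of a connected smooth projective
complex variety of dimension `d`. -/
structure HodgeLefschetz (d : ℕ) (V : Type*) [AddCommGroup V] [Module ℚ V] where
  /-- `pr j` is the projector onto `H^j(X, ℚ)` -/
  pr : ℕ → V →ₗ[ℚ] V
  /-- `hp p q` is the projector onto `H^{p,q}(X)` -/
  hp : ℕ → ℕ → (ℂ ⊗[ℚ] V) →ₗ[ℂ] (ℂ ⊗[ℚ] V)
  /-- the Poincaré pairing `∫ x ∪ y` -/
  pair : LinearMap.BilinForm ℚ V
  /-- cup product with an ample class -/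
  lef : V →ₗ[ℚ] V
  /-- cup product with `c₁(X)` -/
  can : V →ₗ[ℚ] V
  pr_sum : ∑ j ∈ Finset.range (2 * d + 1), pr j = LinearMap.id
  hp_sum : ∀ j, ∑ p ∈ Finset.range (j + 1), hp p (j - p) = (pr j).baseChange ℂ
  hp_self : ∀ p q x, hp p q (hp p q x) = hp p q x
  hp_ne : ∀ p q p' q' x, (p, q) ≠ (p', q') → hp p q (hp p' q' x) = 0
  hp_conj : ∀ p q x, hp p q (conj V x) = conj V (hp q p x)
  finrank_zero : Module.finrank ℚ (LinearMap.range (pr 0)) = 1
  pair_comm : ∀ i j x y, pair (pr j y) (pr i x) = (-1) ^ (i * j) * pair (pr i x) (pr j y)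
  pair_nondeg : ∀ x, (∀ y, pair x y = 0) → x = 0
  pair_hp : ∀ p q p' q' x y, (p + p', q + q') ≠ (d, d) →
    pair.baseChange ℂ (hp p q x) (hp p' q' y) = 0
  lef_hp : ∀ p q x, lef.baseChange ℂ (hp p q x) = hp (p + 1) (q + 1) (lef.baseChange ℂ x)
  lef_pair : ∀ x y, pair (lef x) y = pair x (lef y)
  can_hp : ∀ p q x, can.baseChange ℂ (hp p q x) = hp (p + 1) (q + 1) (can.baseChange ℂ x)
  can_pair : ∀ x y, pair (can x) y = pair x (can y)
  hard : ∀ j ≤ d, ∀ x, (lef ^ (d - j)) (pr j x) = 0 → pr j x = 0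
  riemann : ∀ p q, p + q ≤ d → ∀ x, hp p q x = x → x ≠ 0 →
    ((lef.baseChange ℂ) ^ (d - (p + q) + 1)) x = 0 →
    0 < Complex.I ^ p * (-Complex.I) ^ q * (-1) ^ ((p + q) * (p + q - 1) / 2) *
      pair.baseChange ℂ x (((lef.baseChange ℂ) ^ (d - (p + q))) (conj V x))

namespace HodgeLefschetz

variable {d : ℕ} {V V' : Type*} [AddCommGroup V] [Module ℚ V] [AddCommGroup V'] [Module ℚ V']

/-- The operator `x ↦ x^∨`, which is `(-1)^⌊j/2⌋` on `H^j`. -/
noncomputable def dual (X : HodgeLefschetz d V) : V →ₗ[ℚ] V :=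
  ∑ j ∈ Finset.range (2 * d + 1), (-1 : ℚ) ^ (j / 2) • X.pr j

/-- Multiplication by `exp(c₁(X)/2)`. -/
noncomputable def expHalf (X : HodgeLefschetz d V) : V →ₗ[ℚ] V :=
  ∑ n ∈ Finset.range (d + 1), ((2 : ℚ) ^ n * n.factorial)⁻¹ • X.can ^ n

/-- The generalised Mukai pairing `⟨x, y⟩ = ∫ exp(c₁(X)/2) ∪ x^∨ ∪ y`. -/
noncomputable def mukai (X : HodgeLefschetz d V) (x y : V) : ℚ :=
  X.pair (X.dual x) (X.expHalf y)

/-- The projector onto the sum of the `H^{p,q}(X)` with `p - q = c`. -/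
noncomputable def col (X : HodgeLefschetz d V) (c : ℤ) : (ℂ ⊗[ℚ] V) →ₗ[ℂ] (ℂ ⊗[ℚ] V) :=
  ∑ i ∈ Finset.range (2 * d + 1) ×ˢ Finset.range (2 * d + 1),
    if (i.1 : ℤ) - i.2 = c then X.hp i.1 i.2 else 0

/-- The projector onto the sum of the `H^j(X, ℚ)` with `j` in the block `a`. -/
noncomputable def prBlock (X : HodgeLefschetz d V) (a : ℕ) : V →ₗ[ℚ] V :=
  ∑ j ∈ Finset.range (2 * d + 1), if block d j = a then X.pr j else 0

/-- `H^j(X, ℚ)` and `H^j(X', ℚ)` are isomorphic Hodge structures. -/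
def HodgeIso (X : HodgeLefschetz d V) (X' : HodgeLefschetz d V') (j : ℕ) : Prop :=
  ∃ (f : V →ₗ[ℚ] V') (g : V' →ₗ[ℚ] V), g ∘ₗ f = X.pr j ∧ f ∘ₗ g = X'.pr j ∧
    ∀ p q, p + q = j → ∀ x, f.baseChange ℂ (X.hp p q x) = X'.hp p q (f.baseChange ℂ x)

end HodgeLefschetz

end Pool.Agent.Lib.OrlovSig
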