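import Mathlib

/-!
# Counting: from the alternating sum to classes modulo four
-/

set_option autoImplicit false

namespace Pool.Agent.Lib.OrlovSig

/-- The alternating sum `t m - 2 t (m-2) + 2 t (m-4) - ...`. -/
def ccF (t : ℕ → ℚ) : ℕ → ℚ
  | 0 => t 0
  | 1 => t 1
  | j + 2 => t (j + 2) - t j - ccF t j

/-- The coefficients of `ccF`. -/
def wt (k : ℕ) : ℚ := if k = 0 then 1 else if k % 2 = 1 then 0 else 2 * (-1) ^ (k / 2)

theorem wt_add_two (k : ℕ) : wt (k + 2) = - wt k - if k = 0 then 1 else 0 := by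
  unfold wt
  by_cases h0 : k = 0
  · subst h0
    norm_num
  · by_cases h1 : k % 2 = 1
    · have h2 : (k + 2) % 2 = 1 := by omega
      simp [h0, h1, h2]
    · have h2 : ¬ (k + 2) % 2 = 1 := by omega
      have h3 : (k + 2) / 2 = k / 2 + 1 := by omega
      rw [if_neg (by omega), if_neg h2, if_neg h0, if_neg h1, if_neg h0, h3, pow_succ]
      ring

theorem ccF_eq (t : ℕ → ℚ) (m : ℕ) :
    ccF t m = ∑ j ∈ Finset.range (m + 1), wt (m - j) * t j := by
  induction m using Nat.twoStepInduction with
  | zero => simp [ccF, wt]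
  | one => simp [ccF, wt, Finset.sum_range_succ]
  | more m ih _ =>
    have h1 : ccF t (m + 2) = t (m + 2) - t m - ccF t m := rfl
    rw [h1, ih, Finset.sum_range_succ _ (m + 2), Finset.sum_range_succ _ (m + 1)]
    have h2 : wt (m + 2 - (m + 2)) = 1 := by simp [wt]
    have h3 : wt (m + 2 - (m + 1)) = 0 := by
      rw [show m + 2 - (m + 1) = 1 by omega]; simp [wt]
    rw [h2, h3]
    have h4 : ∑ j ∈ Finset.range (m + 1), wt (m + 2 - j) * t j =
        ∑ j ∈ Finset.range (m + 1), (-(wt (m - j) * t j) - if j = m then t m else 0) := by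
      refine Finset.sum_congr rfl (fun j hj => ?_)
      rw [Finset.mem_range] at hj
      rw [show m + 2 - j = (m - j) + 2 by omega, wt_add_two]
      by_cases h : j = m
      · subst h
        simp only [Nat.sub_self, if_true]
        ring
      · rw [if_neg (by omega), if_neg h]
        ring
    rw [h4, Finset.sum_sub_distrib, Finset.sum_neg_distrib, Finset.sum_ite_eq']
    simp only [Finset.mem_range, show m < m + 1 by omega, if_true]
    ring

/-- The sign of `j` relative to `d`. -/
def sgn4 (d j : ℕ) : ℚ := if j % 2 = d % 2 then (if j % 4 = d % 4 then 1 else -1) else 0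

theorem sum_sgn4 (t : ℕ → ℚ) (d : ℕ) (hsym : ∀ j ≤ d, t (2 * d - j) = t j) :
    ∑ j ∈ Finset.range (2 * d + 1), sgn4 d j * t j = ccF t d := by
  rw [ccF_eq, show 2 * d + 1 = (d + 1) + d by omega, Finset.sum_range_add]
  have h1 : ∑ x ∈ Finset.range d, sgn4 d (d + 1 + x) * t (d + 1 + x) =
      ∑ x ∈ Finset.range d, sgn4 d x * t x := by
    rw [← Finset.sum_range_reflect]
    refine Finset.sum_congr rfl (fun x hx => ?_)
    rw [Finset.mem_range] at hx
    have h2 : d + 1 + (d - 1 - x) = 2 * d - x := by omega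
    rw [h2, hsym x (by omega)]
    congr 1
    unfold sgn4
    by_cases h3 : x % 2 = d % 2
    · rw [if_pos h3, if_pos (by omega)]
      by_cases h4 : x % 4 = d % 4
      · rw [if_pos h4, if_pos (by omega)]
      · rw [if_neg h4, if_neg (by omega)]
    · rw [if_neg h3, if_neg (by omega)]
  rw [h1, Finset.sum_range_succ, Finset.sum_range_succ]
  have h2 : sgn4 d d = 1 := by simp [sgn4]
  have h3 : wt (d - d) = 1 := by simp [wt]
  rw [h2, h3, add_right_comm, ← Finset.sum_add_distrib]
  congr 1
  refine Finset.sum_congr rfl (fun x hx => ?_)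
  rw [Finset.mem_range] at hx
  have h4 : wt (d - x) = 2 * sgn4 d x := by
    unfold wt sgn4
    rw [if_neg (by omega)]
    by_cases h5 : x % 2 = d % 2
    · rw [if_neg (by omega), if_pos h5]
      by_cases h6 : x % 4 = d % 4
      · rw [if_pos h6, Even.neg_one_pow (by rw [Nat.even_iff]; omega)]
      · rw [if_neg h6, Odd.neg_one_pow (by rw [Nat.odd_iff]; omega)]
    · rw [if_pos (by omega), if_neg h5]
      ring
  rw [h4]
  ring

/-- The part of the sum with indices congruent to `r` modulo `4`. -/
def cls (t : ℕ → ℚ) (d r : ℕ) : ℚ :=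
  ∑ j ∈ Finset.range (2 * d + 1), if j % 4 = r % 4 then t j else 0

theorem cls_eq (t t' : ℕ → ℚ) (d : ℕ) (hsym : ∀ j ≤ d, t (2 * d - j) = t j)
    (hsym' : ∀ j ≤ d, t' (2 * d - j) = t' j)
    (h1 : ∑ j ∈ Finset.range (2 * d + 1), (if j % 2 = d % 2 then t j else 0) =
      ∑ j ∈ Finset.range (2 * d + 1), (if j % 2 = d % 2 then t' j else 0))
    (h2 : ccF t d = ccF t' d) (r : ℕ) (hr : r % 2 = d % 2) : cls t d r = cls t' d r := by
  have key : ∀ s : ℕ → ℚ, (∀ j ≤ d, s (2 * d - j) = s j) →
      cls s d r = ((∑ j ∈ Finset.range (2 * d + 1), (if j % 2 = d % 2 then s j else 0)) +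
        (if r % 4 = d % 4 then 1 else -1) * ccF s d) / 2 := by
    intro s hs
    rw [← sum_sgn4 s d hs, Finset.mul_sum, ← Finset.sum_add_distrib, Finset.sum_div]
    unfold cls
    refine Finset.sum_congr rfl (fun j _ => ?_)
    unfold sgn4
    by_cases h3 : j % 2 = d % 2
    · rw [if_pos h3, if_pos h3]
      by_cases h4 : j % 4 = r % 4
      · rw [if_pos h4]
        by_cases h5 : r % 4 = d % 4
        · rw [if_pos h5, if_pos (by omega)]
          ring
        · rw [if_neg h5, if_neg (by omega)]
          ring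
      · rw [if_neg h4]
        by_cases h5 : r % 4 = d % 4
        · rw [if_pos h5, if_neg (by omega)]
          ring
        · rw [if_neg h5, if_pos (by omega)]
          ring
    · rw [if_neg h3, if_neg h3, if_neg (by omega)]
      ring
  rw [key t hsym, key t' hsym', h1, h2]

end Pool.Agent.Lib.OrlovSig
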