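import Pool.Agent.Lib.OrlovSig.Inertia
import Pool.Agent.Lib.OrlovSig.Count
import Pool.Agent.Lib.OrlovSig.Defs

/-!
# The abstract theorem: refinement modulo four and low dimensions
-/

set_option autoImplicit false

namespace Pool.Agent.Lib.OrlovSig

/-- Equivalence of idempotents. -/
def MvN {R : Type*} [Ring R] (e f : R) : Prop :=
  ∃ x y : R, x * y = e ∧ y * x = f ∧ e * x = x ∧ x * f = x ∧ f * y = y ∧ y * e = y

theorem MvN.tr_eq {R : Type*} [Ring R] [Algebra ℚ R] {e f : R} (h : MvN e f) (p : R) :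
    tr p e = tr p f := by
  obtain ⟨x, y, hxy, hyx, -⟩ := h
  rw [← hxy, ← hyx, tr_mul_comm]

/-- Reflection of a symmetric sum. -/
theorem sum_reflect (δ : ℕ → ℚ) (d : ℕ) (hδ : ∀ j ≤ 2 * d, δ (2 * d - j) = δ j) (s s' : ℕ → Prop)
    [DecidablePred s] [DecidablePred s'] (hs : ∀ j ≤ 2 * d, (s (2 * d - j) ↔ s' j)) :
    ∑ j ∈ Finset.range (2 * d + 1), (if s j then δ j else 0) =
      ∑ j ∈ Finset.range (2 * d + 1), (if s' j then δ j else 0) := by
  rw [← Finset.sum_range_reflect]
  refine Finset.sum_congr rfl (fun j hj => ?_)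
  rw [Finset.mem_range] at hj
  have h1 : 2 * d + 1 - 1 - j = 2 * d - j := by omega
  rw [h1, hδ j (by omega)]
  by_cases h2 : s' j
  · rw [if_pos h2, if_pos ((hs j (by omega)).2 h2)]
  · rw [if_neg h2, if_neg (fun h => h2 ((hs j (by omega)).1 h))]

/-- A symmetric sum that avoids the middle is twice its half. -/
theorem sum_half (δ : ℕ → ℚ) (d : ℕ) (hδ : ∀ j ≤ 2 * d, δ (2 * d - j) = δ j) (s : ℕ → Prop)
    [DecidablePred s] (hs : ∀ j ≤ 2 * d, (s (2 * d - j) ↔ s j)) (hd : ¬ s d)
    (h0 : ∑ j ∈ Finset.range (2 * d + 1), (if s j then δ j else 0) = 0) :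
    ∑ j ∈ Finset.range (2 * d + 1), (if s j ∧ j < d then δ j else 0) = 0 ∧
    ∑ j ∈ Finset.range (2 * d + 1), (if s j ∧ d < j then δ j else 0) = 0 := by
  have h1 : ∑ j ∈ Finset.range (2 * d + 1), (if s j ∧ j < d then δ j else 0) +
      ∑ j ∈ Finset.range (2 * d + 1), (if s j ∧ d < j then δ j else 0) = 0 := by
    rw [← Finset.sum_add_distrib]
    refine Eq.trans (Finset.sum_congr rfl (fun j _ => ?_)) h0
    by_cases h2 : s j
    · have h3 : j ≠ d := fun h => hd (h ▸ h2)
      rcases lt_or_gt_of_ne h3 with h4 | h4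
      · rw [if_pos ⟨h2, h4⟩, if_neg (fun h => absurd h.2 (by omega)), if_pos h2, add_zero]
      · rw [if_neg (fun h => absurd h.2 (by omega)), if_pos ⟨h2, h4⟩, if_pos h2, zero_add]
    · rw [if_neg h2, if_neg (fun h => h2 h.1), if_neg (fun h => h2 h.1), add_zero]
  have h2 := sum_reflect δ d hδ (fun j => s j ∧ d < j) (fun j => s j ∧ j < d) (fun j hj => by
    constructor
    · rintro ⟨h3, h4⟩
      exact ⟨(hs j hj).1 h3, by omega⟩
    · rintro ⟨h3, h4⟩
      exact ⟨(hs j hj).2 h3, by omega⟩)
  constructor <;> linarith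

/-- Cancellation of all but one term of a symmetric sum. -/
theorem cancel_one (δ : ℕ → ℚ) (d : ℕ) (hδ : ∀ j ≤ 2 * d, δ (2 * d - j) = δ j) (s : ℕ → Prop)
    [DecidablePred s] (hs : ∀ j ≤ 2 * d, (s (2 * d - j) ↔ s j)) (j : ℕ) (hj : j ≤ d) (hsj : s j)
    (hz : ∀ i ≤ d, i ≠ j → s i → δ i = 0)
    (h0 : ∑ j ∈ Finset.range (2 * d + 1), (if s j then δ j else 0) = 0) : δ j = 0 := by
  have hz' : ∀ i ≤ 2 * d, i ≠ j → i ≠ 2 * d - j → (if s i then δ i else 0) = 0 := by
    intro i hi h1 h2
    by_cases h3 : s i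
    · rw [if_pos h3]
      rcases le_or_gt i d with h4 | h4
      · exact hz i h4 h1 h3
      · rw [← hδ i hi]
        exact hz _ (by omega) (by omega) ((hs i hi).2 h3)
    · rw [if_neg h3]
  rcases Nat.lt_or_ge j d with h | h
  · rw [Finset.sum_eq_add_of_mem j (2 * d - j) (Finset.mem_range.2 (by omega))
      (Finset.mem_range.2 (by omega)) (by omega) (fun i hi h1 =>
        hz' i (by rw [Finset.mem_range] at hi; omega) h1.1 h1.2), if_pos hsj,
      if_pos ((hs j (by omega)).2 hsj), hδ j (by omega)] at h0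
    linarith
  · have h1 : j = d := le_antisymm hj h
    rw [Finset.sum_eq_single_of_mem j (Finset.mem_range.2 (by omega)) (fun i hi h1 =>
        hz' i (by rw [Finset.mem_range] at hi; omega) h1 (by omega)), if_pos hsj] at h0
    exact h0

/-- The numerical part. -/
theorem numeric (t t' : ℕ → ℚ) (d : ℕ) (hs : ∀ j ≤ d, t (2 * d - j) = t j)
    (hs' : ∀ j ≤ d, t' (2 * d - j) = t' j)
    (hc : ∀ r, r % 2 = d % 2 → cls t d r = cls t' d r)
    (htot : ∑ j ∈ Finset.range (2 * d + 1), t j = ∑ j ∈ Finset.range (2 * d + 1), t' j) :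
    (∀ a, ∑ j ∈ Finset.range (2 * d + 1), (if block d j = a then t j else 0) =
      ∑ j ∈ Finset.range (2 * d + 1), (if block d j = a then t' j else 0)) ∧
    ∀ j ≤ d, (∀ i ≤ d, i ≠ j → block d i = block d j → t i = t' i) → t j = t' j := by
  set δ : ℕ → ℚ := fun j => t j - t' j with hδdef
  have hδ : ∀ j ≤ 2 * d, δ (2 * d - j) = δ j := by
    intro j hj
    simp only [hδdef]
    rcases le_or_gt j d with h | h
    · rw [hs j h, hs' j h]
    · have h1 := hs (2 * d - j) (by omega)
      have h2 := hs' (2 * d - j) (by omega)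
      rw [show 2 * d - (2 * d - j) = j by omega] at h1 h2
      rw [h1, h2]
  have hδc : ∀ r, r % 2 = d % 2 →
      ∑ j ∈ Finset.range (2 * d + 1), (if j % 4 = r % 4 then δ j else 0) = 0 := by
    intro r hr
    have h1 := hc r hr
    unfold cls at h1
    rw [← sub_eq_zero, ← Finset.sum_sub_distrib] at h1
    refine Eq.trans (Finset.sum_congr rfl (fun j _ => ?_)) h1
    by_cases h2 : j % 4 = r % 4 <;> simp [h2, hδdef]
  have hδt : ∑ j ∈ Finset.range (2 * d + 1), (if j % 2 ≠ d % 2 then δ j else 0) = 0 := by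
    have h1 : ∑ j ∈ Finset.range (2 * d + 1), δ j = 0 := by
      simp only [hδdef]
      rw [Finset.sum_sub_distrib, htot, sub_self]
    have h2 := hδc (d % 2) (by omega)
    have h3 := hδc (d % 2 + 2) (by omega)
    have h4 : ∑ j ∈ Finset.range (2 * d + 1), δ j =
        ∑ j ∈ Finset.range (2 * d + 1), (if j % 2 ≠ d % 2 then δ j else 0) +
        ∑ j ∈ Finset.range (2 * d + 1), (if j % 4 = d % 2 % 4 then δ j else 0) +
        ∑ j ∈ Finset.range (2 * d + 1), (if j % 4 = (d % 2 + 2) % 4 then δ j else 0) := by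
      rw [← Finset.sum_add_distrib, ← Finset.sum_add_distrib]
      refine Finset.sum_congr rfl (fun j _ => ?_)
      by_cases c1 : j % 2 ≠ d % 2
      · rw [if_pos c1, if_neg (by omega), if_neg (by omega)]
        ring
      · by_cases c2 : j % 4 = d % 2 % 4
        · rw [if_neg c1, if_pos c2, if_neg (by omega)]
          ring
        · rw [if_neg c1, if_neg c2, if_pos (by omega)]
          ring
    rw [h1, h2, h3] at h4
    linarith
  have hD2 := sum_half δ d hδ (fun j => j % 4 = (d + 2) % 4) (fun j hj => by omega) (by omega)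
    (hδc (d + 2) (by omega))
  have hN := sum_half δ d hδ (fun j => j % 2 ≠ d % 2) (fun j hj => by omega) (by omega) hδt
  constructor
  · intro a
    rw [← sub_eq_zero, ← Finset.sum_sub_distrib]
    have h1 : ∀ s : ℕ → Prop, [DecidablePred s] → (∀ j, block d j = a ↔ s j) →
        ∑ j ∈ Finset.range (2 * d + 1), (if s j then δ j else 0) = 0 →
        ∑ j ∈ Finset.range (2 * d + 1), ((if block d j = a then t j else 0) -
          if block d j = a then t' j else 0) = 0 := by
      intro s _ h2 h3
      refine Eq.trans (Finset.sum_congr rfl (fun j _ => ?_)) h3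
      by_cases h4 : block d j = a
      · rw [if_pos h4, if_pos h4, if_pos ((h2 j).1 h4)]
      · rw [if_neg h4, if_neg h4, if_neg (fun h => h4 ((h2 j).2 h)), sub_zero]
    have hb : ∀ j, block d j ≤ 4 := by
      intro j
      unfold block
      split_ifs <;> omega
    rcases Nat.lt_or_ge 4 a with h | h
    · refine Finset.sum_eq_zero (fun j _ => ?_)
      have := hb j
      rw [if_neg (by omega), if_neg (by omega), sub_zero]
    · interval_cases a
      · refine h1 (fun j => j % 4 = d % 4) (fun j => ?_) (hδc d rfl)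
        unfold block
        constructor <;> intro h
        · split_ifs at h <;> omega
        · split_ifs <;> omega
      · refine h1 (fun j => j % 4 = (d + 2) % 4 ∧ j < d) (fun j => ?_) hD2.1
        unfold block
        constructor <;> intro h
        · split_ifs at h <;> omega
        · split_ifs <;> omega
      · refine h1 (fun j => j % 4 = (d + 2) % 4 ∧ d < j) (fun j => ?_) hD2.2
        unfold block
        constructor <;> intro h
        · split_ifs at h <;> omega
        · split_ifs <;> omega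
      · refine h1 (fun j => j % 2 ≠ d % 2 ∧ j < d) (fun j => ?_) hN.1
        unfold block
        constructor <;> intro h
        · split_ifs at h <;> omega
        · split_ifs <;> omega
      · refine h1 (fun j => j % 2 ≠ d % 2 ∧ d < j) (fun j => ?_) hN.2
        unfold block
        constructor <;> intro h
        · split_ifs at h <;> omega
        · split_ifs <;> omega
  · intro j hj h
    have h' : ∀ i ≤ d, i ≠ j → block d i = block d j → δ i = 0 := fun i h1 h2 h3 =>
      sub_eq_zero.2 (h i h1 h2 h3)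
    suffices h2 : δ j = 0 by exact sub_eq_zero.1 h2
    by_cases hp : j % 2 = d % 2
    · refine cancel_one δ d hδ (fun i => i % 4 = j % 4) (fun i hi => by omega) j hj rfl
        (fun i h1 h2 h3 => h' i h1 h2 ?_) (hδc j hp)
      unfold block
      split_ifs <;> omega
    · refine cancel_one δ d hδ (fun i => i % 2 ≠ d % 2) (fun i hi => by omega) j hj hp
        (fun i h1 h2 h3 => h' i h1 h2 ?_) hδt
      unfold block
      split_ifs <;> omega

namespace Pkg

variable {R W : Type*} [Ring R] [Algebra ℚ R] [AddCommGroup W] [Module R W]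
  {q : W →+ W →+ ℝ} {d : ℕ}

/-- The projector onto a block of degrees. -/
def B (P : Pkg R W q d) (a : ℕ) : R :=
  ∑ i ∈ Finset.range (2 * d + 1), if block d i = a then P.π i else 0

theorem B_mul_B (P : Pkg R W q d) (a b : ℕ) : P.B a * P.B b = if a = b then P.B a else 0 := by
  unfold B
  rw [Finset.sum_mul]
  have h1 : ∀ i ∈ Finset.range (2 * d + 1), (if block d i = a then P.π i else 0) *
      (∑ i ∈ Finset.range (2 * d + 1), if block d i = b then P.π i else 0) =
      if a = b then (if block d i = a then P.π i else 0) else 0 := by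
    intro i hi
    rw [Finset.mul_sum, Finset.sum_eq_single_of_mem i hi]
    · by_cases h1 : block d i = a
      · by_cases h2 : a = b
        · rw [if_pos h1, if_pos (h1.trans h2), if_pos h2, P.π_self]
        · rw [if_pos h1, if_neg (fun h => h2 (h1.symm.trans h)), if_neg h2, mul_zero]
      · rw [if_neg h1, zero_mul]
        simp
    · intro j _ hj
      by_cases h1 : block d i = a <;> by_cases h2 : block d j = b <;>
        simp [h1, h2, P.π_ne i j (Ne.symm hj)]
  rw [Finset.sum_congr rfl h1]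
  split_ifs
  · rfl
  · exact Finset.sum_const_zero

theorem tr_π_dual (P : Pkg R W q d) (p : R) (j : ℕ) (hj : j ≤ d) :
    tr p (P.π (2 * d - j)) = tr p (P.π j) := by
  rw [← P.L_θ j hj, tr_mul_comm]
  congr 1
  rw [← P.θ_π j hj, mul_assoc, show 2 * d - j = j + 2 * (d - j) by omega, ← P.L_pow_π,
    ← mul_assoc, mul_assoc, P.θ_L j hj]

theorem tr_B (P : Pkg R W q d) (p : R) (a : ℕ) :
    tr p (P.B a) = ∑ j ∈ Finset.range (2 * d + 1), if block d j = a then tr p (P.π j) else 0 := by
  unfold B
  rw [tr_sum]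
  refine Finset.sum_congr rfl (fun i _ => ?_)
  split_ifs
  · rfl
  · exact tr_zero p

theorem cc_eq (P : Pkg R W q d) (p : R) (m : ℕ) : P.cc p m = ccF (fun j => tr p (P.π j)) m := by
  induction m using Nat.twoStepInduction with
  | zero => rfl
  | one => rfl
  | more m ih _ =>
    have h1 : P.cc p (m + 2) = tr p (P.π (m + 2)) - tr p (P.π m) - P.cc p m := rfl
    rw [h1, ih]
    rfl

/-- The abstract theorem: the blocks are equivalent, and within a block one degree can be
cancelled against the others. -/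
theorem core [Module.Finite ℚ R] [FaithfulSMul R W] (P P' : Pkg R W q d)
    (hsymm : ∀ x y, q x y = q y x)
    (hreg : ∀ x : R, ∃ z : R, x * z * x = x) (u v : R) (hvu : v * u = P.ε) (huv : u * v = P'.ε)
    (huE : u * P.E = P'.E * u) (hvE : v * P'.E = P.E * v)
    (hiso : ∀ x, P.E • x = x → q (P'.DE • (u • x)) (u • x) = q (P.DE • x) x) :
    (∀ a, MvN (P.B a) (P'.B a)) ∧
    (∀ j ≤ d, MvN (P.π j) (P'.π j) → MvN (P.π (2 * d - j)) (P'.π (2 * d - j))) ∧
    ∀ j ≤ d, (∀ i ≤ d, i ≠ j → block d i = block d j → MvN (P.π i) (P'.π i)) →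
      MvN (P.π j) (P'.π j) := by
  have hin := fun p hp => P.inertia P' hsymm hreg u v hvu huv huE hvE hiso p hp
  have hcls : ∀ p : R, p * p = p → ∀ r, r % 2 = d % 2 →
      cls (fun j => tr p (P.π j)) d r = cls (fun j => tr p (P'.π j)) d r := by
    intro p hp r hr
    obtain ⟨h1, h2⟩ := hin p hp
    refine cls_eq _ _ d (P.tr_π_dual p) (P'.tr_π_dual p) ?_ ?_ r hr
    · have e : ∀ Q : Pkg R W q d, tr p Q.E =
          ∑ j ∈ Finset.range (2 * d + 1), (if j % 2 = d % 2 then tr p (Q.π j) else 0) := by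
        intro Q
        unfold E
        rw [tr_sum]
        refine Finset.sum_congr rfl (fun i _ => ?_)
        split_ifs
        · rfl
        · exact tr_zero p
      rw [← e P, ← e P', h1]
    · rw [← P.cc_eq, ← P'.cc_eq, h2]
  have htot : ∀ p : R, ∑ j ∈ Finset.range (2 * d + 1), tr p (P.π j) =
      ∑ j ∈ Finset.range (2 * d + 1), tr p (P'.π j) := by
    intro p
    rw [← tr_sum, ← tr_sum]
    change tr p P.ε = tr p P'.ε
    rw [← hvu, ← huv, tr_mul_comm]
  have hnum := fun (p : R) (hp : p * p = p) => numeric (fun j => tr p (P.π j))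
    (fun j => tr p (P'.π j)) d (P.tr_π_dual p) (P'.tr_π_dual p) (hcls p hp) (htot p)
  refine ⟨fun a => ?_, fun j hj h => ?_, fun j hj h => ?_⟩
  · refine exists_equiv_of_tr_eq hreg _ _ ?_ ?_ (fun p hp => ?_)
    · rw [P.B_mul_B, if_pos rfl]
    · rw [P'.B_mul_B, if_pos rfl]
    · rw [P.tr_B, P'.tr_B]
      exact (hnum p hp).1 a
  · refine exists_equiv_of_tr_eq hreg _ _ (P.π_self _) (P'.π_self _) (fun p hp => ?_)
    rw [P.tr_π_dual p j hj, P'.tr_π_dual p j hj, h.tr_eq p]
  · exact exists_equiv_of_tr_eq hreg _ _ (P.π_self j) (P'.π_self j) (fun p hp =>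
      (hnum p hp).2 j hj (fun i hi hij hb => (h i hi hij hb).tr_eq p))

end Pkg

end Pool.Agent.Lib.OrlovSig
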