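import Pool.Agent.Lib.OrlovSig.Block

/-!
# The two packages in the ring of Hodge endomorphisms of `H^*(X) × H^*(X')`
-/

set_option autoImplicit false

open scoped TensorProduct ComplexOrder

namespace Pool.Agent.Lib.OrlovSig

namespace HodgeLefschetz

variable {d : ℕ} {V V' : Type*} [AddCommGroup V] [Module ℚ V] [AddCommGroup V'] [Module ℚ V']

theorem DE_eq_smul {R W : Type*} [Ring R] [Algebra ℚ R] [AddCommGroup W] [Module R W]
    {q : W →+ W →+ ℝ} {d : ℕ} (P : Pkg R W q d) :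
    P.DE = ∑ i ∈ Finset.range (2 * d + 1),
      if i % 2 = d % 2 then ((-1 : ℚ) ^ (i / 2)) • P.π i else 0 := by
  unfold Pkg.DE
  refine Finset.sum_congr rfl (fun i _ => ?_)
  split_ifs
  · rcases Nat.even_or_odd (i / 2) with h | h
    · rw [h.neg_one_pow, h.neg_one_pow, one_mul, one_smul]
    · rw [h.neg_one_pow, h.neg_one_pow, neg_one_mul, neg_one_smul]
  · rfl

/-- The part of degree congruent to `d` modulo `2`. -/
noncomputable def parE (X : HodgeLefschetz d V) : Module.End ℚ V :=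
  ∑ i ∈ Finset.range (2 * d + 1), if i % 2 = d % 2 then X.pr i else 0

theorem mem_blockAlg {X : HodgeLefschetz d V} {X' : HodgeLefschetz d V'}
    {f : Module.End ℚ (V × V')} : f ∈ X.blockAlg X' ↔
    X.IsHodge X (LinearMap.fst ℚ V V' ∘ₗ f ∘ₗ LinearMap.inl ℚ V V') ∧
    X.IsHodge X' (LinearMap.snd ℚ V V' ∘ₗ f ∘ₗ LinearMap.inl ℚ V V') ∧
    X'.IsHodge X (LinearMap.fst ℚ V V' ∘ₗ f ∘ₗ LinearMap.inr ℚ V V') ∧
    X'.IsHodge X' (LinearMap.snd ℚ V V' ∘ₗ f ∘ₗ LinearMap.inr ℚ V V') := Iff.rfl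

theorem mem11 (X : HodgeLefschetz d V) (X' : HodgeLefschetz d V') (f : V →ₗ[ℚ] V)
    (hf : X.IsHodge X f) :
    LinearMap.inl ℚ V V' ∘ₗ f ∘ₗ LinearMap.fst ℚ V V' ∈ X.blockAlg X' := by
  refine mem_blockAlg.2 ⟨?_, ?_, ?_, ?_⟩
  · exact hf
  · have h : LinearMap.snd ℚ V V' ∘ₗ (LinearMap.inl ℚ V V' ∘ₗ f ∘ₗ LinearMap.fst ℚ V V') ∘ₗ
        LinearMap.inl ℚ V V' = 0 := by ext; simp
    rw [h]; exact X.isHodge_zero X'
  · have h : LinearMap.fst ℚ V V' ∘ₗ (LinearMap.inl ℚ V V' ∘ₗ f ∘ₗ LinearMap.fst ℚ V V') ∘ₗ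
        LinearMap.inr ℚ V V' = 0 := by ext; simp
    rw [h]; exact X'.isHodge_zero X
  · have h : LinearMap.snd ℚ V V' ∘ₗ (LinearMap.inl ℚ V V' ∘ₗ f ∘ₗ LinearMap.fst ℚ V V') ∘ₗ
        LinearMap.inr ℚ V V' = 0 := by ext; simp
    rw [h]; exact X'.isHodge_zero X'

theorem mem22 (X : HodgeLefschetz d V) (X' : HodgeLefschetz d V') (f : V' →ₗ[ℚ] V')
    (hf : X'.IsHodge X' f) :
    LinearMap.inr ℚ V V' ∘ₗ f ∘ₗ LinearMap.snd ℚ V V' ∈ X.blockAlg X' := by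
  refine mem_blockAlg.2 ⟨?_, ?_, ?_, ?_⟩
  · have h : LinearMap.fst ℚ V V' ∘ₗ (LinearMap.inr ℚ V V' ∘ₗ f ∘ₗ LinearMap.snd ℚ V V') ∘ₗ
        LinearMap.inl ℚ V V' = 0 := by ext; simp
    rw [h]; exact X.isHodge_zero X
  · have h : LinearMap.snd ℚ V V' ∘ₗ (LinearMap.inr ℚ V V' ∘ₗ f ∘ₗ LinearMap.snd ℚ V V') ∘ₗ
        LinearMap.inl ℚ V V' = 0 := by ext; simp
    rw [h]; exact X.isHodge_zero X'
  · have h : LinearMap.fst ℚ V V' ∘ₗ (LinearMap.inr ℚ V V' ∘ₗ f ∘ₗ LinearMap.snd ℚ V V') ∘ₗ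
        LinearMap.inr ℚ V V' = 0 := by ext; simp
    rw [h]; exact X'.isHodge_zero X
  · exact hf

theorem mem21 (X : HodgeLefschetz d V) (X' : HodgeLefschetz d V') (f : V →ₗ[ℚ] V')
    (hf : X.IsHodge X' f) :
    LinearMap.inr ℚ V V' ∘ₗ f ∘ₗ LinearMap.fst ℚ V V' ∈ X.blockAlg X' := by
  refine mem_blockAlg.2 ⟨?_, ?_, ?_, ?_⟩
  · have h : LinearMap.fst ℚ V V' ∘ₗ (LinearMap.inr ℚ V V' ∘ₗ f ∘ₗ LinearMap.fst ℚ V V') ∘ₗ
        LinearMap.inl ℚ V V' = 0 := by ext; simp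
    rw [h]; exact X.isHodge_zero X
  · exact hf
  · have h : LinearMap.fst ℚ V V' ∘ₗ (LinearMap.inr ℚ V V' ∘ₗ f ∘ₗ LinearMap.fst ℚ V V') ∘ₗ
        LinearMap.inr ℚ V V' = 0 := by ext; simp
    rw [h]; exact X'.isHodge_zero X
  · have h : LinearMap.snd ℚ V V' ∘ₗ (LinearMap.inr ℚ V V' ∘ₗ f ∘ₗ LinearMap.fst ℚ V V') ∘ₗ
        LinearMap.inr ℚ V V' = 0 := by ext; simp
    rw [h]; exact X'.isHodge_zero X'

theorem mem12 (X : HodgeLefschetz d V) (X' : HodgeLefschetz d V') (f : V' →ₗ[ℚ] V)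
    (hf : X'.IsHodge X f) :
    LinearMap.inl ℚ V V' ∘ₗ f ∘ₗ LinearMap.snd ℚ V V' ∈ X.blockAlg X' := by
  refine mem_blockAlg.2 ⟨?_, ?_, ?_, ?_⟩
  · have h : LinearMap.fst ℚ V V' ∘ₗ (LinearMap.inl ℚ V V' ∘ₗ f ∘ₗ LinearMap.snd ℚ V V') ∘ₗ
        LinearMap.inl ℚ V V' = 0 := by ext; simp
    rw [h]; exact X.isHodge_zero X
  · have h : LinearMap.snd ℚ V V' ∘ₗ (LinearMap.inl ℚ V V' ∘ₗ f ∘ₗ LinearMap.snd ℚ V V') ∘ₗ
        LinearMap.inl ℚ V V' = 0 := by ext; simp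
    rw [h]; exact X.isHodge_zero X'
  · exact hf
  · have h : LinearMap.snd ℚ V V' ∘ₗ (LinearMap.inl ℚ V V' ∘ₗ f ∘ₗ LinearMap.snd ℚ V V') ∘ₗ
        LinearMap.inr ℚ V V' = 0 := by ext; simp
    rw [h]; exact X'.isHodge_zero X'

set_option linter.unusedSectionVars false

section Fin

variable [FiniteDimensional ℚ V] [FiniteDimensional ℚ V']

/-- The package of the first factor. -/
noncomputable def pkg₁ (X : HodgeLefschetz d V) (X' : HodgeLefschetz d V') :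
    Pkg (X.blockAlg X') (V × V') (X.qq X') d :=
  X.mkPkg (X.blockAlg X') (X.qq X') (LinearMap.inl ℚ V V') (LinearMap.fst ℚ V V')
    (by ext; simp) (fun x w => by rw [qq_apply]; simp) (fun w x => by rw [qq_apply]; simp)
    (X.mem11 X')

/-- The package of the second factor. -/
noncomputable def pkg₂ (X : HodgeLefschetz d V) (X' : HodgeLefschetz d V') :
    Pkg (X.blockAlg X') (V × V') (X.qq X') d :=
  X'.mkPkg (X.blockAlg X') (X.qq X') (LinearMap.inr ℚ V V') (LinearMap.snd ℚ V V')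
    (by ext; simp) (fun x w => by rw [qq_apply]; simp) (fun w x => by rw [qq_apply]; simp)
    (X.mem22 X')

omit [FiniteDimensional ℚ V] [FiniteDimensional ℚ V'] in
theorem coe_sum_if (X : HodgeLefschetz d V) (X' : HodgeLefschetz d V') (n : ℕ) (s : ℕ → Prop)
    [DecidablePred s] (f : ℕ → X.blockAlg X') :
    (((∑ i ∈ Finset.range n, if s i then f i else 0 : X.blockAlg X')) :
      Module.End ℚ (V × V')) = ∑ i ∈ Finset.range n, if s i then (f i : Module.End ℚ (V × V'))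
        else 0 := by
  rw [AddSubmonoidClass.coe_finsetSum]
  refine Finset.sum_congr rfl (fun i _ => ?_)
  split_ifs <;> rfl

omit [FiniteDimensional ℚ V] [FiniteDimensional ℚ V'] in
theorem emb_sum_if {U W : Type*} [AddCommGroup U] [Module ℚ U] [AddCommGroup W] [Module ℚ W]
    (ι : U →ₗ[ℚ] W) (ρ : W →ₗ[ℚ] U) (n : ℕ) (s : ℕ → Prop) [DecidablePred s]
    (f : ℕ → Module.End ℚ U) :
    (∑ i ∈ Finset.range n, if s i then (show Module.End ℚ W from ι ∘ₗ f i ∘ₗ ρ) else 0) =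
      ι ∘ₗ (∑ i ∈ Finset.range n, if s i then f i else 0) ∘ₗ ρ := by
  ext w
  simp only [LinearMap.sum_apply, LinearMap.comp_apply, map_sum]
  refine Finset.sum_congr rfl (fun i _ => ?_)
  split_ifs
  · rfl
  · simp

theorem coe_ε₁ (X : HodgeLefschetz d V) (X' : HodgeLefschetz d V') :
    (((X.pkg₁ X').ε : X.blockAlg X') : Module.End ℚ (V × V')) =
      LinearMap.inl ℚ V V' ∘ₗ LinearMap.fst ℚ V V' := by
  have h : (X.pkg₁ X').ε = ∑ i ∈ Finset.range (2 * d + 1),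
      if (fun _ => True) i then (X.pkg₁ X').π i else 0 := by
    unfold Pkg.ε; simp
  rw [h, coe_sum_if]
  change (∑ i ∈ Finset.range (2 * d + 1), if (fun _ => True) i then
    (show Module.End ℚ (V × V') from LinearMap.inl ℚ V V' ∘ₗ X.pr i ∘ₗ LinearMap.fst ℚ V V')
      else 0) = _
  rw [emb_sum_if]
  simp only [if_true]
  rw [X.pr_sum, LinearMap.id_comp]

theorem coe_ε₂ (X : HodgeLefschetz d V) (X' : HodgeLefschetz d V') :
    (((X.pkg₂ X').ε : X.blockAlg X') : Module.End ℚ (V × V')) =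
      LinearMap.inr ℚ V V' ∘ₗ LinearMap.snd ℚ V V' := by
  have h : (X.pkg₂ X').ε = ∑ i ∈ Finset.range (2 * d + 1),
      if (fun _ => True) i then (X.pkg₂ X').π i else 0 := by
    unfold Pkg.ε; simp
  rw [h, coe_sum_if]
  change (∑ i ∈ Finset.range (2 * d + 1), if (fun _ => True) i then
    (show Module.End ℚ (V × V') from LinearMap.inr ℚ V V' ∘ₗ X'.pr i ∘ₗ LinearMap.snd ℚ V V')
      else 0) = _
  rw [emb_sum_if]
  simp only [if_true]
  rw [X'.pr_sum, LinearMap.id_comp]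

theorem coe_E₁ (X : HodgeLefschetz d V) (X' : HodgeLefschetz d V') :
    (((X.pkg₁ X').E : X.blockAlg X') : Module.End ℚ (V × V')) =
      LinearMap.inl ℚ V V' ∘ₗ X.parE ∘ₗ LinearMap.fst ℚ V V' := by
  unfold Pkg.E
  rw [coe_sum_if]
  exact emb_sum_if (LinearMap.inl ℚ V V') (LinearMap.fst ℚ V V') (2 * d + 1)
    (fun i => i % 2 = d % 2) (fun i => X.pr i)

theorem coe_E₂ (X : HodgeLefschetz d V) (X' : HodgeLefschetz d V') :
    (((X.pkg₂ X').E : X.blockAlg X') : Module.End ℚ (V × V')) =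
      LinearMap.inr ℚ V V' ∘ₗ X'.parE ∘ₗ LinearMap.snd ℚ V V' := by
  unfold Pkg.E
  rw [coe_sum_if]
  exact emb_sum_if (LinearMap.inr ℚ V V') (LinearMap.snd ℚ V V') (2 * d + 1)
    (fun i => i % 2 = d % 2) (fun i => X'.pr i)

theorem coe_B₁ (X : HodgeLefschetz d V) (X' : HodgeLefschetz d V') (a : ℕ) :
    (((X.pkg₁ X').B a : X.blockAlg X') : Module.End ℚ (V × V')) =
      LinearMap.inl ℚ V V' ∘ₗ X.prBlock a ∘ₗ LinearMap.fst ℚ V V' := by
  unfold Pkg.B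
  rw [coe_sum_if]
  exact emb_sum_if (LinearMap.inl ℚ V V') (LinearMap.fst ℚ V V') (2 * d + 1)
    (fun i => block d i = a) (fun i => X.pr i)

theorem coe_B₂ (X : HodgeLefschetz d V) (X' : HodgeLefschetz d V') (a : ℕ) :
    (((X.pkg₂ X').B a : X.blockAlg X') : Module.End ℚ (V × V')) =
      LinearMap.inr ℚ V V' ∘ₗ X'.prBlock a ∘ₗ LinearMap.snd ℚ V V' := by
  unfold Pkg.B
  rw [coe_sum_if]
  exact emb_sum_if (LinearMap.inr ℚ V V') (LinearMap.snd ℚ V V') (2 * d + 1)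
    (fun i => block d i = a) (fun i => X'.pr i)

/-- The signs of the Mukai pairing on the part of degree congruent to `d` modulo `2`. -/
noncomputable def parD (X : HodgeLefschetz d V) : Module.End ℚ V :=
  ∑ i ∈ Finset.range (2 * d + 1), if i % 2 = d % 2 then (-1 : ℚ) ^ (i / 2) • X.pr i else 0

theorem coe_DE₁ (X : HodgeLefschetz d V) (X' : HodgeLefschetz d V') :
    (((X.pkg₁ X').DE : X.blockAlg X') : Module.End ℚ (V × V')) =
      LinearMap.inl ℚ V V' ∘ₗ X.parD ∘ₗ LinearMap.fst ℚ V V' := by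
  rw [DE_eq_smul, coe_sum_if]
  have h := emb_sum_if (LinearMap.inl ℚ V V') (LinearMap.fst ℚ V V') (2 * d + 1)
    (fun i => i % 2 = d % 2) (fun i => (-1 : ℚ) ^ (i / 2) • X.pr i)
  simp only [LinearMap.smul_comp, LinearMap.comp_smul] at h
  exact h

theorem coe_DE₂ (X : HodgeLefschetz d V) (X' : HodgeLefschetz d V') :
    (((X.pkg₂ X').DE : X.blockAlg X') : Module.End ℚ (V × V')) =
      LinearMap.inr ℚ V V' ∘ₗ X'.parD ∘ₗ LinearMap.snd ℚ V V' := by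
  rw [DE_eq_smul, coe_sum_if]
  have h := emb_sum_if (LinearMap.inr ℚ V V') (LinearMap.snd ℚ V V') (2 * d + 1)
    (fun i => i % 2 = d % 2) (fun i => (-1 : ℚ) ^ (i / 2) • X'.pr i)
  simp only [LinearMap.smul_comp, LinearMap.comp_smul] at h
  exact h

theorem ε_add_ε (X : HodgeLefschetz d V) (X' : HodgeLefschetz d V') :
    (X.pkg₁ X').ε + (X.pkg₂ X').ε = 1 := by
  ext1
  have h : ((((X.pkg₁ X').ε + (X.pkg₂ X').ε : X.blockAlg X')) : Module.End ℚ (V × V')) =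
      ((X.pkg₁ X').ε : Module.End ℚ (V × V')) + ((X.pkg₂ X').ε : Module.End ℚ (V × V')) := rfl
  rw [h, coe_ε₁, coe_ε₂, decomp_id]
  rfl

theorem ε_mul_ε (X : HodgeLefschetz d V) (X' : HodgeLefschetz d V') :
    (X.pkg₁ X').ε * (X.pkg₂ X').ε = 0 := by
  ext1
  change ((X.pkg₁ X').ε : Module.End ℚ (V × V')) * ((X.pkg₂ X').ε : Module.End ℚ (V × V')) = 0
  rw [coe_ε₁, coe_ε₂]
  ext x <;> simp

theorem ε_mul_ε' (X : HodgeLefschetz d V) (X' : HodgeLefschetz d V') :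
    (X.pkg₂ X').ε * (X.pkg₁ X').ε = 0 := by
  ext1
  change ((X.pkg₂ X').ε : Module.End ℚ (V × V')) * ((X.pkg₁ X').ε : Module.End ℚ (V × V')) = 0
  rw [coe_ε₁, coe_ε₂]
  ext x <;> simp

theorem exists_adj (X : HodgeLefschetz d V) (X' : HodgeLefschetz d V') (r : X.blockAlg X') :
    ∃ r' : X.blockAlg X', ∀ x y, X.qq X' (r • x) y = X.qq X' x (r' • y) := by
  obtain ⟨h1, h2, h3, h4⟩ := mem_blockAlg.1 r.2
  obtain ⟨a, ha, ha'⟩ := X.exists_adjoint X _ h1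
  obtain ⟨b, hb, hb'⟩ := X.exists_adjoint X' _ h2
  obtain ⟨c, hc, hc'⟩ := X'.exists_adjoint X _ h3
  obtain ⟨e, he, he'⟩ := X'.exists_adjoint X' _ h4
  refine ⟨⟨_, X.mem11 X' a ha⟩ + ⟨_, X.mem12 X' b hb⟩ + ⟨_, X.mem21 X' c hc⟩ +
    ⟨_, X.mem22 X' e he⟩, ?_⟩
  intro x y
  have hx : x = LinearMap.inl ℚ V V' x.1 + LinearMap.inr ℚ V V' x.2 := by ext <;> simp
  have e1 : (r • x).1 = (LinearMap.fst ℚ V V' ∘ₗ (r : Module.End ℚ (V × V')) ∘ₗ
      LinearMap.inl ℚ V V') x.1 + (LinearMap.fst ℚ V V' ∘ₗ (r : Module.End ℚ (V × V')) ∘ₗ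
      LinearMap.inr ℚ V V') x.2 := by
    rw [smul_eq]
    conv_lhs => rw [hx]
    rw [map_add]
    rfl
  have e2 : (r • x).2 = (LinearMap.snd ℚ V V' ∘ₗ (r : Module.End ℚ (V × V')) ∘ₗ
      LinearMap.inl ℚ V V') x.1 + (LinearMap.snd ℚ V V' ∘ₗ (r : Module.End ℚ (V × V')) ∘ₗ
      LinearMap.inr ℚ V V') x.2 := by
    rw [smul_eq]
    conv_lhs => rw [hx]
    rw [map_add]
    rfl
  have e3 : ((⟨_, X.mem11 X' a ha⟩ + ⟨_, X.mem12 X' b hb⟩ + ⟨_, X.mem21 X' c hc⟩ +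
      ⟨_, X.mem22 X' e he⟩ : X.blockAlg X') • y) = (a y.1 + b y.2, c y.1 + e y.2) := by
    rw [smul_eq]
    change (LinearMap.inl ℚ V V' ∘ₗ a ∘ₗ LinearMap.fst ℚ V V' +
      LinearMap.inl ℚ V V' ∘ₗ b ∘ₗ LinearMap.snd ℚ V V' +
      LinearMap.inr ℚ V V' ∘ₗ c ∘ₗ LinearMap.fst ℚ V V' +
      LinearMap.inr ℚ V V' ∘ₗ e ∘ₗ LinearMap.snd ℚ V V' : (V × V') →ₗ[ℚ] (V × V')) y = _
    ext <;> simp
  rw [qq_apply, qq_apply, e1, e2, e3]
  simp only [map_add, AddMonoidHom.add_apply]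
  rw [ha', hb', hc', he']
  ring

theorem regular (X : HodgeLefschetz d V) (X' : HodgeLefschetz d V') (x : X.blockAlg X') :
    ∃ z : X.blockAlg X', x * z * x = x := by
  obtain ⟨T, hTT, hTε, hεT, -, hTq, hpos, -⟩ := (X.pkg₁ X').exists_polar (X.qq_symm X')
  obtain ⟨T', hTT', hTε', hεT', -, hTq', hpos', -⟩ := (X.pkg₂ X').exists_polar (X.qq_symm X')
  set q := X.qq X' with hq
  have hz1 : T * T' = 0 := by
    calc T * T' = T * ((X.pkg₁ X').ε * (X.pkg₂ X').ε) * T' := by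
          rw [← mul_assoc, hTε, mul_assoc, hεT']
      _ = 0 := by rw [ε_mul_ε, mul_zero, zero_mul]
  have hz2 : T' * T = 0 := by
    calc T' * T = T' * ((X.pkg₂ X').ε * (X.pkg₁ X').ε) * T := by
          rw [← mul_assoc, hTε', mul_assoc, hεT]
      _ = 0 := by rw [ε_mul_ε', mul_zero, zero_mul]
  have hSS : (T + T') * (T + T') = 1 := by
    rw [add_mul, mul_add, mul_add, hTT, hTT', hz1, hz2, add_zero, zero_add, ε_add_ε]
  have hSq : ∀ x y, q ((T + T') • x) y = q x ((T + T') • y) := by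
    intro x y
    rw [add_smul, add_smul, map_add, map_add, AddMonoidHom.add_apply, hTq, hTq']
  let Ψ : (V × V') →+ (V × V') →+ ℝ :=
    { toFun := fun x =>
        { toFun := fun y => q x ((T + T') • y)
          map_zero' := by simp
          map_add' := fun y z => by rw [smul_add, map_add] }
      map_zero' := by ext <;> simp
      map_add' := fun x y => by
        refine AddMonoidHom.ext (fun z => ?_)
        simp only [map_add, AddMonoidHom.coe_mk, ZeroHom.coe_mk, AddMonoidHom.add_apply] }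
  have hΨ : ∀ x y, Ψ x y = q x ((T + T') • y) := fun x y => rfl
  refine exists_regular Ψ ?_ ?_ ?_ x
  · intro x y
    rw [hΨ, hΨ, X.qq_symm X', hSq]
  · intro x hx
    rw [hΨ, add_smul, map_add]
    have h1 : q ((X.pkg₁ X').ε • x) (T • ((X.pkg₁ X').ε • x)) = q x (T • x) := by
      rw [← mul_smul, hTε, X.qq_symm X', hTq, ← mul_smul, hTε]
    have h2 : q ((X.pkg₂ X').ε • x) (T' • ((X.pkg₂ X').ε • x)) = q x (T' • x) := by
      rw [← mul_smul, hTε', X.qq_symm X', hTq', ← mul_smul, hTε']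
    rw [← h1, ← h2]
    have h3 : (X.pkg₁ X').ε • x + (X.pkg₂ X').ε • x = x := by
      rw [← add_smul, ε_add_ε, one_smul]
    have h4 : (X.pkg₁ X').ε • ((X.pkg₁ X').ε • x) = (X.pkg₁ X').ε • x := by
      rw [← mul_smul, Pkg.ε_self]
    have h5 : (X.pkg₂ X').ε • ((X.pkg₂ X').ε • x) = (X.pkg₂ X').ε • x := by
      rw [← mul_smul, Pkg.ε_self]
    by_cases h6 : (X.pkg₁ X').ε • x = 0
    · have h7 : (X.pkg₂ X').ε • x ≠ 0 := by
        intro h7
        rw [h6, h7, add_zero] at h3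
        exact hx h3.symm
      rw [h6, smul_zero, map_zero, zero_add]
      exact hpos' _ h5 h7
    · by_cases h7 : (X.pkg₂ X').ε • x = 0
      · rw [h7, smul_zero, map_zero, add_zero]
        exact hpos _ h4 h6
      · exact add_pos (hpos _ h4 h6) (hpos' _ h5 h7)
  · intro r
    obtain ⟨r', hr'⟩ := X.exists_adj X' r
    refine ⟨(T + T') * r' * (T + T'), fun x y => ?_⟩
    rw [hΨ, hΨ, hr', ← mul_smul, ← mul_smul]
    congr 2
    rw [← mul_assoc, ← mul_assoc, hSS, one_mul]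

end Fin

end HodgeLefschetz

end Pool.Agent.Lib.OrlovSig
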