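import Pool.Agent.Lib.OrlovSig.HodgeBase

/-!
# The real form `q(x, y) = ⟨x, C y⟩` of a Hodge-Lefschetz datum
-/

set_option autoImplicit false

open scoped TensorProduct ComplexOrder

namespace Pool.Agent.Lib.OrlovSig

namespace HodgeLefschetz

variable {d : ℕ} {V V' : Type*} [AddCommGroup V] [Module ℚ V] [AddCommGroup V'] [Module ℚ V']

/-- The Weil operator, which is `i^(p-q)` on `H^{p,q}`. -/
noncomputable def weil (X : HodgeLefschetz d V) : (ℂ ⊗[ℚ] V) →ₗ[ℂ] (ℂ ⊗[ℚ] V) :=
  ∑ i ∈ Finset.range (2 * d + 1) ×ˢ Finset.range (2 * d + 1),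
    (Complex.I ^ i.1 * (-Complex.I) ^ i.2) • X.hp i.1 i.2

/-- The real valued form `q(x, y) = ⟨x, C y⟩` on rational vectors. -/
noncomputable def qf (X : HodgeLefschetz d V) : V →+ V →+ ℝ where
  toFun x :=
    { toFun := fun y => (X.pair.baseChange ℂ (1 ⊗ₜ x) (X.weil (1 ⊗ₜ y))).re
      map_zero' := by simp
      map_add' := fun y z => by rw [TensorProduct.tmul_add, map_add, map_add, Complex.add_re] }
  map_zero' := by ext; simp
  map_add' x y := by
    ext z
    simp only [TensorProduct.tmul_add, map_add, LinearMap.add_apply, Complex.add_re,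
      AddMonoidHom.coe_mk, ZeroHom.coe_mk, AddMonoidHom.add_apply]

/-- Maps compatible with the Hodge decompositions up to Tate twists. -/
def IsHodge (X : HodgeLefschetz d V) (X' : HodgeLefschetz d V') (f : V →ₗ[ℚ] V') : Prop :=
  ∀ c x, f.baseChange ℂ (X.col c x) = X'.col c (f.baseChange ℂ x)

theorem qf_apply (X : HodgeLefschetz d V) (x y : V) :
    X.qf x y = (X.pair.baseChange ℂ (1 ⊗ₜ x) (X.weil (1 ⊗ₜ y))).re := rfl

theorem weil_hp (X : HodgeLefschetz d V) (p q : ℕ) (x : ℂ ⊗[ℚ] V) :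
    X.weil (X.hp p q x) = (Complex.I ^ p * (-Complex.I) ^ q) • X.hp p q x := by
  unfold weil
  rw [LinearMap.sum_apply]
  by_cases hpq : p + q ≤ 2 * d
  · rw [Finset.sum_eq_single (p, q)]
    · rw [LinearMap.smul_apply, X.hp_self]
    · rintro ⟨a, b⟩ _ hab
      rw [LinearMap.smul_apply, X.hp_hp, if_neg, smul_zero]
      rintro ⟨rfl, rfl⟩
      exact hab rfl
    · intro h
      exfalso
      apply h
      rw [Finset.mem_product, Finset.mem_range, Finset.mem_range]
      constructor <;> omega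
  · rw [X.hp_top p q (by omega)]
    simp

theorem I_pow_mul_neg_I_pow (p q : ℕ) :
    Complex.I ^ p * (-Complex.I) ^ q = Complex.I ^ ((p : ℤ) - q) := by
  rw [zpow_sub₀ Complex.I_ne_zero, zpow_natCast, zpow_natCast, ← Complex.inv_I, inv_pow,
    div_eq_mul_inv]

/-- The Weil operator in terms of the columns. -/
theorem weil_eq (X : HodgeLefschetz d V) (x : ℂ ⊗[ℚ] V) :
    X.weil x = ∑ c ∈ Finset.Icc (-(2 * d : ℤ)) (2 * d), (Complex.I ^ c) • X.col c x := by
  have h : X.weil = ∑ c ∈ Finset.Icc (-(2 * d : ℤ)) (2 * d), (Complex.I ^ c) • X.col c := by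
    apply X.ext_hp
    intro p q y
    rw [X.weil_hp, LinearMap.sum_apply, I_pow_mul_neg_I_pow]
    by_cases hpq : p + q ≤ 2 * d
    · rw [Finset.sum_eq_single ((p : ℤ) - q)]
      · rw [LinearMap.smul_apply, X.col_hp, if_pos rfl]
      · intro c _ hc
        rw [LinearMap.smul_apply, X.col_hp, if_neg (Ne.symm hc), smul_zero]
      · intro h
        exfalso
        apply h
        rw [Finset.mem_Icc]
        constructor <;> omega
    · rw [X.hp_top p q (by omega)]
      simp
  rw [h, LinearMap.sum_apply]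
  rfl

/-- Hodge maps commute with the Weil operators. -/
theorem IsHodge.weil {X : HodgeLefschetz d V} {X' : HodgeLefschetz d V'} {f : V →ₗ[ℚ] V'}
    (hf : X.IsHodge X' f) (x : ℂ ⊗[ℚ] V) :
    f.baseChange ℂ (X.weil x) = X'.weil (f.baseChange ℂ x) := by
  rw [X.weil_eq, X'.weil_eq, map_sum]
  refine Finset.sum_congr rfl fun c _ => ?_
  rw [map_smul, hf]

theorem isHodge_pr (X : HodgeLefschetz d V) (j : ℕ) : X.IsHodge X (X.pr j) := by
  intro c x
  have h : (X.pr j).baseChange ℂ ∘ₗ X.col c = X.col c ∘ₗ (X.pr j).baseChange ℂ := by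
    apply X.ext_hp
    intro p q y
    rw [LinearMap.comp_apply, LinearMap.comp_apply, X.col_hp, X.prC_hp]
    split_ifs with h1 h2 h2
    · rw [X.prC_hp, if_pos h2, X.col_hp, if_pos h1]
    · rw [X.prC_hp, if_neg h2, map_zero]
    · rw [X.col_hp, if_neg h1, map_zero]
    · rw [map_zero, map_zero]
  exact LinearMap.congr_fun h x

theorem isHodge_lef (X : HodgeLefschetz d V) : X.IsHodge X X.lef := by
  intro c x
  have h : X.lef.baseChange ℂ ∘ₗ X.col c = X.col c ∘ₗ X.lef.baseChange ℂ := by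
    apply X.ext_hp
    intro p q y
    rw [LinearMap.comp_apply, LinearMap.comp_apply, X.col_hp, X.lef_hp, X.col_hp]
    split_ifs with h1 h2 h2
    · rw [X.lef_hp]
    · exfalso; apply h2; push_cast; linarith
    · exfalso; apply h1; push_cast at h2; linarith
    · rw [map_zero]
  exact LinearMap.congr_fun h x

theorem isHodge_can (X : HodgeLefschetz d V) : X.IsHodge X X.can := by
  intro c x
  have h : X.can.baseChange ℂ ∘ₗ X.col c = X.col c ∘ₗ X.can.baseChange ℂ := by
    apply X.ext_hp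
    intro p q y
    rw [LinearMap.comp_apply, LinearMap.comp_apply, X.col_hp, X.can_hp, X.col_hp]
    split_ifs with h1 h2 h2
    · rw [X.can_hp]
    · exfalso; apply h2; push_cast; linarith
    · exfalso; apply h1; push_cast at h2; linarith
    · rw [map_zero]
  exact LinearMap.congr_fun h x

theorem isHodge_id (X : HodgeLefschetz d V) : X.IsHodge X LinearMap.id := by
  intro c x
  rw [LinearMap.baseChange_id]
  rfl

theorem isHodge_zero (X : HodgeLefschetz d V) (X' : HodgeLefschetz d V') :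
    X.IsHodge X' 0 := by
  intro c x
  rw [LinearMap.baseChange_zero, LinearMap.zero_apply, LinearMap.zero_apply, map_zero]

theorem IsHodge.add {X : HodgeLefschetz d V} {X' : HodgeLefschetz d V'} {f g : V →ₗ[ℚ] V'}
    (hf : X.IsHodge X' f) (hg : X.IsHodge X' g) : X.IsHodge X' (f + g) := by
  intro c x
  rw [LinearMap.baseChange_add, LinearMap.add_apply, LinearMap.add_apply, map_add, hf, hg]

theorem IsHodge.smul {X : HodgeLefschetz d V} {X' : HodgeLefschetz d V'} {f : V →ₗ[ℚ] V'}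
    (a : ℚ) (hf : X.IsHodge X' f) : X.IsHodge X' (a • f) := by
  intro c x
  rw [LinearMap.baseChange_smul, LinearMap.smul_apply, LinearMap.smul_apply, hf]
  have : ∀ z : ℂ ⊗[ℚ] V', a • z = (a : ℂ) • z := by
    intro z
    induction z using TensorProduct.induction_on with
    | zero => simp
    | tmul b v =>
      rw [TensorProduct.smul_tmul', TensorProduct.smul_tmul', Rat.smul_def, smul_eq_mul]
    | add u v hu hv => rw [smul_add, smul_add, hu, hv]
  rw [this, this, map_smul]

theorem IsHodge.comp {V'' : Type*} [AddCommGroup V''] [Module ℚ V''] {X : HodgeLefschetz d V}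
    {X' : HodgeLefschetz d V'} {X'' : HodgeLefschetz d V''} {f : V →ₗ[ℚ] V'} {g : V' →ₗ[ℚ] V''}
    (hg : X'.IsHodge X'' g) (hf : X.IsHodge X' f) : X.IsHodge X'' (g ∘ₗ f) := by
  intro c x
  rw [LinearMap.baseChange_comp, LinearMap.comp_apply, LinearMap.comp_apply, hf, hg]

theorem IsHodge.symm {X : HodgeLefschetz d V} {X' : HodgeLefschetz d V'} (u : V ≃ₗ[ℚ] V')
    (hu : X.IsHodge X' u.toLinearMap) : X'.IsHodge X u.symm.toLinearMap := by
  intro c x
  have h1 : ∀ z : ℂ ⊗[ℚ] V', u.toLinearMap.baseChange ℂ (u.symm.toLinearMap.baseChange ℂ z) = z := by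
    intro z
    rw [← LinearMap.comp_apply, ← LinearMap.baseChange_comp]
    simp
  have h2 : ∀ z : ℂ ⊗[ℚ] V, u.symm.toLinearMap.baseChange ℂ (u.toLinearMap.baseChange ℂ z) = z := by
    intro z
    rw [← LinearMap.comp_apply, ← LinearMap.baseChange_comp]
    simp
  have h3 := hu c (u.symm.toLinearMap.baseChange ℂ x)
  rw [h1] at h3
  rw [← h3, h2]

/-- graded symmetry of the complexified pairing -/
theorem pairC_comm (X : HodgeLefschetz d V) (p q p' q' : ℕ) (x y : ℂ ⊗[ℚ] V) :
    X.pair.baseChange ℂ (X.hp p' q' y) (X.hp p q x) =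
      (-1) ^ ((p + q) * (p' + q')) * X.pair.baseChange ℂ (X.hp p q x) (X.hp p' q' y) := by
  have h : (X.pair.baseChange ℂ).compl₁₂ ((X.pr (p + q)).baseChange ℂ)
        ((X.pr (p' + q')).baseChange ℂ) =
      ((-1 : ℂ) ^ ((p + q) * (p' + q'))) • ((X.pair.baseChange ℂ).compl₁₂
        ((X.pr (p' + q')).baseChange ℂ) ((X.pr (p + q)).baseChange ℂ)).flip := by
    apply bil_ext
    intro v w
    simp only [LinearMap.compl₁₂_apply, LinearMap.baseChange_tmul, LinearMap.smul_apply,
      LinearMap.flip_apply, LinearMap.BilinForm.baseChange_tmul, mul_one]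
    have h1 := X.pair_comm (p' + q') (p + q) w v
    rw [mul_comm (p' + q')] at h1
    rw [h1]
    rcases Nat.even_or_odd ((p + q) * (p' + q')) with he | ho
    · simp [he.neg_one_pow]
    · simp [ho.neg_one_pow]
  have h1 := LinearMap.congr_fun₂ h (X.hp p q x) (X.hp p' q' y)
  simp only [LinearMap.compl₁₂_apply, LinearMap.smul_apply, LinearMap.flip_apply, X.prC_hp,
    if_true, smul_eq_mul] at h1
  rw [h1, ← mul_assoc, ← pow_add, ← two_mul, pow_mul]
  norm_num

theorem pairC_pr (X : HodgeLefschetz d V) (i : ℕ) (hi : i ≤ 2 * d) (x y : ℂ ⊗[ℚ] V) :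
    X.pair.baseChange ℂ ((X.pr i).baseChange ℂ x) y =
      X.pair.baseChange ℂ x ((X.pr (2 * d - i)).baseChange ℂ y) := by
  have h := X.ext_hp₂ (f := (X.pair.baseChange ℂ).compl₁₂ ((X.pr i).baseChange ℂ) LinearMap.id)
    (g := (X.pair.baseChange ℂ).compl₁₂ LinearMap.id ((X.pr (2 * d - i)).baseChange ℂ)) ?_ x y
  · simpa only [LinearMap.compl₁₂_apply, LinearMap.id_apply] using h
  · intro p q x p' q' y
    simp only [LinearMap.compl₁₂_apply, LinearMap.id_apply, X.prC_hp]
    by_cases hd : (p + p', q + q') = (d, d)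
    · rw [Prod.mk.injEq] at hd
      split_ifs with h1 h2 h2
      · rfl
      · omega
      · omega
      · simp
    · have h0 := X.pair_hp p q p' q' x y hd
      split_ifs with h1 h2 h2
      · rfl
      · rw [h0]; simp
      · rw [h0]; simp
      · simp

theorem pairC_col (X : HodgeLefschetz d V) (c : ℤ) (x y : ℂ ⊗[ℚ] V) :
    X.pair.baseChange ℂ (X.col c x) y = X.pair.baseChange ℂ x (X.col (-c) y) := by
  have h := X.ext_hp₂ (f := (X.pair.baseChange ℂ).compl₁₂ (X.col c) LinearMap.id)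
    (g := (X.pair.baseChange ℂ).compl₁₂ LinearMap.id (X.col (-c))) ?_ x y
  · simpa only [LinearMap.compl₁₂_apply, LinearMap.id_apply] using h
  · intro p q x p' q' y
    simp only [LinearMap.compl₁₂_apply, LinearMap.id_apply, X.col_hp]
    by_cases hd : (p + p', q + q') = (d, d)
    · rw [Prod.mk.injEq] at hd
      split_ifs with h1 h2 h2
      · rfl
      · omega
      · omega
      · simp
    · have h0 := X.pair_hp p q p' q' x y hd
      split_ifs with h1 h2 h2
      · rfl
      · rw [h0]; simp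
      · rw [h0]; simp
      · simp

theorem qf_symm (X : HodgeLefschetz d V) (x y : V) : X.qf x y = X.qf y x := by
  have key : ∀ x y : ℂ ⊗[ℚ] V, X.pair.baseChange ℂ x (X.weil y) =
      X.pair.baseChange ℂ y (X.weil x) := by
    intro x y
    have h := X.ext_hp₂ (f := (X.pair.baseChange ℂ).compl₁₂ LinearMap.id X.weil)
      (g := ((X.pair.baseChange ℂ).compl₁₂ LinearMap.id X.weil).flip) ?_ x y
    · simpa only [LinearMap.compl₁₂_apply, LinearMap.id_apply, LinearMap.flip_apply] using h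
    · intro p q x p' q' y
      simp only [LinearMap.compl₁₂_apply, LinearMap.id_apply, LinearMap.flip_apply, X.weil_hp,
        map_smul, smul_eq_mul]
      by_cases hd : (p + p', q + q') = (d, d)
      · rw [X.pairC_comm p q p' q' x y]
        rw [Prod.mk.injEq] at hd
        have e1 : (-1 : ℂ) ^ ((p + q) * (p' + q')) = (-1) ^ (p + q) := by
          rcases Nat.even_or_odd (p + q) with he | ho
          · rw [he.neg_one_pow, (he.mul_right _).neg_one_pow]
          · have ho' : Odd (p' + q') := by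
              have h2 : Even ((p + q) + (p' + q')) := ⟨d, by omega⟩
              rw [Nat.even_add'] at h2
              exact h2.1 ho
            rw [ho.neg_one_pow, (ho.mul ho').neg_one_pow]
        have e2 : Complex.I ^ p' * (-Complex.I) ^ q' =
            Complex.I ^ p * (-Complex.I) ^ q * (-1) ^ (p + q) := by
          have h3 : (-1 : ℂ) = Complex.I ^ (2 : ℤ) := by
            rw [show ((2 : ℤ)) = ((2 : ℕ) : ℤ) from rfl, zpow_natCast, Complex.I_sq]
          rw [I_pow_mul_neg_I_pow, I_pow_mul_neg_I_pow, h3, ← zpow_natCast, ← zpow_mul,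
            ← zpow_add₀ Complex.I_ne_zero]
          have h4 : Complex.I ^ (4 * (q : ℤ)) = 1 := by
            rw [zpow_mul]
            have : Complex.I ^ (4 : ℤ) = 1 := by
              rw [show ((4 : ℤ)) = ((4 : ℕ) : ℤ) from rfl, zpow_natCast, Complex.I_pow_four]
            rw [this, one_zpow]
          have h5 : Complex.I ^ (4 * (p : ℤ)) = 1 := by
            rw [zpow_mul]
            have : Complex.I ^ (4 : ℤ) = 1 := by
              rw [show ((4 : ℤ)) = ((4 : ℕ) : ℤ) from rfl, zpow_natCast, Complex.I_pow_four]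
            rw [this, one_zpow]
          have h6 : ((p : ℤ) - q + 2 * ((p + q : ℕ) : ℤ)) = ((p' : ℤ) - q') + 4 * (p : ℤ) := by
            push_cast
            omega
          rw [h6, zpow_add₀ Complex.I_ne_zero, h5, mul_one]
        rw [e1, e2]
        ring
      · have h0 := X.pair_hp p q p' q' x y hd
        have h1 : X.pair.baseChange ℂ (X.hp p' q' y) (X.hp p q x) = 0 := by
          rw [X.pairC_comm, h0, mul_zero]
        rw [h0, h1, mul_zero, mul_zero]
  rw [qf_apply, qf_apply, key]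

theorem qf_of_pair (X : HodgeLefschetz d V) (X' : HodgeLefschetz d V') (f1 f2 : V →ₗ[ℚ] V')
    (h2 : X.IsHodge X' f2) (g1 g2 : V →ₗ[ℚ] V) (k2 : X.IsHodge X g2)
    (h : ∀ x y, X'.pair (f1 x) (f2 y) = X.pair (g1 x) (g2 y)) (x y : V) :
    X'.qf (f1 x) (f2 y) = X.qf (g1 x) (g2 y) := by
  rw [qf_apply, qf_apply]
  have e1 : (1 : ℂ) ⊗ₜ[ℚ] f2 y = f2.baseChange ℂ (1 ⊗ₜ y) := rfl
  have e2 : (1 : ℂ) ⊗ₜ[ℚ] g2 y = g2.baseChange ℂ (1 ⊗ₜ y) := rfl
  have e3 : (1 : ℂ) ⊗ₜ[ℚ] f1 x = f1.baseChange ℂ (1 ⊗ₜ x) := rfl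
  have e4 : (1 : ℂ) ⊗ₜ[ℚ] g1 x = g1.baseChange ℂ (1 ⊗ₜ x) := rfl
  rw [e1, e2, e3, e4, ← h2.weil, ← k2.weil, bilC_adj h]

theorem qf_pr (X : HodgeLefschetz d V) (i : ℕ) (hi : i ≤ 2 * d) (x y : V) :
    X.qf (X.pr i x) y = X.qf x (X.pr (2 * d - i) y) := by
  have e1 : (1 : ℂ) ⊗ₜ[ℚ] X.pr i x = (X.pr i).baseChange ℂ (1 ⊗ₜ x) := rfl
  have e2 : (1 : ℂ) ⊗ₜ[ℚ] X.pr (2 * d - i) y = (X.pr (2 * d - i)).baseChange ℂ (1 ⊗ₜ y) := rfl
  rw [qf_apply, qf_apply, e1, e2, X.pairC_pr i hi, (X.isHodge_pr _).weil]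

theorem qf_lef (X : HodgeLefschetz d V) (x y : V) :
    X.qf (X.lef x) y = X.qf x (X.lef y) := by
  have h := X.qf_of_pair X X.lef LinearMap.id X.isHodge_id LinearMap.id X.lef X.isHodge_lef
    (fun x y => X.lef_pair x y) x y
  simpa using h

theorem qf_can (X : HodgeLefschetz d V) (x y : V) :
    X.qf (X.can x) y = X.qf x (X.can y) := by
  have h := X.qf_of_pair X X.can LinearMap.id X.isHodge_id LinearMap.id X.can X.isHodge_can
    (fun x y => X.can_pair x y) x y
  simpa using h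

theorem lefC_pow_hp (X : HodgeLefschetz d V) (k p q : ℕ) (x : ℂ ⊗[ℚ] V) :
    ((X.lef.baseChange ℂ) ^ k) (X.hp p q x) =
      X.hp (p + k) (q + k) (((X.lef.baseChange ℂ) ^ k) x) := by
  induction k with
  | zero => rfl
  | succ k ih =>
    rw [pow_succ', Module.End.mul_apply, ih, X.lef_hp, ← Module.End.mul_apply]
    rfl

theorem qf_riemann (X : HodgeLefschetz d V) (j : ℕ) (hj : j ≤ d) (x : V) (hx : X.pr j x = x)
    (h0 : (X.lef ^ (d - j + 1)) x = 0) (hx0 : x ≠ 0) :
    0 < (-1 : ℝ) ^ (j * (j + 1) / 2) * X.qf x ((X.lef ^ (d - j)) x) := by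
  set ξ : ℂ ⊗[ℚ] V := 1 ⊗ₜ x with hξ
  set N := X.lef.baseChange ℂ with hN
  set k := d - j with hk
  have hξ0 : ξ ≠ 0 := by
    intro h
    apply hx0
    apply one_tmul_inj (V := V)
    rw [TensorProduct.tmul_zero]
    exact h
  have hsum : ∑ p ∈ Finset.range (j + 1), X.hp p (j - p) ξ = ξ := by
    have h1 := LinearMap.congr_fun (X.hp_sum j) ξ
    rw [LinearMap.sum_apply] at h1
    rw [h1, hξ, LinearMap.baseChange_tmul, hx]
  have hpow : ∀ m : ℕ, (1 : ℂ) ⊗ₜ[ℚ] ((X.lef ^ m) x) = (N ^ m) ξ := by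
    intro m
    rw [hN, ← LinearMap.baseChange_pow]
    rfl
  have hprim : ∀ p q, p + q = j → (N ^ (d - (p + q) + 1)) (X.hp p q ξ) = 0 := by
    intro p q hpq
    rw [hpq, hN, X.lefC_pow_hp, ← hN, ← hk, ← hpow, h0, TensorProduct.tmul_zero, map_zero]
  -- the terms
  set T : ℕ → ℂ := fun p => Complex.I ^ p * (-Complex.I) ^ (j - p) *
    (-1) ^ ((p + (j - p)) * (p + (j - p) - 1) / 2) *
      X.pair.baseChange ℂ (X.hp p (j - p) ξ) ((N ^ (d - (p + (j - p)))) (conj V (X.hp p (j - p) ξ)))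
    with hT
  have hTpos : ∀ p ∈ Finset.range (j + 1), X.hp p (j - p) ξ ≠ 0 → 0 < (T p).re := by
    intro p hp hne
    rw [Finset.mem_range] at hp
    have h1 := X.riemann p (j - p) (by omega) (X.hp p (j - p) ξ) (X.hp_self _ _ _) hne
      (hprim p (j - p) (by omega))
    exact (Complex.lt_def.1 h1).1
  have hTnonneg : ∀ p ∈ Finset.range (j + 1), 0 ≤ (T p).re := by
    intro p hp
    by_cases hne : X.hp p (j - p) ξ = 0
    · have : T p = 0 := by rw [hT]; simp [hne]
      rw [this, Complex.zero_re]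
    · exact (hTpos p hp hne).le
  have hex : ∃ p ∈ Finset.range (j + 1), X.hp p (j - p) ξ ≠ 0 := by
    by_contra hcon
    push Not at hcon
    apply hξ0
    rw [← hsum]
    exact Finset.sum_eq_zero hcon
  have hpos : 0 < (∑ p ∈ Finset.range (j + 1), T p).re := by
    rw [Complex.re_sum]
    obtain ⟨p, hp, hne⟩ := hex
    exact Finset.sum_pos' hTnonneg ⟨p, hp, hTpos p hp hne⟩
  -- identification
  have key : (((-1 : ℝ) ^ (j * (j + 1) / 2) : ℝ) : ℂ) *
      X.pair.baseChange ℂ ξ (X.weil ((N ^ k) ξ)) = ∑ p ∈ Finset.range (j + 1), T p := by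
    have e1 : X.weil ((N ^ k) ξ) = ∑ p ∈ Finset.range (j + 1),
        (Complex.I ^ (p + k) * (-Complex.I) ^ (j - p + k)) • (N ^ k) (X.hp p (j - p) ξ) := by
      conv_lhs => rw [← hsum]
      rw [map_sum, map_sum]
      refine Finset.sum_congr rfl fun p _ => ?_
      rw [hN, X.lefC_pow_hp, X.weil_hp]
    rw [e1, map_sum, ← Finset.sum_range_reflect, Finset.mul_sum]
    refine Finset.sum_congr rfl fun p hp => ?_
    rw [Finset.mem_range] at hp
    have e2 : j + 1 - 1 - p = j - p := by omega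
    have e3 : j - (j - p) = p := by omega
    rw [e2, e3, map_smul, smul_eq_mul]
    -- only one component pairs
    have e4 : X.pair.baseChange ℂ ξ ((N ^ k) (X.hp (j - p) p ξ)) =
        X.pair.baseChange ℂ (X.hp p (j - p) ξ) ((N ^ k) (X.hp (j - p) p ξ)) := by
      have e8 : ∀ z, X.pair.baseChange ℂ ξ z =
          ∑ b ∈ Finset.range (j + 1), X.pair.baseChange ℂ (X.hp b (j - b) ξ) z := by
        intro z
        conv_lhs => rw [← hsum]
        rw [map_sum, LinearMap.sum_apply]
      rw [e8]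
      apply Finset.sum_eq_single p
      · intro b hb hbp
        rw [Finset.mem_range] at hb
        rw [hN, X.lefC_pow_hp]
        apply X.pair_hp
        intro h
        rw [Prod.mk.injEq] at h
        omega
      · intro h
        rw [Finset.mem_range] at h
        omega
    have e5 : conj V (X.hp p (j - p) ξ) = X.hp (j - p) p ξ := by
      have := X.hp_conj (j - p) p ξ
      rw [← this, hξ, conj_one_tmul]
    have e6 : d - (p + (j - p)) = k := by omega
    have e7 : p + (j - p) = j := by omega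
    rw [e4, hT]
    simp only [e5, e6, e7]
    rw [← mul_assoc]
    congr 1
    -- scalars
    have s1 : j * (j + 1) / 2 = j * (j - 1) / 2 + j := by
      rcases j with _ | j
      · rfl
      · have : (j + 1) * (j + 1 + 1) = (j + 1) * (j + 1 - 1) + 2 * (j + 1) := by
          rw [Nat.add_sub_cancel]; ring
        rw [this, Nat.add_mul_div_left _ _ (by norm_num)]
    have s2 : (((-1 : ℝ) ^ (j * (j + 1) / 2) : ℝ) : ℂ) = (-1) ^ (j * (j - 1) / 2) * (-1) ^ j := by
      rw [s1, pow_add]; push_cast; ring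
    have s3 : (-1 : ℂ) ^ j = (-1) ^ p * (-1) ^ (j - p) := by
      rw [← pow_add]; congr 1; omega
    have s4 : (-1 : ℂ) ^ p * (-1) ^ p = 1 := by
      rw [← pow_add, ← two_mul, pow_mul]; norm_num
    have s5 : Complex.I ^ k * (-1) ^ k * Complex.I ^ k = 1 := by
      rw [← mul_pow, ← mul_pow]; simp
    rw [s2, s3, neg_pow Complex.I (p + k), neg_pow Complex.I (j - p), pow_add, pow_add, pow_add]
    linear_combination ((-1) ^ (j * (j - 1) / 2) * (-1) ^ (j - p) * Complex.I ^ (j - p) *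
      Complex.I ^ p) * (Complex.I ^ k * (-1) ^ k * Complex.I ^ k) * s4 +
      ((-1) ^ (j * (j - 1) / 2) * (-1) ^ (j - p) * Complex.I ^ (j - p) * Complex.I ^ p) * s5
  have hfin : (-1 : ℝ) ^ (j * (j + 1) / 2) * X.qf x ((X.lef ^ k) x) =
      (∑ p ∈ Finset.range (j + 1), T p).re := by
    rw [← key, qf_apply, hpow, ← hξ, Complex.re_ofReal_mul]
  rw [hfin]
  exact hpos

theorem lef_pow_pr (X : HodgeLefschetz d V) (k j : ℕ) :
    X.lef ^ k * X.pr j = X.pr (j + 2 * k) * X.lef ^ k := by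
  induction k with
  | zero => simp
  | succ k ih =>
    rw [pow_succ', mul_assoc, ih, ← mul_assoc, X.lef_pr, mul_assoc]
    rfl

theorem isHodge_pow (X : HodgeLefschetz d V) {f : V →ₗ[ℚ] V} (hf : X.IsHodge X f) (k : ℕ) :
    X.IsHodge X (f ^ k) := by
  induction k with
  | zero => exact X.isHodge_id
  | succ k ih =>
    rw [pow_succ']
    exact IsHodge.comp hf ih

theorem pair_pr (X : HodgeLefschetz d V) (i : ℕ) (hi : i ≤ 2 * d) (x y : V) :
    X.pair (X.pr i x) y = X.pair x (X.pr (2 * d - i) y) := by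
  have h := X.pairC_pr i hi (1 ⊗ₜ x) (1 ⊗ₜ y)
  simp only [LinearMap.baseChange_tmul, LinearMap.BilinForm.baseChange_tmul, mul_one] at h
  rw [Rat.smul_def, Rat.smul_def, mul_one, mul_one] at h
  exact_mod_cast h

theorem finrank_pr_le [FiniteDimensional ℚ V] (X : HodgeLefschetz d V) (i : ℕ) (hi : i ≤ 2 * d) :
    Module.finrank ℚ (LinearMap.range (X.pr i)) ≤
      Module.finrank ℚ (LinearMap.range (X.pr (2 * d - i))) := by
  rw [← Subspace.dual_finrank_eq (V := LinearMap.range (X.pr (2 * d - i)))]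
  set F : LinearMap.range (X.pr i) →ₗ[ℚ] Module.Dual ℚ (LinearMap.range (X.pr (2 * d - i))) :=
    (LinearMap.range (X.pr (2 * d - i))).subtype.dualMap ∘ₗ X.pair ∘ₗ
      (LinearMap.range (X.pr i)).subtype with hF
  apply LinearMap.finrank_le_finrank_of_injective (f := F)
  rw [injective_iff_map_eq_zero]
  rintro ⟨_, ⟨x, rfl⟩⟩ h
  apply Subtype.ext
  apply X.pair_nondeg
  intro y
  have h1 := LinearMap.congr_fun h ⟨X.pr (2 * d - i) y, ⟨y, rfl⟩⟩
  have h2 : X.pair (X.pr i x) (X.pr (2 * d - i) y) = 0 := by simpa [hF] using h1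
  rw [← X.pair_pr i hi] at h2
  rwa [← Module.End.mul_apply, X.pr_self] at h2

theorem finrank_pr_eq [FiniteDimensional ℚ V] (X : HodgeLefschetz d V) (i : ℕ) (hi : i ≤ 2 * d) :
    Module.finrank ℚ (LinearMap.range (X.pr i)) =
      Module.finrank ℚ (LinearMap.range (X.pr (2 * d - i))) := by
  apply le_antisymm (X.finrank_pr_le i hi)
  have := X.finrank_pr_le (2 * d - i) (by omega)
  rwa [show 2 * d - (2 * d - i) = i by omega] at this

/-- inverse of the Lefschetz isomorphism, zero outside `H^{2d-j}` -/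
theorem exists_theta [FiniteDimensional ℚ V] (X : HodgeLefschetz d V) (j : ℕ) (hj : j ≤ d) :
    ∃ θ : V →ₗ[ℚ] V, X.IsHodge X θ ∧ θ * (X.lef ^ (d - j) * X.pr j) = X.pr j ∧
      X.lef ^ (d - j) * θ = X.pr (2 * d - j) ∧ X.pr j * θ = θ ∧ θ * X.pr (2 * d - j) = θ := by
  have hL := X.lef_pow_pr (d - j) j
  rw [show j + 2 * (d - j) = 2 * d - j by omega] at hL
  have hmem : ∀ x : LinearMap.range (X.pr j),
      ((X.lef ^ (d - j)) ∘ₗ (LinearMap.range (X.pr j)).subtype) x ∈
        LinearMap.range (X.pr (2 * d - j)) := by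
    rintro ⟨_, ⟨x, rfl⟩⟩
    refine ⟨(X.lef ^ (d - j)) x, ?_⟩
    have := LinearMap.congr_fun hL x
    simpa using this.symm
  set F : LinearMap.range (X.pr j) →ₗ[ℚ] LinearMap.range (X.pr (2 * d - j)) :=
    LinearMap.codRestrict _ ((X.lef ^ (d - j)) ∘ₗ (LinearMap.range (X.pr j)).subtype) hmem with hF
  have hFapp : ∀ x, ((F x : LinearMap.range (X.pr (2 * d - j))) : V) =
      (X.lef ^ (d - j)) (x : V) := fun x => rfl
  have hFinj : Function.Injective F := by
    rw [injective_iff_map_eq_zero]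
    rintro ⟨_, ⟨x, rfl⟩⟩ h
    apply Subtype.ext
    apply X.hard j hj
    have := congrArg Subtype.val h
    rw [hFapp] at this
    exact this
  set e := LinearMap.linearEquivOfInjective F hFinj (X.finrank_pr_eq j (by omega)) with he
  have heF : ∀ x, e x = F x := fun x => rfl
  set θ : V →ₗ[ℚ] V := (LinearMap.range (X.pr j)).subtype ∘ₗ e.symm.toLinearMap ∘ₗ
    (X.pr (2 * d - j)).rangeRestrict with hθ
  have t1 : θ * (X.lef ^ (d - j) * X.pr j) = X.pr j := by
    ext v
    have h1 : (X.pr (2 * d - j)).rangeRestrict ((X.lef ^ (d - j)) (X.pr j v)) =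
        e ⟨X.pr j v, ⟨v, rfl⟩⟩ := by
      apply Subtype.ext
      rw [heF, hFapp]
      change X.pr (2 * d - j) ((X.lef ^ (d - j)) (X.pr j v)) = (X.lef ^ (d - j)) (X.pr j v)
      have h2 := LinearMap.congr_fun hL (X.pr j v)
      rw [Module.End.mul_apply, Module.End.mul_apply, ← Module.End.mul_apply (X.pr j),
        X.pr_self] at h2
      exact h2.symm
    rw [Module.End.mul_apply, Module.End.mul_apply, hθ]
    simp only [LinearMap.comp_apply, h1, LinearEquiv.coe_coe, LinearEquiv.symm_apply_apply]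
    rfl
  have t2 : X.lef ^ (d - j) * θ = X.pr (2 * d - j) := by
    ext v
    have h1 : ∀ w : LinearMap.range (X.pr (2 * d - j)),
        (X.lef ^ (d - j)) ((e.symm w : LinearMap.range (X.pr j)) : V) = w := by
      intro w
      rw [← hFapp, ← heF, LinearEquiv.apply_symm_apply]
    rw [Module.End.mul_apply, hθ]
    simp only [LinearMap.comp_apply, LinearEquiv.coe_coe, Submodule.subtype_apply, h1]
    rfl
  have t3 : X.pr j * θ = θ := by
    ext v
    have h1 : ∀ w : LinearMap.range (X.pr j), X.pr j (w : V) = w := by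
      rintro ⟨_, ⟨x, rfl⟩⟩
      exact LinearMap.congr_fun (X.pr_self j) x
    rw [Module.End.mul_apply, hθ]
    simp only [LinearMap.comp_apply, Submodule.subtype_apply, h1]
  have t4 : θ * X.pr (2 * d - j) = θ := by
    ext v
    have h1 : (X.pr (2 * d - j)).rangeRestrict (X.pr (2 * d - j) v) =
        (X.pr (2 * d - j)).rangeRestrict v := by
      apply Subtype.ext
      exact LinearMap.congr_fun (X.pr_self (2 * d - j)) v
    rw [Module.End.mul_apply, hθ]
    simp only [LinearMap.comp_apply, h1]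
  refine ⟨θ, ?_, t1, t2, t3, t4⟩
  -- compatibility with the columns
  set f : V →ₗ[ℚ] V := X.lef ^ (d - j) * X.pr j with hf
  have hfH : X.IsHodge X f := IsHodge.comp (X.isHodge_pow X.isHodge_lef _) (X.isHodge_pr j)
  have t5 : f * θ = X.pr (2 * d - j) := by rw [hf, mul_assoc, t3, t2]
  intro c x
  have b1 : ∀ z, (θ.baseChange ℂ) (f.baseChange ℂ z) = (X.pr j).baseChange ℂ z := by
    intro z
    rw [← Module.End.mul_apply, ← LinearMap.baseChange_mul, t1]
  have b2 : ∀ z, (f.baseChange ℂ) (θ.baseChange ℂ z) = (X.pr (2 * d - j)).baseChange ℂ z := by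
    intro z
    rw [← Module.End.mul_apply, ← LinearMap.baseChange_mul, t5]
  have b3 : ∀ z, (X.pr j).baseChange ℂ (θ.baseChange ℂ z) = θ.baseChange ℂ z := by
    intro z
    rw [← Module.End.mul_apply, ← LinearMap.baseChange_mul, t3]
  have b4 : ∀ z, (θ.baseChange ℂ) ((X.pr (2 * d - j)).baseChange ℂ z) = θ.baseChange ℂ z := by
    intro z
    rw [← Module.End.mul_apply, ← LinearMap.baseChange_mul, t4]
  calc θ.baseChange ℂ (X.col c x)
      = θ.baseChange ℂ ((X.pr (2 * d - j)).baseChange ℂ (X.col c x)) := (b4 _).symm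
    _ = θ.baseChange ℂ (X.col c ((X.pr (2 * d - j)).baseChange ℂ x)) := by
        rw [X.isHodge_pr (2 * d - j) c x]
    _ = θ.baseChange ℂ (X.col c (f.baseChange ℂ (θ.baseChange ℂ x))) := by rw [b2]
    _ = θ.baseChange ℂ (f.baseChange ℂ (X.col c (θ.baseChange ℂ x))) := by rw [hfH]
    _ = (X.pr j).baseChange ℂ (X.col c (θ.baseChange ℂ x)) := b1 _
    _ = X.col c ((X.pr j).baseChange ℂ (θ.baseChange ℂ x)) := X.isHodge_pr j c _
    _ = X.col c (θ.baseChange ℂ x) := by rw [b3]

theorem pair_flip_bijective [FiniteDimensional ℚ V] (X : HodgeLefschetz d V) :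
    Function.Bijective (LinearMap.flip X.pair) := by
  have h1 : Function.Injective X.pair := by
    rw [injective_iff_map_eq_zero]
    intro x hx
    apply X.pair_nondeg
    intro y
    rw [hx, LinearMap.zero_apply]
  have h2 : Function.Surjective X.pair :=
    (LinearMap.injective_iff_surjective_of_finrank_eq_finrank
      (Subspace.dual_finrank_eq (K := ℚ) (V := V)).symm).1 h1
  exact LinearMap.flip_bijective_iff₁.2 ⟨h1, h2⟩

theorem pairC_nondeg [FiniteDimensional ℚ V] (X : HodgeLefschetz d V) (z : ℂ ⊗[ℚ] V)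
    (h : ∀ x : V, X.pair.baseChange ℂ (1 ⊗ₜ x) z = 0) : z = 0 := by
  classical
  set b := Module.Free.chooseBasis ℚ ℂ with hb
  have key : ∀ (i : Module.Free.ChooseBasisIndex ℚ ℂ) (x : V) (z : ℂ ⊗[ℚ] V),
      b.coord i (X.pair.baseChange ℂ (1 ⊗ₜ x) z) =
        X.pair x (TensorProduct.lid ℚ V ((b.coord i).rTensor V z)) := by
    intro i x z
    induction z using TensorProduct.induction_on with
    | zero => simp
    | tmul a v =>
      rw [LinearMap.BilinForm.baseChange_tmul, one_mul, map_smul, LinearMap.rTensor_tmul,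
        TensorProduct.lid_tmul, map_smul, smul_eq_mul, smul_eq_mul, mul_comm]
    | add u v hu hv => simp only [map_add, hu, hv]
  have h1 : TensorProduct.equivFinsuppOfBasisLeft b z = 0 := by
    ext i
    rw [TensorProduct.equivFinsuppOfBasisLeft_apply, Finsupp.zero_apply]
    apply X.pair_flip_bijective.1
    rw [map_zero]
    ext x
    rw [LinearMap.flip_apply, ← key, h, map_zero, LinearMap.zero_apply]
  exact (LinearEquiv.map_eq_zero_iff _).1 h1

theorem exists_adjoint [FiniteDimensional ℚ V] [FiniteDimensional ℚ V'] (X : HodgeLefschetz d V)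
    (X' : HodgeLefschetz d V') (f : V →ₗ[ℚ] V') (hf : X.IsHodge X' f) :
    ∃ g : V' →ₗ[ℚ] V, X'.IsHodge X g ∧ ∀ x y, X'.qf (f x) y = X.qf x (g y) := by
  set e := LinearEquiv.ofBijective (LinearMap.flip X.pair) X.pair_flip_bijective with he
  set g : V' →ₗ[ℚ] V := e.symm.toLinearMap ∘ₗ f.dualMap ∘ₗ (LinearMap.flip X'.pair) with hg
  have hadj : ∀ x y, X'.pair (f x) y = X.pair x (g y) := by
    intro x y
    have h1 : e (g y) = f.dualMap ((LinearMap.flip X'.pair) y) := by
      rw [hg]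
      simp
    have h2 := LinearMap.congr_fun h1 x
    simpa [he] using h2.symm
  have hadjC : ∀ x y, X'.pair.baseChange ℂ (f.baseChange ℂ x) y =
      X.pair.baseChange ℂ x (g.baseChange ℂ y) := by
    have key : ((X'.pair.baseChange ℂ).compl₁₂ (f.baseChange ℂ) LinearMap.id) =
        ((X.pair.baseChange ℂ).compl₁₂ LinearMap.id (g.baseChange ℂ)) := by
      apply bil_ext
      intro v w
      simp only [LinearMap.compl₁₂_apply, LinearMap.baseChange_tmul, LinearMap.id_apply,
        LinearMap.BilinForm.baseChange_tmul, hadj]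
    intro x y
    have := LinearMap.congr_fun₂ key x y
    simpa only [LinearMap.compl₁₂_apply, LinearMap.id_apply] using this
  have hgH : X'.IsHodge X g := by
    intro c y
    rw [← sub_eq_zero]
    apply X.pairC_nondeg
    intro x
    have e0 : X.pair.baseChange ℂ (1 ⊗ₜ x) (X.col c (g.baseChange ℂ y)) =
        X.pair.baseChange ℂ (X.col (-c) (1 ⊗ₜ x)) (g.baseChange ℂ y) := by
      rw [X.pairC_col, neg_neg]
    have e1 : X'.pair.baseChange ℂ (f.baseChange ℂ (1 ⊗ₜ x)) (X'.col c y) =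
        X'.pair.baseChange ℂ (X'.col (-c) (f.baseChange ℂ (1 ⊗ₜ x))) y := by
      rw [X'.pairC_col, neg_neg]
    rw [map_sub, e0, ← hadjC, ← hadjC, e1, hf, sub_self]
  refine ⟨g, hgH, fun x y => ?_⟩
  rw [qf_apply, qf_apply]
  have e1 : (1 : ℂ) ⊗ₜ[ℚ] g y = g.baseChange ℂ (1 ⊗ₜ y) := rfl
  have e3 : (1 : ℂ) ⊗ₜ[ℚ] f x = f.baseChange ℂ (1 ⊗ₜ x) := rfl
  rw [e1, e3, hadjC, hgH.weil]

/-- `H^0(X)` and `H^0(X')` are isomorphic -/
theorem hodgeIso_zero [FiniteDimensional ℚ V] [FiniteDimensional ℚ V'] (X : HodgeLefschetz d V)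
    (X' : HodgeLefschetz d V') : HodgeIso X X' 0 := by
  have hdim : Module.finrank ℚ (LinearMap.range (X.pr 0)) =
      Module.finrank ℚ (LinearMap.range (X'.pr 0)) := by
    rw [X.finrank_zero, X'.finrank_zero]
  set e := LinearEquiv.ofFinrankEq _ _ hdim with he
  set f : V →ₗ[ℚ] V' := (LinearMap.range (X'.pr 0)).subtype ∘ₗ e.toLinearMap ∘ₗ
    (X.pr 0).rangeRestrict with hf
  set g : V' →ₗ[ℚ] V := (LinearMap.range (X.pr 0)).subtype ∘ₗ e.symm.toLinearMap ∘ₗ
    (X'.pr 0).rangeRestrict with hg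
  have r1 : ∀ w : LinearMap.range (X.pr 0), (X.pr 0).rangeRestrict (w : V) = w := by
    rintro ⟨_, ⟨x, rfl⟩⟩
    apply Subtype.ext
    exact LinearMap.congr_fun (X.pr_self 0) x
  have r2 : ∀ w : LinearMap.range (X'.pr 0), (X'.pr 0).rangeRestrict (w : V') = w := by
    rintro ⟨_, ⟨x, rfl⟩⟩
    apply Subtype.ext
    exact LinearMap.congr_fun (X'.pr_self 0) x
  refine ⟨f, g, ?_, ?_, ?_⟩
  · ext v
    rw [LinearMap.comp_apply, hf, hg]
    simp only [LinearMap.comp_apply, Submodule.subtype_apply, LinearEquiv.coe_coe, r2,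
      LinearEquiv.symm_apply_apply]
    rfl
  · ext v
    rw [LinearMap.comp_apply, hf, hg]
    simp only [LinearMap.comp_apply, Submodule.subtype_apply, LinearEquiv.coe_coe, r1,
      LinearEquiv.apply_symm_apply]
    rfl
  · intro p q hpq x
    obtain ⟨rfl, rfl⟩ : p = 0 ∧ q = 0 := by omega
    have h1 : X.hp 0 0 = (X.pr 0).baseChange ℂ := by
      rw [← X.hp_sum 0]; simp
    have h2 : X'.hp 0 0 = (X'.pr 0).baseChange ℂ := by
      rw [← X'.hp_sum 0]; simp
    have h3 : f ∘ₗ X.pr 0 = X'.pr 0 ∘ₗ f := by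
      ext v
      rw [LinearMap.comp_apply, LinearMap.comp_apply, hf]
      simp only [LinearMap.comp_apply, Submodule.subtype_apply, LinearEquiv.coe_coe]
      have h4 : (X.pr 0).rangeRestrict (X.pr 0 v) = (X.pr 0).rangeRestrict v := by
        apply Subtype.ext
        exact LinearMap.congr_fun (X.pr_self 0) v
      rw [h4]
      exact (congrArg Subtype.val (r2 (e ((X.pr 0).rangeRestrict v)))).symm
    rw [h1, h2, ← LinearMap.comp_apply, ← LinearMap.baseChange_comp, h3,
      LinearMap.baseChange_comp, LinearMap.comp_apply]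

theorem col_prC (Y : HodgeLefschetz d V) {j p q : ℕ} (hpq : p + q = j) (y : ℂ ⊗[ℚ] V) :
    Y.col ((p : ℤ) - q) ((Y.pr j).baseChange ℂ y) = Y.hp p q y := by
  have h1 : Y.col ((p : ℤ) - q) ∘ₗ (Y.pr j).baseChange ℂ = Y.hp p q := by
    apply Y.ext_hp
    intro a b z
    rw [LinearMap.comp_apply, Y.prC_hp, Y.hp_hp]
    by_cases h2 : p = a ∧ q = b
    · obtain ⟨rfl, rfl⟩ := h2
      rw [if_pos hpq, Y.col_hp, if_pos rfl, if_pos ⟨rfl, rfl⟩]
    · rw [if_neg h2]
      split_ifs with h3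
      · rw [Y.col_hp, if_neg]
        intro h4
        apply h2
        constructor <;> omega
      · rw [map_zero]
  exact LinearMap.congr_fun h1 y

/-- a Hodge map of pure degree `0` respects the Hodge decomposition -/
theorem hp_of_isHodge (X : HodgeLefschetz d V) (X' : HodgeLefschetz d V') (f : V →ₗ[ℚ] V')
    (hf : X.IsHodge X' f) (j : ℕ) (h : f ∘ₗ X.pr j = f) (h' : X'.pr j ∘ₗ f = f) (p q : ℕ)
    (hpq : p + q = j) (x : ℂ ⊗[ℚ] V) :
    f.baseChange ℂ (X.hp p q x) = X'.hp p q (f.baseChange ℂ x) := by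
  have h1 : f.baseChange ℂ ((X.pr j).baseChange ℂ x) = f.baseChange ℂ x := by
    rw [← LinearMap.comp_apply, ← LinearMap.baseChange_comp, h]
  have h2 : (X'.pr j).baseChange ℂ (f.baseChange ℂ x) = f.baseChange ℂ x := by
    rw [← LinearMap.comp_apply, ← LinearMap.baseChange_comp, h']
  calc f.baseChange ℂ (X.hp p q x)
      = f.baseChange ℂ (X.col ((p : ℤ) - q) ((X.pr j).baseChange ℂ x)) := by
        rw [X.col_prC hpq]
    _ = X'.col ((p : ℤ) - q) (f.baseChange ℂ ((X.pr j).baseChange ℂ x)) := hf _ _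
    _ = X'.col ((p : ℤ) - q) ((X'.pr j).baseChange ℂ (f.baseChange ℂ x)) := by rw [h1, h2]
    _ = X'.hp p q (f.baseChange ℂ x) := X'.col_prC hpq _

end HodgeLefschetz

end Pool.Agent.Lib.OrlovSig
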