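import Pool.Agent.Lib.OrlovSig.Trans

/-!
# MP_5c0b30_ag: Hodge structures of derived equivalent varieties

`X`, `X'` are the Hodge-Lefschetz data of the rational cohomology of two connected smooth
projective complex varieties of the same dimension `d`.  A derived equivalence induces, through
the Mukai vector of its kernel, a linear isomorphism `u` that respects the sums of the `H^{p,q}`
with `p - q = c` and the generalised Mukai pairing.
-/

set_option autoImplicit false

open scoped TensorProduct

namespace Pool.Agent.Lib.OrlovSig.FourfoldHodge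

open Pool.Agent.Lib.OrlovSig

theorem result {d : ℕ} {V V' : Type*} [AddCommGroup V] [Module ℚ V] [FiniteDimensional ℚ V]
    [AddCommGroup V'] [Module ℚ V'] [FiniteDimensional ℚ V']
    (X : HodgeLefschetz d V) (X' : HodgeLefschetz d V') (u : V ≃ₗ[ℚ] V')
    (hu : ∀ (c : ℤ) (x : ℂ ⊗[ℚ] V), u.toLinearMap.baseChange ℂ (X.col c x) =
      X'.col c (u.toLinearMap.baseChange ℂ x))
    (hm : ∀ x y : V, X'.mukai (u x) (u y) = X.mukai x y) :
    (∃ φ : V ≃ₗ[ℚ] V', (∀ (c : ℤ) (x : ℂ ⊗[ℚ] V), φ.toLinearMap.baseChange ℂ (X.col c x) =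
      X'.col c (φ.toLinearMap.baseChange ℂ x)) ∧
      ∀ (a : ℕ) (x : V), φ (X.prBlock a x) = X'.prBlock a (φ x)) ∧
    (∀ j ≤ d, (∀ i ≤ d, 0 < i → 0 < j → i ≠ j → block d i = block d j → X.HodgeIso X' i) →
      X.HodgeIso X' j ∧ X.HodgeIso X' (2 * d - j)) ∧
    (d = 4 → X.HodgeIso X' 1 → ∀ j, X.HodgeIso X' j) := by
  have hB := X.cancel_block X' u hu hm
  refine ⟨?_, hB, ?_⟩
  · obtain ⟨φ, hφ, hφ'⟩ := X.exists_equiv_of_mvn X' (X.core_hodge X' u hu hm).1
    exact ⟨φ, hφ, fun a x => LinearMap.congr_fun (hφ' a) x⟩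
  · intro hd h1
    have key : ∀ j ≤ d, X.HodgeIso X' j ∧ X.HodgeIso X' (2 * d - j) := by
      intro j hj
      by_cases hi1 : j = 1
      · rw [hi1]
        exact ⟨h1, X.hodgeIso_dual X' u hu hm 1 (by omega) h1⟩
      · refine hB j hj ?_
        intro k hk h0 h0' hki hb
        by_cases hk1 : k = 1
        · exact hk1 ▸ h1
        · exfalso
          unfold block at hb
          split_ifs at hb <;> omega
    intro j
    rcases Nat.lt_or_ge (2 * d) j with h2 | h2
    · exact X.hodgeIso_top X' j h2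
    · rcases Nat.le_total j d with h3 | h3
      · exact (key j h3).1
      · have h4 := (key (2 * d - j) (by omega)).2
        rwa [show 2 * d - (2 * d - j) = j by omega] at h4

end Pool.Agent.Lib.OrlovSig.FourfoldHodge
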