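import Pool.Agent.Lib.OrlovSig.Polar

/-!
# The law of inertia for Lefschetz packages
-/

set_option autoImplicit false

namespace Pool.Agent.Lib.OrlovSig

namespace Pkg

variable {R W : Type*} [Ring R] [Algebra ℚ R] [AddCommGroup W] [Module R W]
  {q : W →+ W →+ ℝ} {d : ℕ}

/-- The part of degree congruent to `d` modulo `2`. -/
def E (P : Pkg R W q d) : R :=
  ∑ i ∈ Finset.range (2 * d + 1), if i % 2 = d % 2 then P.π i else 0

/-- The signs of the Mukai pairing on the part of degree congruent to `d` modulo `2`. -/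
def DE (P : Pkg R W q d) : R :=
  ∑ i ∈ Finset.range (2 * d + 1), if i % 2 = d % 2 then (-1 : R) ^ (i / 2) * P.π i else 0

theorem sum_mul_sum_π (P : Pkg R W q d) (f g : ℕ → R) (hf : ∀ i, f i * P.π i = P.π i * f i) :
    (∑ i ∈ Finset.range (2 * d + 1), f i * P.π i) * (∑ i ∈ Finset.range (2 * d + 1), P.π i * g i) =
      ∑ i ∈ Finset.range (2 * d + 1), f i * P.π i * g i := by
  rw [Finset.sum_mul]
  refine Finset.sum_congr rfl (fun i hi => ?_)
  rw [Finset.mul_sum, Finset.sum_eq_single_of_mem i hi]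
  · rw [mul_assoc, ← mul_assoc (P.π i), P.π_self, ← mul_assoc]
  · intro j _ hj
    rw [mul_assoc, ← mul_assoc (P.π i), P.π_ne i j (Ne.symm hj), zero_mul, mul_zero]

theorem E_eq (P : Pkg R W q d) : P.E =
    ∑ i ∈ Finset.range (2 * d + 1), (if i % 2 = d % 2 then (1 : R) else 0) * P.π i := by
  unfold E
  refine Finset.sum_congr rfl (fun i _ => ?_)
  split_ifs <;> simp

theorem E_eq' (P : Pkg R W q d) : P.E =
    ∑ i ∈ Finset.range (2 * d + 1), P.π i * (if i % 2 = d % 2 then (1 : R) else 0) := by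
  unfold E
  refine Finset.sum_congr rfl (fun i _ => ?_)
  split_ifs <;> simp

theorem DE_eq (P : Pkg R W q d) : P.DE =
    ∑ i ∈ Finset.range (2 * d + 1), (if i % 2 = d % 2 then (-1 : R) ^ (i / 2) else 0) * P.π i := by
  unfold DE
  refine Finset.sum_congr rfl (fun i _ => ?_)
  split_ifs <;> simp

theorem DE_eq' (P : Pkg R W q d) : P.DE =
    ∑ i ∈ Finset.range (2 * d + 1), P.π i * (if i % 2 = d % 2 then (-1 : R) ^ (i / 2) else 0) := by
  unfold DE
  refine Finset.sum_congr rfl (fun i _ => ?_)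
  split_ifs
  · exact neg_one_pow_comm _ _
  · simp

theorem E_self (P : Pkg R W q d) : P.E * P.E = P.E := by
  conv_lhs => rw [E_eq]
  conv_lhs => enter [2]; rw [← E_eq, E_eq']
  rw [P.sum_mul_sum_π _ _ (fun i => by split_ifs <;> simp)]
  unfold E
  refine Finset.sum_congr rfl (fun i _ => ?_)
  split_ifs <;> simp

theorem DE_mul_DE (P : Pkg R W q d) : P.DE * P.DE = P.E := by
  have h1 : P.DE * P.DE =
      (∑ i ∈ Finset.range (2 * d + 1),
        (if i % 2 = d % 2 then (-1 : R) ^ (i / 2) else 0) * P.π i) *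
      (∑ i ∈ Finset.range (2 * d + 1),
        P.π i * (if i % 2 = d % 2 then (-1 : R) ^ (i / 2) else 0)) := by
    rw [← DE_eq, ← DE_eq']
  rw [h1, P.sum_mul_sum_π _ _ (fun i => by
    split_ifs
    · exact neg_one_pow_comm _ _
    · simp)]
  unfold E
  refine Finset.sum_congr rfl (fun i _ => ?_)
  split_ifs
  · rw [mul_assoc, ← neg_one_pow_comm, ← mul_assoc, neg_one_pow_sq, one_mul]
  · simp

theorem E_mul_DE (P : Pkg R W q d) : P.E * P.DE = P.DE := by
  have h1 : P.E * P.DE =
      (∑ i ∈ Finset.range (2 * d + 1), (if i % 2 = d % 2 then (1 : R) else 0) * P.π i) *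
      (∑ i ∈ Finset.range (2 * d + 1),
        P.π i * (if i % 2 = d % 2 then (-1 : R) ^ (i / 2) else 0)) := by
    rw [← E_eq, ← DE_eq']
  rw [h1, P.sum_mul_sum_π _ _ (fun i => by split_ifs <;> simp), DE_eq']
  refine Finset.sum_congr rfl (fun i _ => ?_)
  split_ifs <;> simp

theorem DE_mul_E (P : Pkg R W q d) : P.DE * P.E = P.DE := by
  rw [← P.DE_mul_DE, ← mul_assoc, P.DE_mul_DE, P.E_mul_DE]

theorem ε_mul_E (P : Pkg R W q d) : P.ε * P.E = P.E := by
  unfold E
  rw [Finset.mul_sum]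
  refine Finset.sum_congr rfl (fun i _ => ?_)
  split_ifs
  · exact P.ε_mul_π i
  · simp

theorem E_mul_ε (P : Pkg R W q d) : P.E * P.ε = P.E := by
  unfold E
  rw [Finset.sum_mul]
  refine Finset.sum_congr rfl (fun i _ => ?_)
  split_ifs
  · exact P.π_mul_ε i
  · simp

theorem ε_mul_DE (P : Pkg R W q d) : P.ε * P.DE = P.DE := by
  rw [← P.E_mul_DE, ← mul_assoc, P.ε_mul_E]

theorem T_mul_DE (P : Pkg R W q d) (T : R) (hT : ∀ i ≤ 2 * d, T * P.π i = P.π (2 * d - i) * T) :
    T * P.DE = P.DE * T := by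
  have h1 : T * P.DE = ∑ i ∈ Finset.range (2 * d + 1),
      if (2 * d - i) % 2 = d % 2 then (-1 : R) ^ ((2 * d - i) / 2) * (P.π (2 * d - i) * T) else 0 := by
    unfold DE
    rw [Finset.mul_sum]
    refine Finset.sum_congr rfl (fun i hi => ?_)
    rw [Finset.mem_range] at hi
    by_cases h : i % 2 = d % 2
    · have h' : (2 * d - i) % 2 = d % 2 := by omega
      rw [if_pos h, if_pos h', ← mul_assoc, ← neg_one_pow_comm, mul_assoc, hT i (by omega)]
      congr 1
      apply neg_one_pow_congr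
      rw [Nat.even_iff, Nat.even_iff]
      omega
    · have h' : ¬ (2 * d - i) % 2 = d % 2 := by omega
      rw [if_neg h, if_neg h', mul_zero]
  rw [h1]
  unfold DE
  rw [Finset.sum_mul]
  rw [← Finset.sum_range_reflect]
  refine Finset.sum_congr rfl (fun i hi => ?_)
  rw [Finset.mem_range] at hi
  have h2 : 2 * d - (2 * d + 1 - 1 - i) = i := by omega
  rw [h2, ite_mul, zero_mul, mul_assoc]

theorem tr_neg_one_pow_mul (p r : R) (n : ℕ) : tr p ((-1 : R) ^ n * r) = (-1) ^ n * tr p r := by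
  rcases Nat.even_or_odd n with h' | h'
  · rw [h'.neg_one_pow, h'.neg_one_pow, one_mul, one_mul]
  · rw [h'.neg_one_pow, h'.neg_one_pow, neg_one_mul, neg_one_mul, tr_neg]

theorem tr_T_mul_DE (P : Pkg R W q d) (T p : R)
    (hT : ∀ i ≤ 2 * d, T * P.π i = P.π (2 * d - i) * T) :
    tr p (T * P.DE) = (-1) ^ (d / 2) * tr p (P.π d * T) := by
  unfold DE
  rw [Finset.mul_sum, tr_sum, Finset.sum_eq_single_of_mem d (by rw [Finset.mem_range]; omega)]
  · rw [if_pos rfl, ← mul_assoc, ← neg_one_pow_comm, mul_assoc, hT d (by omega),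
      show 2 * d - d = d by omega, tr_neg_one_pow_mul]
  · intro i hi hid
    rw [Finset.mem_range] at hi
    split_ifs
    · rw [← mul_assoc, ← neg_one_pow_comm, mul_assoc, tr_neg_one_pow_mul]
      have h1 : T * P.π i = (T * P.π i) * P.π i := by rw [mul_assoc, P.π_self]
      rw [h1, tr_mul_comm, hT i (by omega), ← mul_assoc, P.π_ne i (2 * d - i) (by omega), zero_mul,
        tr_zero, mul_zero]
    · rw [mul_zero, tr_zero]

section

variable [Module.Finite ℚ R] [FaithfulSMul R W]

/-- One half of the law of inertia: the positive part of the first package embeds into the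
positive part of the second one. -/
theorem tr_pos_le (P P' : Pkg R W q d) (hreg : ∀ x : R, ∃ z : R, x * z * x = x)
    (T T' : R) (hTT : T * T = P.ε) (hTT' : T' * T' = P'.ε)
    (hT : ∀ i ≤ 2 * d, T * P.π i = P.π (2 * d - i) * T)
    (hT' : ∀ i ≤ 2 * d, T' * P'.π i = P'.π (2 * d - i) * T')
    (hpos : ∀ x, P.ε • x = x → x ≠ 0 → 0 < q x (T • x))
    (hpos' : ∀ x, P'.ε • x = x → x ≠ 0 → 0 < q x (T' • x))
    (u : R) (huE : u * P.E = P'.E * u)
    (hiso : ∀ x, P.E • x = x → q (P'.DE • (u • x)) (u • x) = q (P.DE • x) x)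
    (p : R) (hp : p * p = p) :
    tr p ((1 / 2 : ℚ) • (P.E + T * P.DE)) ≤ tr p ((1 / 2 : ℚ) • (P'.E + T' * P'.DE)) := by
  set e : R := (1 / 2 : ℚ) • (P.E + T * P.DE) with he
  set f : R := (1 / 2 : ℚ) • (P'.E + T' * P'.DE) with hf
  have key : ∀ (Q : Pkg R W q d) (S : R), S * S = Q.ε →
      (∀ i ≤ 2 * d, S * Q.π i = Q.π (2 * d - i) * S) →
      (S * Q.DE) * (S * Q.DE) = Q.E ∧ Q.E * (S * Q.DE) = S * Q.DE ∧ (S * Q.DE) * Q.E = S * Q.DE := by
    intro Q S hSS hS
    have hc := Q.T_mul_DE S hS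
    refine ⟨?_, ?_, ?_⟩
    · calc (S * Q.DE) * (S * Q.DE) = S * (Q.DE * S) * Q.DE := by simp only [mul_assoc]
        _ = S * S * (Q.DE * Q.DE) := by rw [← hc]; simp only [mul_assoc]
        _ = Q.E := by rw [hSS, Q.DE_mul_DE, Q.ε_mul_E]
    · rw [hc, ← mul_assoc, Q.E_mul_DE]
    · rw [mul_assoc, Q.DE_mul_E]
  obtain ⟨k1, k2, k3⟩ := key P T hTT hT
  obtain ⟨k1', k2', k3'⟩ := key P' T' hTT' hT'
  set S := T * P.DE with hS
  set S' := T' * P'.DE with hS'
  have idem : ∀ (A B : R), A * A = A → B * B = A → A * B = B → B * A = B →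
      ((1 / 2 : ℚ) • (A + B)) * ((1 / 2 : ℚ) • (A + B)) = (1 / 2 : ℚ) • (A + B) := by
    intro A B h1 h2 h3 h4
    rw [smul_mul_smul_comm, add_mul, mul_add, mul_add, h1, h2, h3, h4,
      show A + B + (B + A) = (2 : ℚ) • (A + B) by rw [two_smul]; abel, smul_smul]
    norm_num
  have hee : e * e = e := idem _ _ P.E_self k1 k2 k3
  have hff : f * f = f := idem _ _ P'.E_self k1' k2' k3'
  have hEe : P.E * e = e := by rw [he, mul_smul_comm, mul_add, P.E_self, k2]
  have hSe : S * e = e := by rw [he, mul_smul_comm, mul_add, k3, k1, add_comm]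
  -- injectivity
  have hinj : ∀ w : W, e • w = w → (f * u * e) • w = 0 → w = 0 := by
    intro w hw h0
    by_contra hw0
    have h1 : P.E • w = w := by rw [← hw, ← mul_smul, hEe]
    have h2 : S • w = w := by rw [← hw, ← mul_smul, hSe]
    have h3 : f • (u • w) = 0 := by
      rw [mul_smul, hw, mul_smul] at h0
      exact h0
    have h4 : P'.E • (u • w) = u • w := by rw [← mul_smul, ← huE, mul_smul, h1]
    have h5 : S' • (u • w) = -(u • w) := by
      have h6 : (2 : R) • (f • (u • w)) = (P'.E + S') • (u • w) := by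
        rw [← mul_smul (2 : R), hf, mul_smul_comm, ← smul_mul_assoc]
        congr 1
        have : ((1 / 2 : ℚ) • (2 : R)) = 1 := by
          have h7 : (2 : R) = (2 : ℚ) • (1 : R) := by rw [two_smul]; norm_num
          rw [h7, smul_smul]
          norm_num
        rw [this, one_mul]
      rw [h3, smul_zero, add_smul, h4] at h6
      exact (neg_eq_of_add_eq_zero_right h6.symm).symm
    -- positivity on the left
    have h6 : P.DE • w ≠ 0 := by
      intro h7
      apply hw0
      rw [← h1, ← P.DE_mul_DE, mul_smul, h7, smul_zero]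
    have h7 := hpos (P.DE • w) (by rw [← mul_smul, P.ε_mul_DE]) h6
    rw [← mul_smul T, ← hS, h2] at h7
    have h8 := hiso w h1
    rw [← h8] at h7
    -- non-positivity on the right
    have h9 : P'.DE • (u • w) ≠ 0 := by
      intro h10
      rw [h10] at h7
      simp at h7
    have h10 := hpos' (P'.DE • (u • w)) (by rw [← mul_smul, P'.ε_mul_DE]) h9
    rw [← mul_smul T', ← hS', h5, map_neg] at h10
    linarith
  obtain ⟨z, hz⟩ := hreg (f * u * e)
  have h1 : e * z * (f * u * e) = e := by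
    have h2 : e - e * z * (f * u * e) = 0 := by
      apply FaithfulSMul.eq_of_smul_eq_smul (M := R) (α := W)
      intro w
      rw [zero_smul]
      apply hinj
      · have h4 : e * (e * z * (f * u * e)) = e * z * (f * u * e) := by
          calc e * (e * z * (f * u * e)) = (e * e) * z * (f * u * e) := by simp only [mul_assoc]
            _ = e * z * (f * u * e) := by rw [hee]
        rw [← mul_smul, mul_sub, hee, h4]
      · rw [← mul_smul, mul_sub]
        have h3 : f * u * e * (e * z * (f * u * e)) = f * u * e := by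
          calc f * u * e * (e * z * (f * u * e)) = f * u * (e * e) * z * (f * u * e) := by
                simp only [mul_assoc]
            _ = f * u * e := by rw [hee, hz]
        rw [h3, mul_assoc, hee, sub_self, zero_smul]
    exact (sub_eq_zero.1 h2).symm
  refine tr_le_of_factor p e f (e * z * f) (f * u * e) hp hee hff ?_ ?_
  · calc e * z * f * (f * u * e) = e * z * ((f * f) * u * e) := by simp only [mul_assoc]
      _ = e := by rw [hff, h1]
  · rw [mul_assoc, hff]

/-- The law of inertia for Lefschetz packages. -/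
theorem inertia (P P' : Pkg R W q d) (hsymm : ∀ x y, q x y = q y x)
    (hreg : ∀ x : R, ∃ z : R, x * z * x = x) (u v : R) (hvu : v * u = P.ε) (huv : u * v = P'.ε)
    (huE : u * P.E = P'.E * u) (hvE : v * P'.E = P.E * v)
    (hiso : ∀ x, P.E • x = x → q (P'.DE • (u • x)) (u • x) = q (P.DE • x) x)
    (p : R) (hp : p * p = p) :
    tr p P.E = tr p P'.E ∧ P.cc p d = P'.cc p d := by
  obtain ⟨T, hTT, -, -, hTπ, -, hpos, htr⟩ := P.exists_polar hsymm
  obtain ⟨T', hTT', -, -, hTπ', -, hpos', htr'⟩ := P'.exists_polar hsymm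
  have h1 : tr p P.E = tr p P'.E := by
    calc tr p P.E = tr p (v * (u * P.E)) := by rw [← mul_assoc, hvu, P.ε_mul_E]
      _ = tr p ((u * P.E) * v) := tr_mul_comm _ _ _
      _ = tr p P'.E := by rw [huE, mul_assoc, huv, P'.E_mul_ε]
  refine ⟨h1, ?_⟩
  have hiso' : ∀ x, P'.E • x = x → q (P.DE • (v • x)) (v • x) = q (P'.DE • x) x := by
    intro x hx
    have h2 := hiso (v • x) (by rw [← mul_smul, ← hvE, mul_smul, hx])
    have h3 : u • (v • x) = x := by
      rw [← mul_smul, huv]
      rw [← hx, ← mul_smul, P'.ε_mul_E]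
    rw [h3] at h2
    exact h2.symm
  have h2 := P.tr_pos_le P' hreg T T' hTT hTT' hTπ hTπ' hpos hpos' u huE hiso p hp
  have h3 := P'.tr_pos_le P hreg T' T hTT' hTT hTπ' hTπ hpos' hpos v hvE hiso' p hp
  have h4 := le_antisymm h2 h3
  rw [tr_smul, tr_smul, tr_add, tr_add, h1, P.tr_T_mul_DE T p hTπ, P'.tr_T_mul_DE T' p hTπ',
    htr, htr'] at h4
  have h5 : (-1 : ℚ) ^ (d / 2) * ((-1) ^ (d * (d + 1) / 2) * P.cc p d) =
      (-1 : ℚ) ^ (d / 2) * ((-1) ^ (d * (d + 1) / 2) * P'.cc p d) := by linarith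
  have h6 : (-1 : ℚ) ^ (d / 2) ≠ 0 := pow_ne_zero _ (by norm_num)
  have h7 : (-1 : ℚ) ^ (d * (d + 1) / 2) ≠ 0 := pow_ne_zero _ (by norm_num)
  exact mul_left_cancel₀ h7 (mul_left_cancel₀ h6 h5)

end

end Pkg

end Pool.Agent.Lib.OrlovSig
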