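import Pool.Agent.Lib.OrlovSig.RingKS

/-!
# Abstract Lefschetz packages: splitting into positive and negative parts
-/

set_option autoImplicit false

namespace Pool.Agent.Lib.OrlovSig

/-- A graded object with hard Lefschetz and Hodge-Riemann relations inside a ring `R` of
operators on `W`, where `q` is a real valued form on `W`. -/
structure Pkg (R W : Type*) [Ring R] [Algebra ℚ R] [AddCommGroup W] [Module R W]
    (q : W →+ W →+ ℝ) (d : ℕ) where
  π : ℕ → R
  L : R
  θ : ℕ → R
  π_self : ∀ i, π i * π i = π i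
  π_ne : ∀ i j, i ≠ j → π i * π j = 0
  π_top : ∀ j, 2 * d < j → π j = 0
  L_π : ∀ j, L * π j = π (j + 2) * L
  θ_L : ∀ j ≤ d, θ j * (L ^ (d - j) * π j) = π j
  L_θ : ∀ j ≤ d, L ^ (d - j) * θ j = π (2 * d - j)
  π_θ : ∀ j ≤ d, π j * θ j = θ j
  θ_π : ∀ j ≤ d, θ j * π (2 * d - j) = θ j
  q_π : ∀ i ≤ 2 * d, ∀ x y, q (π i • x) y = q x (π (2 * d - i) • y)
  q_L : ∀ x y, q (L • x) y = q x (L • y)
  HR : ∀ j ≤ d, ∀ x, π j • x = x → L ^ (d - j + 1) • x = 0 → x ≠ 0 →
    0 < (-1 : ℝ) ^ (j * (j + 1) / 2) * q x (L ^ (d - j) • x)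

/-- The sign of the Hodge-Riemann relation in degree `j`. -/
noncomputable def sg (j : ℕ) : ℝ := (-1 : ℝ) ^ (j * (j + 1) / 2)

theorem sg_add_two (j : ℕ) : sg (j + 2) = -sg j := by
  unfold sg
  have h : (j + 2) * (j + 2 + 1) / 2 = j * (j + 1) / 2 + (2 * j + 3) := by
    have h1 : (j + 2) * (j + 2 + 1) = j * (j + 1) + 2 * (2 * j + 3) := by ring
    rw [h1, Nat.add_mul_div_left _ _ (by norm_num)]
  rw [h, pow_add]
  have h2 : (-1 : ℝ) ^ (2 * j + 3) = -1 := by
    rw [pow_add, pow_mul]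
    norm_num
  rw [h2]
  ring

namespace Pkg

variable {R W : Type*} [Ring R] [Algebra ℚ R] [AddCommGroup W] [Module R W]
  {q : W →+ W →+ ℝ} {d : ℕ}

theorem L_pow_π (P : Pkg R W q d) (k j : ℕ) : P.L ^ k * P.π j = P.π (j + 2 * k) * P.L ^ k := by
  induction k with
  | zero => simp
  | succ k ih =>
    rw [pow_succ', mul_assoc, ih, ← mul_assoc, P.L_π, mul_assoc]
    rfl

theorem q_L_pow (P : Pkg R W q d) (k : ℕ) (x y : W) :
    q (P.L ^ k • x) y = q x (P.L ^ k • y) := by
  induction k generalizing x y with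
  | zero => simp
  | succ k ih =>
    rw [pow_succ, mul_smul, ih, P.q_L, ← mul_smul, ← pow_succ', mul_smul, ← mul_smul, ← pow_succ]

/-- The alternating sum `t_j - 2 t_{j-2} + 2 t_{j-4} - ...`. -/
noncomputable def cc (P : Pkg R W q d) (p : R) : ℕ → ℚ
  | 0 => tr p (P.π 0)
  | 1 => tr p (P.π 1)
  | j + 2 => tr p (P.π (j + 2)) - tr p (P.π j) - P.cc p j

/-- The splitting of the degree `j` part. -/
def Split (P : Pkg R W q d) (j : ℕ) (a b : R) : Prop :=
  a * a = a ∧ b * b = b ∧ a * b = 0 ∧ b * a = 0 ∧ a + b = P.π j ∧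
    (∀ x, a • x = x → x ≠ 0 → 0 < sg j * q x (P.L ^ (d - j) • x)) ∧
    (∀ x, b • x = x → x ≠ 0 → sg j * q x (P.L ^ (d - j) • x) < 0) ∧
    (∀ x y, a • x = x → b • y = y → q x (P.L ^ (d - j) • y) = 0) ∧
    ∀ p, tr p a - tr p b = P.cc p j

theorem L_pow_zero_of (P : Pkg R W q d) {j : ℕ} (hj : j ≤ 1) (hjd : j ≤ d) :
    P.L ^ (d - j + 1) * P.π j = 0 := by
  rw [P.L_pow_π, P.π_top _ (by omega), zero_mul]

theorem split_base (P : Pkg R W q d) {j : ℕ} (hj : j ≤ 1) (hjd : j ≤ d) :
    P.Split j (P.π j) 0 := by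
  refine ⟨P.π_self j, by simp, by simp, by simp, by simp, ?_, ?_, ?_, ?_⟩
  · intro x hx hx0
    refine P.HR j hjd x hx ?_ hx0
    rw [← hx, ← mul_smul, P.L_pow_zero_of hj hjd, zero_smul]
  · intro x hx hx0
    rw [zero_smul] at hx
    exact absurd hx.symm hx0
  · intro x y _ hy
    rw [zero_smul] at hy
    rw [← hy]
    simp
  · intro p
    rw [tr_zero, sub_zero]
    interval_cases j <;> rfl

theorem split_step (P : Pkg R W q d) (hsymm : ∀ x y, q x y = q y x) {j : ℕ} (hjd : j + 2 ≤ d)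
    {a b : R} (h : P.Split j a b) : ∃ a' b' : R, P.Split (j + 2) a' b' := by
  obtain ⟨haa, hbb, hab, hba, hsum, hpa, hpb, horth, hcc⟩ := h
  obtain ⟨k, hk⟩ : ∃ k, d = j + 2 + k := ⟨d - (j + 2), by omega⟩
  have hk1 : d - (j + 2) = k := by omega
  have hk2 : d - j = k + 2 := by omega
  set π0 := P.π j with hπ0
  set π2 := P.π (j + 2) with hπ2
  set L := P.L with hL
  set M : R := P.θ j * (L ^ (k + 1) * π2) with hM
  have hπ00 : π0 * π0 = π0 := P.π_self j
  have hπ22 : π2 * π2 = π2 := P.π_self (j + 2)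
  have hLπ : L * π0 = π2 * L := P.L_π j
  have hπa : π0 * a = a := by rw [← hsum, add_mul, haa, hba, add_zero]
  have haπ : a * π0 = a := by rw [← hsum, mul_add, haa, hab, add_zero]
  have hπb : π0 * b = b := by rw [← hsum, add_mul, hab, hbb, zero_add]
  have hbπ : b * π0 = b := by rw [← hsum, mul_add, hba, hbb, zero_add]
  have hML : M * (L * π0) = π0 := by
    have h1 := P.θ_L j (by omega)
    rw [hk2] at h1
    calc M * (L * π0) = P.θ j * (L ^ (k + 1) * (π2 * (L * π0))) := by
          rw [hM]; simp only [mul_assoc]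
      _ = P.θ j * (L ^ (k + 1) * (L * π0)) := by
          rw [hLπ, ← mul_assoc π2, hπ22]
      _ = P.θ j * (L ^ (k + 2) * π0) := by
          rw [← mul_assoc (L ^ (k + 1)), ← pow_succ]
      _ = π0 := h1
  have hπM : π0 * M = M := by
    rw [hM, ← mul_assoc, P.π_θ j (by omega)]
  have hMπ : M * π2 = M := by
    rw [hM, mul_assoc, mul_assoc, hπ22]
  have hMLr : ∀ r : R, π0 * r = r → M * (L * r) = r := by
    intro r hr
    calc M * (L * r) = M * (L * (π0 * r)) := by rw [hr]
      _ = M * (L * π0) * r := by simp only [mul_assoc]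
      _ = r := by rw [hML, hr]
  have hπL : ∀ r : R, π0 * r = r → π2 * (L * r) = L * r := by
    intro r hr
    calc π2 * (L * r) = π2 * L * r := by rw [mul_assoc]
      _ = L * (π0 * r) := by rw [← hLπ, mul_assoc]
      _ = L * r := by rw [hr]
  set b' : R := L * (a * M) with hb'
  set a' : R := π2 - b' with ha'
  have hπaM : π0 * (a * M) = a * M := by rw [← mul_assoc, hπa]
  have hb'b' : b' * b' = b' := by
    calc b' * b' = L * (a * (M * (L * (a * M)))) := by rw [hb']; simp only [mul_assoc]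
      _ = L * (a * (a * M)) := by rw [hMLr _ hπaM]
      _ = b' := by rw [← mul_assoc a, haa]
  have hπb' : π2 * b' = b' := hπL _ hπaM
  have hb'π : b' * π2 = b' := by rw [hb', mul_assoc, mul_assoc, hMπ]
  have ha'a' : a' * a' = a' := by
    rw [ha', sub_mul, mul_sub, mul_sub, hπ22, hπb', hb'π, hb'b']
    abel
  have ha'b' : a' * b' = 0 := by rw [ha', sub_mul, hπb', hb'b', sub_self]
  have hb'a' : b' * a' = 0 := by rw [ha', mul_sub, hb'π, hb'b', sub_self]
  -- properties of vectors
  have hLθ : L ^ (k + 2) * P.θ j = P.π (2 * d - j) := by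
    have h1 := P.L_θ j (by omega)
    rwa [hk2] at h1
  have hLM : L ^ (k + 2) * M = L ^ (k + 1) * π2 := by
    rw [hM, ← mul_assoc, hLθ, P.L_pow_π (k + 1) (j + 2), ← mul_assoc]
    rw [show j + 2 + 2 * (k + 1) = 2 * d - j by omega, P.π_self]
  -- decomposition of a vector in the image of `a'`
  have hdec : ∀ x : W, a' • x = x → π2 • x = x ∧ b • (M • x) = M • x ∧
      x = (x - L • (M • x)) + L • (M • x) ∧ π2 • (x - L • (M • x)) = x - L • (M • x) ∧
      L ^ (k + 1) • (x - L • (M • x)) = 0 := by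
    intro x hx
    have h1 : π2 • x = x := by
      rw [← hx, ← mul_smul, ha', mul_sub, hπ22, hπb']
    have h2 : b' • x = 0 := by
      rw [← hx, ← mul_smul, hb'a', zero_smul]
    have h3 : a • (M • x) = 0 := by
      have h4 : M • (b' • x) = a • (M • x) := by
        rw [← mul_smul, hb', hMLr _ hπaM, mul_smul]
      rw [← h4, h2, smul_zero]
    have h5 : π0 • (M • x) = M • x := by rw [← mul_smul, hπM]
    have h6 : b • (M • x) = M • x := by
      rw [← hsum, add_smul, h3, zero_add] at h5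
      exact h5
    refine ⟨h1, h6, (sub_add_cancel _ _).symm, ?_, ?_⟩
    · rw [smul_sub, h1, ← mul_smul L, ← mul_smul π2, hπL _ hπM]
    · rw [smul_sub, ← mul_smul L, ← mul_smul (L ^ (k + 1)), ← mul_assoc, ← pow_succ, hLM,
        mul_smul, h1, sub_self]
  have hQ : ∀ z w : W, q (L • z) (L ^ k • (L • w)) = q z (L ^ (k + 2) • w) := by
    intro z w
    rw [P.q_L, ← hL, ← mul_smul, ← mul_smul, ← pow_succ', ← pow_succ]
  refine ⟨a', b', ha'a', hb'b', ha'b', hb'a', sub_add_cancel _ _, ?_, ?_, ?_, ?_⟩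
  · intro x hx hx0
    obtain ⟨h1, h2, h3, h4, h5⟩ := hdec x hx
    set x0 := x - L • (M • x) with hx0def
    set z := M • x with hz
    rw [hk1]
    have e1 : q x (L ^ k • x) = q x0 (L ^ k • x0) + q z (L ^ (k + 2) • z) := by
      have c1 : q x0 (L ^ k • (L • z)) = 0 := by
        rw [← mul_smul, ← pow_succ, ← P.q_L_pow, ← hL, h5]
        simp
      have c2 : q (L • z) (L ^ k • x0) = 0 := by
        rw [P.q_L, ← hL, ← mul_smul, ← pow_succ', h5]
        simp
      conv_lhs => rw [h3]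
      rw [smul_add, map_add, map_add, AddMonoidHom.add_apply, AddMonoidHom.add_apply, c1, c2, hQ]
      ring
    have hz2 : z ≠ 0 → 0 < sg (j + 2) * q z (L ^ (k + 2) • z) := by
      intro hz0
      have h6 := hpb z h2 hz0
      rw [hk2] at h6
      rw [sg_add_two]
      linarith
    have hx2 : x0 ≠ 0 → 0 < sg (j + 2) * q x0 (L ^ k • x0) := by
      intro h0
      have h6 := P.HR (j + 2) hjd x0 h4 (by rw [hk1]; exact h5) h0
      rw [hk1] at h6
      exact h6
    rw [e1, mul_add]
    by_cases hx00 : x0 = 0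
    · have hz0 : z ≠ 0 := by
        intro hz0
        apply hx0
        rw [h3, hx00, hz0]
        simp
      rw [hx00]
      simpa using hz2 hz0
    · by_cases hz0 : z = 0
      · rw [hz0]
        simpa using hx2 hx00
      · exact add_pos (hx2 hx00) (hz2 hz0)
  · intro y hy hy0
    have h1 : y = L • ((a * M) • y) := by
      rw [← mul_smul]
      exact hy.symm
    set z := (a * M) • y with hz
    have hz1 : a • z = z := by rw [hz, ← mul_smul, ← mul_assoc, haa]
    have hz0 : z ≠ 0 := by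
      intro h0
      apply hy0
      rw [h1, h0, smul_zero]
    have h2 := hpa z hz1 hz0
    rw [hk1, h1, hQ, sg_add_two]
    rw [hk2] at h2
    linarith
  · intro x y hx hy
    obtain ⟨h1, h2, h3, h4, h5⟩ := hdec x hx
    have h6 : y = L • ((a * M) • y) := by
      rw [← mul_smul]
      exact hy.symm
    set z := (a * M) • y with hz
    have hz1 : a • z = z := by rw [hz, ← mul_smul, ← mul_assoc, haa]
    rw [hk1, h6]
    have c1 : q (x - L • (M • x)) (L ^ k • (L • z)) = 0 := by
      rw [← mul_smul (L ^ k), ← pow_succ, ← P.q_L_pow, ← hL, h5]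
      simp
    have c2 : q (L • (M • x)) (L ^ k • (L • z)) = 0 := by
      rw [hQ, ← P.q_L_pow, hsymm]
      have h7 := horth z (M • x) hz1 h2
      rw [hk2] at h7
      exact h7
    rw [h3, map_add, AddMonoidHom.add_apply, c1, c2, add_zero]
  · intro p
    have t1 : tr p b' = tr p a := by
      have h1 : b' = (L * a) * (a * M) := by
        rw [hb', mul_assoc, ← mul_assoc a a, haa]
      rw [h1, tr_mul_comm, mul_assoc, hMLr _ hπa, haa]
    have t2 : tr p a' = tr p π2 - tr p a := by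
      rw [ha', tr_sub, t1]
    have t3 : tr p π0 = tr p a + tr p b := by
      rw [← hsum, tr_add]
    have t4 := hcc p
    have t5 : P.cc p (j + 2) = tr p π2 - tr p π0 - P.cc p j := rfl
    rw [t5, t2, t1, ← t4, t3]
    ring

theorem exists_split (P : Pkg R W q d) (hsymm : ∀ x y, q x y = q y x) (j : ℕ) (hjd : j ≤ d) :
    ∃ a b : R, P.Split j a b := by
  induction j using Nat.twoStepInduction with
  | zero => exact ⟨_, _, P.split_base (by norm_num) hjd⟩
  | one => exact ⟨_, _, P.split_base le_rfl hjd⟩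
  | more j ih _ =>
    obtain ⟨a, b, h⟩ := ih (by omega)
    exact P.split_step hsymm hjd h

end Pkg

end Pool.Agent.Lib.OrlovSig
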