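import Pool.Agent.Lib.OrlovSig.Pkg

/-!
# The polarisation operator of a Lefschetz package
-/

set_option autoImplicit false

namespace Pool.Agent.Lib.OrlovSig

namespace Pkg

variable {R W : Type*} [Ring R] [Algebra ℚ R] [AddCommGroup W] [Module R W]
  {q : W →+ W →+ ℝ} {d : ℕ}

/-- The unit of the package. -/
def ε (P : Pkg R W q d) : R := ∑ i ∈ Finset.range (2 * d + 1), P.π i

theorem π_mul (P : Pkg R W q d) (i j : ℕ) : P.π i * P.π j = if i = j then P.π i else 0 := by
  split_ifs with h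
  · rw [h, P.π_self]
  · exact P.π_ne i j h

theorem ε_mul_π (P : Pkg R W q d) (i : ℕ) : P.ε * P.π i = P.π i := by
  unfold ε
  rw [Finset.sum_mul]
  by_cases h : i ∈ Finset.range (2 * d + 1)
  · rw [Finset.sum_eq_single_of_mem i h, P.π_self]
    intro j _ hj
    exact P.π_ne j i hj
  · rw [P.π_top i (by rw [Finset.mem_range] at h; omega)]
    simp

theorem π_mul_ε (P : Pkg R W q d) (i : ℕ) : P.π i * P.ε = P.π i := by
  unfold ε
  rw [Finset.mul_sum]
  by_cases h : i ∈ Finset.range (2 * d + 1)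
  · rw [Finset.sum_eq_single_of_mem i h, P.π_self]
    intro j _ hj
    exact P.π_ne i j (Ne.symm hj)
  · rw [P.π_top i (by rw [Finset.mem_range] at h; omega)]
    simp

theorem ε_self (P : Pkg R W q d) : P.ε * P.ε = P.ε := by
  conv_lhs => rw [ε, Finset.sum_mul]
  unfold ε
  refine Finset.sum_congr rfl (fun i _ => ?_)
  exact P.π_mul_ε i

/-- Signs in a ring acting on a real valued form. -/
theorem q_neg_one_pow (n : ℕ) (x y : W) : q x (((-1 : R) ^ n) • y) = (-1 : ℝ) ^ n * q x y := by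
  rcases neg_one_pow_eq_or R n with h | h <;> rcases Nat.even_or_odd n with h' | h'
  · rw [h'.neg_one_pow, h'.neg_one_pow, one_smul, one_mul]
  · rw [h'.neg_one_pow, h'.neg_one_pow]; simp
  · rw [h'.neg_one_pow, h'.neg_one_pow, one_smul, one_mul]
  · rw [h'.neg_one_pow, h'.neg_one_pow]; simp

theorem neg_one_pow_comm (n : ℕ) (r : R) : (-1 : R) ^ n * r = r * (-1 : R) ^ n := by
  rcases Nat.even_or_odd n with h' | h' <;> rw [h'.neg_one_pow] <;> simp

theorem neg_one_pow_sq (n : ℕ) : (-1 : R) ^ n * (-1 : R) ^ n = 1 := by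
  rw [← pow_add, Even.neg_one_pow ⟨n, rfl⟩]

/-- The sign operator in degree `j`. -/
theorem exists_sign (P : Pkg R W q d) (hsymm : ∀ x y, q x y = q y x) (j : ℕ) (hjd : j ≤ d) :
    ∃ s : R, s * s = P.π j ∧ P.π j * s = s ∧ s * P.π j = s ∧
      (∀ x y, P.π j • x = x → P.π j • y = y →
        q (s • x) (P.L ^ (d - j) • y) = q (s • y) (P.L ^ (d - j) • x)) ∧
      (∀ x, P.π j • x = x → x ≠ 0 → 0 < q x (P.L ^ (d - j) • (s • x))) ∧
      ∀ p, tr p s = (-1) ^ (j * (j + 1) / 2) * P.cc p j := by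
  obtain ⟨a, b, haa, hbb, hab, hba, hsum, hpa, hpb, horth, hcc⟩ := P.exists_split hsymm j hjd
  set k := d - j with hk
  set n := j * (j + 1) / 2 with hn
  have hQs : ∀ x y, P.π j • x = x → P.π j • y = y →
      q x (P.L ^ k • y) = q y (P.L ^ k • x) := by
    intro x y _ _
    rw [← P.q_L_pow, hsymm]
  have hπa : P.π j * a = a := by rw [← hsum, add_mul, haa, hba, add_zero]
  have haπ : a * P.π j = a := by rw [← hsum, mul_add, haa, hab, add_zero]
  have hπb : P.π j * b = b := by rw [← hsum, add_mul, hab, hbb, zero_add]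
  have hbπ : b * P.π j = b := by rw [← hsum, mul_add, hba, hbb, zero_add]
  have hdec : ∀ x : W, P.π j • x = x → x = a • x + b • x := by
    intro x hx
    rw [← add_smul, hsum, hx]
  have haa' : ∀ x : W, a • (a • x) = a • x := fun x => by rw [← mul_smul a, haa]
  have hbb' : ∀ x : W, b • (b • x) = b • x := fun x => by rw [← mul_smul b, hbb]
  have hab0 : ∀ x y : W, q (a • x) (P.L ^ k • (b • y)) = 0 := fun x y =>
    horth _ _ (haa' x) (hbb' y)
  have hba0 : ∀ x y : W, q (b • x) (P.L ^ k • (a • y)) = 0 := fun x y => by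
    rw [hQs _ _ (by rw [← mul_smul, hπb]) (by rw [← mul_smul, hπa])]
    exact hab0 y x
  refine ⟨(-1) ^ n * (a - b), ?_, ?_, ?_, ?_, ?_, ?_⟩
  · rw [mul_assoc, ← mul_assoc (a - b), ← neg_one_pow_comm n (a - b),
      mul_assoc ((-1) ^ n) (a - b) (a - b), ← mul_assoc, neg_one_pow_sq, one_mul, sub_mul,
      mul_sub, mul_sub, haa, hbb, hab, hba, ← hsum]
    abel
  · rw [← mul_assoc, ← neg_one_pow_comm, mul_assoc, mul_sub, hπa, hπb]
  · rw [mul_assoc, sub_mul, haπ, hbπ]
  · intro x y hx hy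
    have e : ∀ x y : W, q (((-1 : R) ^ n * (a - b)) • x) (P.L ^ k • y) =
        (-1 : ℝ) ^ n * (q (a • x) (P.L ^ k • y) - q (b • x) (P.L ^ k • y)) := by
      intro x y
      rw [mul_smul, hsymm, q_neg_one_pow, sub_smul, map_sub, hsymm _ (a • x), hsymm _ (b • x)]
    rw [e, e]
    congr 1
    have ex : ∀ x y : W, P.π j • y = y → q (a • x) (P.L ^ k • y) - q (b • x) (P.L ^ k • y) =
        q (a • x) (P.L ^ k • (a • y)) - q (b • x) (P.L ^ k • (b • y)) := by
      intro x y hy
      conv_lhs => rw [hdec y hy]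
      rw [smul_add, map_add, map_add, hab0, hba0]
      ring
    rw [ex x y hy, ex y x hx, hQs (a • x) (a • y) (by rw [← mul_smul, hπa]) (by rw [← mul_smul, hπa]),
      hQs (b • x) (b • y) (by rw [← mul_smul, hπb]) (by rw [← mul_smul, hπb])]
  · intro x hx hx0
    have e1 : q x (P.L ^ k • (((-1 : R) ^ n * (a - b)) • x)) =
        sg j * q (a • x) (P.L ^ k • (a • x)) - sg j * q (b • x) (P.L ^ k • (b • x)) := by
      have e2 : P.L ^ k • (((-1 : R) ^ n * (a - b)) • x) =
          ((-1 : R) ^ n) • (P.L ^ k • (a • x) - P.L ^ k • (b • x)) := by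
        rw [mul_smul, ← smul_sub, ← sub_smul, ← mul_smul, ← neg_one_pow_comm, mul_smul]
      rw [e2, q_neg_one_pow, map_sub]
      have e0 : ∀ Y : W, q x Y = q (a • x) Y + q (b • x) Y := fun Y => by
        conv_lhs => rw [hdec x hx, map_add, AddMonoidHom.add_apply]
      have e3 : q x (P.L ^ k • (a • x)) = q (a • x) (P.L ^ k • (a • x)) := by
        rw [e0, hba0, add_zero]
      have e4 : q x (P.L ^ k • (b • x)) = q (b • x) (P.L ^ k • (b • x)) := by
        rw [e0, hab0, zero_add]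
      rw [e3, e4]
      unfold sg
      ring
    rw [e1]
    have ha0 : a • x ≠ 0 → 0 < sg j * q (a • x) (P.L ^ k • (a • x)) := fun h => hpa _ (haa' x) h
    have hb0 : b • x ≠ 0 → sg j * q (b • x) (P.L ^ k • (b • x)) < 0 := fun h => hpb _ (hbb' x) h
    by_cases h1 : a • x = 0
    · have h2 : b • x ≠ 0 := by
        intro h2
        apply hx0
        rw [hdec x hx, h1, h2, add_zero]
      have h3 := hb0 h2
      rw [h1]
      simp only [smul_zero, map_zero, mul_zero, zero_sub]
      linarith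
    · by_cases h2 : b • x = 0
      · have h3 := ha0 h1
        rw [h2]
        simp only [smul_zero, map_zero, mul_zero, sub_zero]
        linarith
      · have h3 := ha0 h1
        have h4 := hb0 h2
        linarith
  · intro p
    rw [← hcc p, ← tr_sub]
    rcases Nat.even_or_odd n with h' | h'
    · rw [h'.neg_one_pow, h'.neg_one_pow, one_mul, one_mul]
    · rw [h'.neg_one_pow, h'.neg_one_pow, neg_one_mul, neg_one_mul, tr_neg]

theorem exists_polar (P : Pkg R W q d) (hsymm : ∀ x y, q x y = q y x) :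
    ∃ T : R, T * T = P.ε ∧ T * P.ε = T ∧ P.ε * T = T ∧
      (∀ i ≤ 2 * d, T * P.π i = P.π (2 * d - i) * T) ∧
      (∀ x y, q (T • x) y = q x (T • y)) ∧
      (∀ x, P.ε • x = x → x ≠ 0 → 0 < q x (T • x)) ∧
      ∀ p, tr p (P.π d * T) = (-1) ^ (d * (d + 1) / 2) * P.cc p d := by
  choose! s hss hπs hsπ hQ hpos htr using P.exists_sign hsymm
  set τ : ℕ → R := fun i => if i ≤ d then P.L ^ (d - i) * s i else s (2 * d - i) * P.θ (2 * d - i)
    with hτ
  have hτ1 : ∀ i ≤ d, τ i = P.L ^ (d - i) * s i := fun i hi => by rw [hτ]; simp [hi]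
  have hτ2 : ∀ j < d, τ (2 * d - j) = s j * P.θ j := fun j hj => by
    rw [hτ]
    have h1 : ¬ (2 * d - j ≤ d) := by omega
    have h2 : 2 * d - (2 * d - j) = j := by omega
    simp only [h1, if_false, h2]
  have hcase : ∀ i ≤ 2 * d, i ≤ d ∨ ∃ j < d, i = 2 * d - j := by
    intro i hi
    rcases Nat.lt_or_ge d i with h | h
    · exact Or.inr ⟨2 * d - i, by omega, by omega⟩
    · exact Or.inl h
  have hA : ∀ i ≤ 2 * d, P.π (2 * d - i) * τ i = τ i := by
    intro i hi
    rcases hcase i hi with h | ⟨j, hj, rfl⟩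
    · rw [hτ1 i h, ← hπs i h, ← mul_assoc (P.L ^ (d - i)), P.L_pow_π,
        show i + 2 * (d - i) = 2 * d - i by omega, ← mul_assoc, ← mul_assoc, P.π_self]
    · rw [hτ2 j hj, show 2 * d - (2 * d - j) = j by omega, ← mul_assoc, hπs j hj.le]
  have hB : ∀ i ≤ 2 * d, τ i * P.π i = τ i := by
    intro i hi
    rcases hcase i hi with h | ⟨j, hj, rfl⟩
    · rw [hτ1 i h, mul_assoc, hsπ i h]
    · rw [hτ2 j hj, mul_assoc, P.θ_π j hj.le]
  have hC : ∀ i ≤ 2 * d, τ (2 * d - i) * τ i = P.π i := by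
    intro i hi
    rcases hcase i hi with h | ⟨j, hj, rfl⟩
    · rcases Nat.lt_or_ge i d with h' | h'
      · rw [hτ1 i h, hτ2 i h']
        calc s i * P.θ i * (P.L ^ (d - i) * s i)
            = s i * P.θ i * (P.L ^ (d - i) * (P.π i * s i)) := by rw [hπs i h]
          _ = s i * (P.θ i * (P.L ^ (d - i) * P.π i)) * s i := by
              simp only [mul_assoc]
          _ = P.π i := by rw [P.θ_L i h, hsπ i h, hss i h]
      · obtain rfl : i = d := by omega
        rw [show 2 * i - i = i by omega, hτ1 i le_rfl, Nat.sub_self, pow_zero, one_mul,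
          hss i le_rfl]
    · rw [show 2 * d - (2 * d - j) = j by omega, hτ1 j hj.le, hτ2 j hj]
      calc P.L ^ (d - j) * s j * (s j * P.θ j) = P.L ^ (d - j) * ((s j * s j) * P.θ j) := by
            simp only [mul_assoc]
        _ = P.π (2 * d - j) := by rw [hss j hj.le, P.π_θ j hj.le, P.L_θ j hj.le]
  have hD : ∀ i ≤ 2 * d, ∀ x y, q (τ i • x) y = q x (τ i • y) := by
    intro i hi x y
    rcases hcase i hi with h | ⟨j, hj, rfl⟩
    · rw [hτ1 i h]
      have e1 : ∀ u v : W, q (s i • u) (P.L ^ (d - i) • v) =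
          q (s i • (P.π i • u)) (P.L ^ (d - i) • (P.π i • v)) := by
        intro u v
        rw [← mul_smul (s i), hsπ i h, ← mul_smul (P.L ^ (d - i)), P.L_pow_π,
          show i + 2 * (d - i) = 2 * d - i by omega, mul_smul, ← P.q_π i (by omega), ← mul_smul,
          hπs i h]
      rw [mul_smul, P.q_L_pow, e1 x y, mul_smul, ← P.q_L_pow (d - i) x, hsymm (P.L ^ (d - i) • x),
        e1 y x]
      exact hQ i h _ _ (by rw [← mul_smul, P.π_self]) (by rw [← mul_smul, P.π_self])
    · rw [hτ2 j hj]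
      have e1 : ∀ u v : W, q ((s j * P.θ j) • u) v =
          q (s j • (P.θ j • u)) (P.L ^ (d - j) • (P.θ j • v)) := by
        intro u v
        rw [← mul_smul (P.L ^ (d - j)), P.L_θ j hj.le, ← P.q_π j (by omega), ← mul_smul (P.π j),
          hπs j hj.le, mul_smul]
      rw [e1, hsymm x, e1]
      exact hQ j hj.le _ _ (by rw [← mul_smul, P.π_θ j hj.le]) (by rw [← mul_smul, P.π_θ j hj.le])
  have hE : ∀ i ≤ 2 * d, ∀ x, P.π i • x = x → x ≠ 0 → 0 < q x (τ i • x) := by
    intro i hi x hx hx0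
    rcases hcase i hi with h | ⟨j, hj, rfl⟩
    · rw [hτ1 i h, mul_smul]
      exact hpos i h x hx hx0
    · rw [hτ2 j hj]
      have e1 : x = P.L ^ (d - j) • (P.θ j • x) := by
        rw [← mul_smul, P.L_θ j hj.le, hx]
      have e2 : P.θ j • x ≠ 0 := by
        intro h0
        apply hx0
        rw [e1, h0, smul_zero]
      have e3 := hpos j hj.le (P.θ j • x) (by rw [← mul_smul, P.π_θ j hj.le]) e2
      rw [← P.q_L_pow, ← e1] at e3
      rwa [mul_smul]
  have hmul0 : ∀ i ≤ 2 * d, ∀ j ≤ 2 * d, i ≠ j → τ i * P.π j = 0 := by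
    intro i hi j _ hij
    rw [← hB i hi, mul_assoc, P.π_ne i j hij, mul_zero]
  have hmul0' : ∀ i ≤ 2 * d, ∀ j ≤ 2 * d, i ≠ j → P.π (2 * d - j) * τ i = 0 := by
    intro i hi j hj hij
    rw [← hA i hi, ← mul_assoc, P.π_ne _ _ (by omega), zero_mul]
  set T : R := ∑ i ∈ Finset.range (2 * d + 1), τ i with hT
  have hTπ : ∀ i ≤ 2 * d, T * P.π i = τ i := by
    intro i hi
    rw [hT, Finset.sum_mul, Finset.sum_eq_single_of_mem i (by rw [Finset.mem_range]; omega),
      hB i hi]
    intro j hj hji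
    rw [Finset.mem_range] at hj
    exact hmul0 j (by omega) i hi hji
  have hπT : ∀ i ≤ 2 * d, P.π (2 * d - i) * T = τ i := by
    intro i hi
    rw [hT, Finset.mul_sum, Finset.sum_eq_single_of_mem i (by rw [Finset.mem_range]; omega),
      hA i hi]
    intro j hj hji
    rw [Finset.mem_range] at hj
    exact hmul0' j (by omega) i hi hji
  have hTτ : ∀ i ≤ 2 * d, T * τ i = P.π i := by
    intro i hi
    rw [← hA i hi, ← mul_assoc, hTπ _ (by omega), hC i hi]
  refine ⟨T, ?_, ?_, ?_, ?_, ?_, ?_, ?_⟩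
  · conv_lhs => rw [hT, ← hT, Finset.mul_sum]
    unfold ε
    refine Finset.sum_congr rfl (fun i hi => ?_)
    rw [Finset.mem_range] at hi
    exact hTτ i (by omega)
  · conv_lhs => rw [hT, Finset.sum_mul]
    refine Finset.sum_congr rfl (fun i hi => ?_)
    rw [Finset.mem_range] at hi
    rw [← hB i (by omega), mul_assoc, P.π_mul_ε]
  · conv_lhs => rw [hT, Finset.mul_sum]
    refine Finset.sum_congr rfl (fun i hi => ?_)
    rw [Finset.mem_range] at hi
    rw [← hA i (by omega), ← mul_assoc, P.ε_mul_π]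
  · intro i hi
    rw [hTπ i hi, hπT i hi]
  · intro x y
    rw [hT, Finset.sum_smul, Finset.sum_smul, map_sum, map_sum, AddMonoidHom.finsetSum_apply]
    refine Finset.sum_congr rfl (fun i hi => ?_)
    rw [Finset.mem_range] at hi
    exact hD i (by omega) x y
  · intro x hx hx0
    have e1 : ∀ i ≤ 2 * d, q x (τ i • x) = q (P.π i • x) (τ i • (P.π i • x)) := by
      intro i hi
      rw [P.q_π i hi, ← mul_smul, ← mul_smul, mul_assoc, hB i hi, hA i hi]
    rw [hT, Finset.sum_smul, map_sum]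
    have e2 : ∀ i ∈ Finset.range (2 * d + 1), 0 ≤ q x (τ i • x) := by
      intro i hi
      rw [Finset.mem_range] at hi
      rw [e1 i (by omega)]
      by_cases h0 : P.π i • x = 0
      · rw [h0]; simp
      · exact (hE i (by omega) _ (by rw [← mul_smul, P.π_self]) h0).le
    have e3 : ∃ i ∈ Finset.range (2 * d + 1), P.π i • x ≠ 0 := by
      by_contra hcon
      apply hx0
      rw [← hx]
      unfold ε
      rw [Finset.sum_smul]
      refine Finset.sum_eq_zero (fun i hi => ?_)
      by_contra h0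
      exact hcon ⟨i, hi, h0⟩
    obtain ⟨i, hi, h0⟩ := e3
    refine Finset.sum_pos' e2 ⟨i, hi, ?_⟩
    rw [Finset.mem_range] at hi
    rw [e1 i (by omega)]
    exact hE i (by omega) _ (by rw [← mul_smul, P.π_self]) h0
  · intro p
    have h1 : P.π d * T = s d := by
      have h2 := hπT d (by omega)
      rw [show 2 * d - d = d by omega] at h2
      rw [h2, hτ1 d le_rfl, Nat.sub_self, pow_zero, one_mul]
    rw [h1]
    exact htr d le_rfl p

end Pkg

end Pool.Agent.Lib.OrlovSig
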