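import Mathlib

/-!
# Traces on a finite dimensional algebra and equivalence of idempotents
-/

set_option autoImplicit false

namespace Pool.Agent.Lib.OrlovSig

/-- `tr p r` is the trace of `a ↦ p * a * r`. -/
noncomputable def tr {R : Type*} [Ring R] [Algebra ℚ R] (p r : R) : ℚ :=
  LinearMap.trace ℚ R (LinearMap.mulLeft ℚ p * LinearMap.mulRight ℚ r)

section

variable {R : Type*} [Ring R] [Algebra ℚ R]

theorem tr_add (p r s : R) : tr p (r + s) = tr p r + tr p s := by
  unfold tr
  rw [← map_add, ← mul_add]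
  congr 2
  ext a
  simp [mul_add]

theorem tr_zero (p : R) : tr p (0 : R) = 0 := by
  have h := tr_add p (0 : R) 0
  rw [add_zero] at h
  linarith

theorem tr_neg (p r : R) : tr p (-r) = -tr p r := by
  have h := tr_add p r (-r)
  rw [add_neg_cancel, tr_zero] at h
  linarith

theorem tr_sub (p r s : R) : tr p (r - s) = tr p r - tr p s := by
  rw [sub_eq_add_neg, tr_add, tr_neg, ← sub_eq_add_neg]

theorem tr_mul_comm (p x y : R) : tr p (x * y) = tr p (y * x) := by
  unfold tr
  have h1 : LinearMap.mulLeft ℚ p * LinearMap.mulRight ℚ (x * y) =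
      (LinearMap.mulRight ℚ y) * (LinearMap.mulLeft ℚ p * LinearMap.mulRight ℚ x) := by
    ext a
    simp [mul_assoc]
  have h2 : LinearMap.mulLeft ℚ p * LinearMap.mulRight ℚ (y * x) =
      (LinearMap.mulLeft ℚ p * LinearMap.mulRight ℚ x) * (LinearMap.mulRight ℚ y) := by
    ext a
    simp [mul_assoc]
  rw [h1, h2, LinearMap.trace_mul_comm]

theorem tr_sum {ι : Type*} (p : R) (s : Finset ι) (f : ι → R) :
    tr p (∑ i ∈ s, f i) = ∑ i ∈ s, tr p (f i) := by
  classical
  induction s using Finset.induction_on with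
  | empty => simp [tr_zero]
  | insert a s ha ih => rw [Finset.sum_insert ha, Finset.sum_insert ha, tr_add, ih]

theorem tr_smul (p r : R) (c : ℚ) : tr p (c • r) = c * tr p r := by
  unfold tr
  have h : LinearMap.mulLeft ℚ p * LinearMap.mulRight ℚ (c • r) =
      c • (LinearMap.mulLeft ℚ p * LinearMap.mulRight ℚ r) := by
    ext a
    simp
  rw [h, map_smul, smul_eq_mul]

theorem isIdempotentElem_mulLR {p e : R} (hp : p * p = p) (he : e * e = e) :
    IsIdempotentElem (LinearMap.mulLeft ℚ p * LinearMap.mulRight ℚ e) := by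
  unfold IsIdempotentElem
  ext a
  simp only [Module.End.mul_apply, LinearMap.mulLeft_apply, LinearMap.mulRight_apply]
  calc p * (p * (a * e) * e) = (p * p) * a * (e * e) := by simp only [mul_assoc]
    _ = p * (a * e) := by rw [hp, he, mul_assoc]

theorem tr_eq_finrank [Module.Finite ℚ R] {p e : R} (hp : p * p = p) (he : e * e = e) :
    tr p e = (Module.finrank ℚ
      (LinearMap.range (LinearMap.mulLeft ℚ p * LinearMap.mulRight ℚ e)) : ℚ) := by
  unfold tr
  exact (LinearMap.IsIdempotentElem.isProj_range _ (isIdempotentElem_mulLR hp he)).trace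

theorem tr_nonneg [Module.Finite ℚ R] {p e : R} (hp : p * p = p) (he : e * e = e) :
    0 ≤ tr p e := by
  rw [tr_eq_finrank hp he]
  positivity

/-- `tr p e` is positive if `p R e` is not zero, and conversely. -/
theorem tr_pos_iff [Module.Finite ℚ R] {p e : R} (hp : p * p = p) (he : e * e = e) :
    0 < tr p e ↔ ∃ a : R, p * a * e ≠ 0 := by
  constructor
  · intro h
    by_contra hcon
    push Not at hcon
    have h0 : LinearMap.mulLeft ℚ p * LinearMap.mulRight ℚ e = 0 := by
      ext a
      simp only [Module.End.mul_apply, LinearMap.mulLeft_apply, LinearMap.mulRight_apply,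
        LinearMap.zero_apply]
      rw [← mul_assoc]
      exact hcon a
    unfold tr at h
    rw [h0, map_zero] at h
    exact lt_irrefl _ h
  · rintro ⟨a, ha⟩
    rcases (tr_nonneg hp he).lt_or_eq with h | h
    · exact h
    · exfalso
      apply ha
      unfold tr at h
      have h0 := LinearMap.IsIdempotentElem.eq_zero_of_trace_eq_zero (isIdempotentElem_mulLR hp he)
        h.symm
      have h1 := LinearMap.congr_fun h0 a
      simpa [mul_assoc] using h1

theorem tr_le_of_factor [Module.Finite ℚ R] (p e f x y : R) (hp : p * p = p) (he : e * e = e)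
    (hf : f * f = f) (hxy : x * y = e) (hxf : x * f = x) : tr p e ≤ tr p f := by
  -- `g = f y e x` is an idempotent below `f`
  have h1 : (e * x) * (f * y * e) = e := by
    calc (e * x) * (f * y * e) = e * ((x * f) * y) * e := by simp only [mul_assoc]
      _ = e := by rw [hxf, hxy, he, he]
  set g : R := (f * y * e) * (e * x) with hg
  have hgg : g * g = g := by
    calc g * g = (f * y * e) * ((e * x) * (f * y * e)) * (e * x) := by
          rw [hg]; simp only [mul_assoc]
      _ = (f * y * e) * e * (e * x) := by rw [h1]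
      _ = g := by rw [hg]; simp only [mul_assoc]; rw [← mul_assoc e e, he]
  have hfg : f * g = g := by
    rw [hg]
    simp only [← mul_assoc]
    rw [hf]
  have hgf : g * f = g := by
    rw [hg, mul_assoc, mul_assoc e x f, hxf]
  have h2 : tr p e = tr p g := by
    rw [← h1, tr_mul_comm, hg]
  have h3 : (f - g) * (f - g) = f - g := by
    rw [sub_mul, mul_sub, mul_sub, hf, hfg, hgf, hgg]
    abel
  have h4 := tr_nonneg hp h3
  rw [tr_sub] at h4
  linarith

/-- In a regular algebra of finite dimension, idempotents with the same traces are equivalent. -/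
theorem exists_equiv_of_tr_eq [Module.Finite ℚ R] (hreg : ∀ x : R, ∃ z : R, x * z * x = x)
    (e f : R) (he : e * e = e) (hf : f * f = f) (h : ∀ p : R, p * p = p → tr p e = tr p f) :
    ∃ x y : R, x * y = e ∧ y * x = f ∧ e * x = x ∧ x * f = x ∧ f * y = y ∧ y * e = y := by
  -- the dimension of the left ideal generated by an element
  set D : R → ℕ := fun r => Module.finrank ℚ (LinearMap.range (LinearMap.mulRight ℚ r)) with hD
  have hlt : ∀ a b : R, a * b = a → b * b = b → a * a = a → a ≠ b → b * a = a → D a < D b := by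
    intro a b hab hbb haa hne hba
    apply Submodule.finrank_lt_finrank_of_lt
    refine lt_of_le_of_ne ?_ ?_
    · rintro _ ⟨c, rfl⟩
      refine ⟨c * a, ?_⟩
      simp only [LinearMap.mulRight_apply]
      rw [mul_assoc, hab]
    · intro heq
      apply hne
      have hb : b ∈ LinearMap.range (LinearMap.mulRight ℚ a) := by
        rw [heq]
        exact ⟨b, by simp [hbb]⟩
      obtain ⟨c, hc⟩ := hb
      simp only [LinearMap.mulRight_apply] at hc
      have : b * a = b := by rw [← hc, mul_assoc, haa]
      rw [← hba, this]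
  induction hn : D e using Nat.strong_induction_on generalizing e f with
  | _ n ih =>
  by_cases he0 : e = 0
  · -- then `f = 0`
    have hf0 : f = 0 := by
      by_contra hf0
      have h1 : 0 < tr (1 : R) f :=
        (tr_pos_iff (mul_one 1) hf).2 ⟨1, by rw [one_mul, one_mul]; exact hf0⟩
      rw [← h 1 (mul_one 1), he0, tr_zero] at h1
      exact lt_irrefl _ h1
    exact ⟨0, 0, by simp [he0], by simp [hf0], by simp, by simp, by simp, by simp⟩
  -- a minimal idempotent `p` below `e`
  obtain ⟨p, ⟨hpp, hp0, hep, hpe⟩, hmin⟩ : ∃ p : R, (p * p = p ∧ p ≠ 0 ∧ e * p = p ∧ p * e = p) ∧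
      ∀ q : R, (q * q = q ∧ q ≠ 0 ∧ e * q = q ∧ q * e = q) → D p ≤ D q := by
    have hex : ∃ k, ∃ q : R, (q * q = q ∧ q ≠ 0 ∧ e * q = q ∧ q * e = q) ∧ D q = k :=
      ⟨_, e, ⟨he, he0, he, he⟩, rfl⟩
    classical
    obtain ⟨q, hq, hqk⟩ := Nat.find_spec hex
    refine ⟨q, hq, fun r hr => ?_⟩
    rw [hqk]
    exact Nat.find_min' hex ⟨r, hr, rfl⟩
  have htr : 0 < tr p f := by
    rw [← h p hpp]
    exact (tr_pos_iff hpp he).2 ⟨p, by rw [hpp, hpe]; exact hp0⟩
  obtain ⟨a, ha⟩ := (tr_pos_iff hpp hf).1 htr
  set x : R := p * a * f with hx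
  have hpx : p * x = x := by rw [hx, ← mul_assoc, ← mul_assoc, hpp]
  have hxf : x * f = x := by rw [hx, mul_assoc, hf]
  obtain ⟨z, hz⟩ := hreg x
  -- `q = x z p` is an idempotent below `p`
  have hqq : (x * z * p) * (x * z * p) = x * z * p := by
    calc (x * z * p) * (x * z * p) = x * z * (p * x) * z * p := by simp only [mul_assoc]
      _ = (x * z * x) * z * p := by rw [hpx]
      _ = x * z * p := by rw [hz]
  have hq0 : x * z * p ≠ 0 := by
    intro h0
    apply ha
    calc x = x * z * x := hz.symm
      _ = x * z * (p * x) := by rw [hpx]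
      _ = (x * z * p) * x := by rw [mul_assoc (x * z)]
      _ = 0 := by rw [h0, zero_mul]
  have hpq : p * (x * z * p) = x * z * p := by
    rw [← mul_assoc, ← mul_assoc, hpx]
  have hqp : (x * z * p) * p = x * z * p := by rw [mul_assoc, hpp]
  have hqe : x * z * p = p := by
    by_contra hne
    have h1 := hmin (x * z * p) ⟨hqq, hq0, by
      rw [← mul_assoc, ← mul_assoc]
      congr 2
      rw [← hpx, ← mul_assoc, hep], by rw [mul_assoc, hpe]⟩
    have h2 := hlt (x * z * p) p hqp hpp hqq hne hpq
    omega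
  set y : R := f * z * p with hy
  have hxy : x * y = p := by
    rw [hy, ← mul_assoc, ← mul_assoc, hxf, hqe]
  have hfy : f * y = y := by rw [hy, ← mul_assoc, ← mul_assoc, hf]
  have hyp : y * p = y := by rw [hy, mul_assoc, hpp]
  -- the smaller idempotents
  have hyx : (y * x) * (y * x) = y * x := by
    calc (y * x) * (y * x) = y * (x * y) * x := by simp only [mul_assoc]
      _ = y * x := by rw [hxy, hyp]
  have hfyx : f * (y * x) = y * x := by rw [← mul_assoc, hfy]
  have hyxf : (y * x) * f = y * x := by rw [mul_assoc, hxf]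
  have he' : (e - p) * (e - p) = e - p := by
    rw [sub_mul, mul_sub, mul_sub, he, hep, hpe, hpp]; abel
  have hf' : (f - y * x) * (f - y * x) = f - y * x := by
    rw [sub_mul, mul_sub, mul_sub, hf, hfyx, hyxf, hyx]; abel
  have hnee : e - p ≠ e := by
    intro h0
    apply hp0
    have : p = e - (e - p) := by abel
    rw [this, h0, sub_self]
  have hdlt : D (e - p) < n := by
    rw [← hn]
    refine hlt (e - p) e ?_ he he' hnee ?_
    · rw [sub_mul, he, hpe]
    · rw [mul_sub, he, hep]
  obtain ⟨x', y', h1, h2, h3, h4, h5, h6⟩ := ih _ hdlt (e - p) (f - y * x) he' hf' (by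
    intro q hq
    rw [tr_sub, tr_sub, h q hq, ← hxy, tr_mul_comm q x y]) rfl
  have c1 : x * y' = 0 := by
    have : x * (f - y * x) = 0 := by rw [mul_sub, hxf, ← mul_assoc, hxy, hpx, sub_self]
    rw [← h5, ← mul_assoc, this, zero_mul]
  have c2 : x' * y = 0 := by
    have : (f - y * x) * y = 0 := by rw [sub_mul, hfy, mul_assoc, hxy, hyp, sub_self]
    rw [← h4, mul_assoc, this, mul_zero]
  have c3 : y * x' = 0 := by
    have : y * (e - p) = 0 := by
      rw [mul_sub, hyp, ← hyp, mul_assoc, hpe, sub_self]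
    rw [← h3, ← mul_assoc, this, zero_mul]
  have c4 : y' * x = 0 := by
    have : (e - p) * x = 0 := by
      rw [sub_mul, hpx, ← hpx, ← mul_assoc, hep, sub_self]
    rw [← h6, mul_assoc, this, mul_zero]
  have k1 : e * x = x := by rw [← hpx, ← mul_assoc, hep]
  have k2 : y * e = y := by rw [← hyp, mul_assoc, hpe]
  have k3 : e * x' = x' := by
    rw [← h3, ← mul_assoc, mul_sub, he, hep]
  have k4 : x' * f = x' := by
    rw [← h4, mul_assoc, sub_mul, hf, hyxf]
  have k5 : f * y' = y' := by
    rw [← h5, ← mul_assoc, mul_sub, hf, hfyx]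
  have k6 : y' * e = y' := by
    rw [← h6, mul_assoc, sub_mul, he, hpe]
  refine ⟨x + x', y + y', ?_, ?_, ?_, ?_, ?_, ?_⟩
  · rw [add_mul, mul_add, mul_add, hxy, c1, c2, h1]; abel
  · rw [add_mul, mul_add, mul_add, c3, c4, h2]; abel
  · rw [mul_add, k1, k3]
  · rw [add_mul, hxf, k4]
  · rw [mul_add, hfy, k5]
  · rw [add_mul, k2, k6]

/-- An algebra of finite dimension with a positive involution is regular. -/
theorem exists_regular {W : Type*} [Module.Finite ℚ R] [AddCommGroup W] [Module R W]
    [FaithfulSMul R W] (Ψ : W →+ W →+ ℝ) (hsymm : ∀ x y, Ψ x y = Ψ y x)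
    (hpos : ∀ x, x ≠ 0 → 0 < Ψ x x)
    (hadj : ∀ r : R, ∃ r' : R, ∀ x y, Ψ (r • x) y = Ψ x (r' • y)) (x : R) :
    ∃ z : R, x * z * x = x := by
  choose ad had using hadj
  have hinj : ∀ r s : R, (∀ v w, Ψ v (r • w) = Ψ v (s • w)) → r = s := by
    intro r s hrs
    apply FaithfulSMul.eq_of_smul_eq_smul (α := W)
    intro w
    by_contra hne
    have h1 := hpos (r • w - s • w) (sub_ne_zero.2 hne)
    have h2 := hrs (r • w - s • w) w
    rw [map_sub, h2, sub_self] at h1
    exact lt_irrefl _ h1
  have hadmul : ∀ r s : R, ad (r * s) = ad s * ad r := by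
    intro r s
    apply hinj
    intro v w
    rw [← had, mul_smul, had, had, mul_smul]
  have hadad : ∀ r : R, ad (ad r) = r := by
    intro r
    apply hinj
    intro v w
    rw [← had, hsymm, ← had, hsymm]
  have hsub : ∀ r s : R, ad (r - s) = ad r - ad s := by
    intro r s
    apply hinj
    intro v w
    rw [← had, sub_smul, sub_smul, map_sub, map_sub, AddMonoidHom.sub_apply, had, had]
  -- `r * r† = 0` implies `r = 0`
  have hz : ∀ r : R, ad r * r = 0 → r = 0 := by
    intro r hr
    apply FaithfulSMul.eq_of_smul_eq_smul (α := W)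
    intro w
    rw [zero_smul]
    by_contra hne
    have h1 := hpos _ hne
    rw [had, ← mul_smul, hr, zero_smul, map_zero] at h1
    exact lt_irrefl _ h1
  have hz' : ∀ r : R, r * ad r = 0 → r = 0 := by
    intro r hr
    have h1 : ad r = 0 := by
      apply hz
      rw [hadad]
      exact hr
    rw [← hadad r, h1]
    have h0 : ad (0 : R) = 0 := by
      have := hsub 0 0
      rwa [sub_self, sub_self] at this
    exact h0
  set a : R := x * ad x with ha
  have haa : ad a = a := by rw [ha, hadmul, hadad]
  -- left multiplication by `a` on `a R`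
  have hkill : ∀ r : R, a * (a * r) = 0 → a * r = 0 := by
    intro r hr
    apply hz
    rw [hadmul, haa, mul_assoc, hr, mul_zero]
  set A : Submodule ℚ R := LinearMap.range (LinearMap.mulLeft ℚ a) with hA
  have hmaps : ∀ r ∈ A, LinearMap.mulLeft ℚ a r ∈ A := fun r _ => ⟨r, rfl⟩
  set φ : A →ₗ[ℚ] A := (LinearMap.mulLeft ℚ a).restrict hmaps with hφ
  have hφinj : Function.Injective φ := by
    rw [injective_iff_map_eq_zero]
    rintro ⟨_, ⟨r, rfl⟩⟩ hr
    have h1 : a * (a * r) = 0 := by
      have := congrArg Subtype.val hr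
      simpa [hφ] using this
    apply Subtype.ext
    simpa using hkill r h1
  have hφsurj : Function.Surjective φ := LinearMap.surjective_of_injective hφinj
  obtain ⟨⟨_, ⟨t, rfl⟩⟩, ht⟩ := hφsurj ⟨a, ⟨1, by simp⟩⟩
  have hat : a * (a * t) = a := by
    have := congrArg Subtype.val ht
    simpa [hφ] using this
  have he0a : (a * t) * a = a := by
    have h1 : a * (a * (t * a - 1)) = 0 := by
      rw [mul_sub, mul_sub, mul_one, ← mul_assoc a t a, ← mul_assoc a (a * t) a, hat, sub_self]
    have h2 := hkill _ h1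
    rw [mul_sub, mul_one, ← mul_assoc] at h2
    exact sub_eq_zero.1 h2
  have hy0 : (1 - a * t) * x = 0 := by
    apply hz'
    rw [hadmul]
    calc (1 - a * t) * x * (ad x * ad (1 - a * t))
        = (1 - a * t) * (x * ad x) * ad (1 - a * t) := by simp only [mul_assoc]
      _ = ((1 - a * t) * a) * ad (1 - a * t) := by rw [← ha]
      _ = 0 := by rw [sub_mul, one_mul, he0a, sub_self, zero_mul]
  refine ⟨ad x * t, ?_⟩
  rw [sub_mul, one_mul, sub_eq_zero] at hy0
  calc x * (ad x * t) * x = (x * ad x) * t * x := by simp only [mul_assoc]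
    _ = x := by rw [← ha]; exact hy0.symm

end

end Pool.Agent.Lib.OrlovSig
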