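import Pool.Agent.Lib.OrlovSig.Assemble

/-!
# Removing the first Chern class from the Mukai pairing
-/

set_option autoImplicit false

open scoped TensorProduct ComplexOrder

namespace Pool.Agent.Lib.OrlovSig

open Polynomial in
theorem exists_sqrt {A : Type*} [CommRing A] [Algebra ℚ A] (s : A) (hs : IsNilpotent (s - 1)) :
    ∃ r t : A, r * r = s ∧ r * t = 1 := by
  have h2 : IsUnit (2 : A) := by
    have h := (isUnit_iff_ne_zero.2 (two_ne_zero (α := ℚ))).map (algebraMap ℚ A)
    rwa [map_ofNat] at h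
  set P : A[X] := X ^ 2 - C s with hP
  have h1 : aeval (1 : A) P = 1 - s := by simp [hP]
  have h3 : aeval (1 : A) (derivative P) = 2 := by simp [hP, one_add_one_eq_two]
  obtain ⟨r, ⟨hr1, hr2⟩, -⟩ := existsUnique_nilpotent_sub_and_aeval_eq_zero (P := P) (x := (1 : A))
    (by rw [h1, ← neg_sub]; exact hs.neg) (by rw [h3]; exact h2)
  have hr3 : r * r = s := by
    simp only [hP, map_sub, map_pow, aeval_X, aeval_C] at hr2
    rw [← sq]
    exact sub_eq_zero.1 hr2
  have hr4 : IsUnit r := by
    have h := hr1.isUnit_one_sub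
    rwa [sub_sub_cancel] at h
  obtain ⟨t, ht⟩ := hr4.exists_right_inv
  exact ⟨r, t, hr3, ht⟩

namespace HodgeLefschetz

variable {d : ℕ} {V V' : Type*} [AddCommGroup V] [Module ℚ V] [AddCommGroup V'] [Module ℚ V']

theorem baseChange_sum' {U U' : Type*} [AddCommGroup U] [Module ℚ U] [AddCommGroup U']
    [Module ℚ U'] {ι : Type*} (s : Finset ι) (f : ι → (U →ₗ[ℚ] U')) :
    (∑ i ∈ s, f i).baseChange ℂ = ∑ i ∈ s, (f i).baseChange ℂ :=
  map_sum (LinearMap.baseChangeHom ℚ ℂ U U') f s

theorem parE_baseChange (X : HodgeLefschetz d V) : X.parE.baseChange ℂ =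
    ∑ c ∈ (Finset.Icc (-(2 * d : ℤ)) (2 * d)).filter (fun c : ℤ => c % 2 = (d : ℤ) % 2), X.col c := by
  apply X.ext_hp
  intro p q x
  unfold parE
  rw [baseChange_sum', LinearMap.sum_apply, LinearMap.sum_apply]
  by_cases hpq : p + q ≤ 2 * d
  · rw [Finset.sum_eq_single (p + q)]
    · by_cases hp : (p + q) % 2 = d % 2
      · rw [if_pos hp, X.prC_hp, if_pos rfl, Finset.sum_eq_single ((p : ℤ) - q)]
        · rw [X.col_hp, if_pos rfl]
        · intro c _ hc
          rw [X.col_hp, if_neg (Ne.symm hc)]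
        · intro h
          exfalso
          apply h
          rw [Finset.mem_filter, Finset.mem_Icc]
          refine ⟨⟨by omega, by omega⟩, by omega⟩
      · rw [if_neg hp, LinearMap.baseChange_zero, LinearMap.zero_apply, Finset.sum_eq_zero]
        intro c hc
        rw [Finset.mem_filter] at hc
        rw [X.col_hp, if_neg (by omega)]
    · intro j _ hj
      split_ifs
      · rw [X.prC_hp, if_neg (Ne.symm hj)]
      · rw [LinearMap.baseChange_zero, LinearMap.zero_apply]
    · intro h
      exact absurd (Finset.mem_range.2 (by omega)) h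
  · rw [X.hp_top p q (by omega)]
    simp

theorem parE_comm {X : HodgeLefschetz d V} {X' : HodgeLefschetz d V'} {f : V →ₗ[ℚ] V'}
    (hf : X.IsHodge X' f) : X'.parE ∘ₗ f = f ∘ₗ X.parE := by
  apply baseChange_inj
  apply LinearMap.ext
  intro x
  rw [LinearMap.baseChange_comp, LinearMap.baseChange_comp, LinearMap.comp_apply,
    LinearMap.comp_apply, parE_baseChange, parE_baseChange, LinearMap.sum_apply,
    LinearMap.sum_apply, map_sum]
  exact Finset.sum_congr rfl (fun c _ => (hf c x).symm)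

theorem ext_pr (X : HodgeLefschetz d V) {M : Type*} [AddCommGroup M] [Module ℚ M]
    {f g : V →ₗ[ℚ] M} (h : ∀ j x, f (X.pr j x) = g (X.pr j x)) : f = g := by
  ext x
  have hx : x = ∑ j ∈ Finset.range (2 * d + 1), X.pr j x := by
    rw [← LinearMap.sum_apply, X.pr_sum, LinearMap.id_apply]
  rw [hx, map_sum, map_sum]
  exact Finset.sum_congr rfl (fun j _ => h j x)

theorem dual_pr (X : HodgeLefschetz d V) (i : ℕ) (x : V) :
    X.dual (X.pr i x) = (-1 : ℚ) ^ (i / 2) • X.pr i x := by
  unfold dual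
  rw [LinearMap.sum_apply]
  by_cases hi : i ≤ 2 * d
  · rw [Finset.sum_eq_single_of_mem i (Finset.mem_range.2 (by omega))]
    · rw [LinearMap.smul_apply, ← Module.End.mul_apply, X.pr_self]
    · intro j _ hj
      rw [LinearMap.smul_apply, ← Module.End.mul_apply, X.pr_ne j i hj, LinearMap.zero_apply,
        smul_zero]
  · rw [X.pr_top i (by omega)]
    simp

theorem dual_can (X : HodgeLefschetz d V) : X.dual ∘ₗ X.can = -(X.can ∘ₗ X.dual) := by
  apply X.ext_pr
  intro j x
  have h1 : X.can (X.pr j x) = X.pr (j + 2) (X.can x) := by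
    rw [← Module.End.mul_apply, X.can_pr, Module.End.mul_apply]
  rw [LinearMap.comp_apply, LinearMap.neg_apply, LinearMap.comp_apply, dual_pr, h1, dual_pr,
    map_smul, h1, Nat.add_div_right _ (by norm_num), pow_succ]
  simp

theorem qf_smul_right (X : HodgeLefschetz d V) (c : ℚ) (x y : V) :
    X.qf x (c • y) = c * X.qf x y := by
  rw [map_rat_smul, Rat.smul_def]

theorem qf_smul_left (X : HodgeLefschetz d V) (c : ℚ) (x y : V) :
    X.qf (c • x) y = c * X.qf x y := by
  rw [X.qf_symm, qf_smul_right, X.qf_symm]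

theorem qf_pr_pr (X : HodgeLefschetz d V) (i j : ℕ) (h : i + j ≠ 2 * d) (x y : V) :
    X.qf (X.pr i x) (X.pr j y) = 0 := by
  by_cases hi : i ≤ 2 * d
  · rw [X.qf_pr i hi, ← Module.End.mul_apply, X.pr_ne _ _ (by omega), LinearMap.zero_apply,
      map_zero]
  · rw [X.pr_top i (by omega), LinearMap.zero_apply, map_zero, AddMonoidHom.zero_apply]

theorem parE_pr (X : HodgeLefschetz d V) (i : ℕ) (x : V) :
    X.pr i (X.parE x) = if i % 2 = d % 2 then X.pr i x else 0 := by
  unfold parE
  rw [LinearMap.sum_apply, map_sum]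
  by_cases hi : i ≤ 2 * d
  · rw [Finset.sum_eq_single_of_mem i (Finset.mem_range.2 (by omega))]
    · split_ifs
      · rw [← Module.End.mul_apply, X.pr_self]
      · simp
    · intro j _ hj
      split_ifs
      · rw [← Module.End.mul_apply, X.pr_ne i j (Ne.symm hj), LinearMap.zero_apply]
      · simp
  · rw [X.pr_top i (by omega)]
    simp

theorem qf_dual (X : HodgeLefschetz d V) (x y : V) (hx : X.parE x = x) :
    X.qf (X.dual x) y = X.qf x (X.dual y) := by
  have hx' : x = ∑ i ∈ Finset.range (2 * d + 1), X.pr i x := by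
    rw [← LinearMap.sum_apply, X.pr_sum, LinearMap.id_apply]
  have hy' : y = ∑ i ∈ Finset.range (2 * d + 1), X.pr i y := by
    rw [← LinearMap.sum_apply, X.pr_sum, LinearMap.id_apply]
  rw [hx', hy']
  simp only [map_sum, AddMonoidHom.finsetSum_apply]
  refine Finset.sum_congr rfl (fun i hi => Finset.sum_congr rfl (fun j hj => ?_))
  rw [Finset.mem_range] at hi hj
  rw [X.dual_pr, X.dual_pr, X.qf_smul_left, X.qf_smul_right]
  by_cases hij : i + j = 2 * d
  · by_cases h2 : j % 2 = d % 2
    · have h3 : (-1 : ℚ) ^ (j / 2) = (-1 : ℚ) ^ (i / 2) := by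
        have h4 : Even (i / 2 + j / 2) := by
          rw [Nat.even_iff]
          omega
        rcases Nat.even_or_odd (j / 2) with h5 | h5
        · have h6 : Even (i / 2) := by
            rw [Nat.even_iff] at *
            omega
          rw [h5.neg_one_pow, h6.neg_one_pow]
        · have h6 : Odd (i / 2) := by
            rw [Nat.odd_iff] at *
            rw [Nat.even_iff] at h4
            omega
          rw [h5.neg_one_pow, h6.neg_one_pow]
      rw [h3]
    · have h3 : X.pr j x = 0 := by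
        rw [← hx, X.parE_pr, if_neg h2]
      rw [h3]
      simp
  · rw [X.qf_pr_pr j i (by omega)]
    simp

/-- Multiplication by `exp(-c₁(X)/2)`. -/
noncomputable def expNeg (X : HodgeLefschetz d V) : V →ₗ[ℚ] V :=
  ∑ n ∈ Finset.range (d + 1), ((-1) ^ n * ((2 : ℚ) ^ n * n.factorial)⁻¹) • X.can ^ n

/-- Multiplication by `cosh(c₁(X)/2)`. -/
noncomputable def cosh (X : HodgeLefschetz d V) : Module.End ℚ V :=
  ∑ n ∈ Finset.range (d + 1), ((1 + (-1) ^ n) / 2 * ((2 : ℚ) ^ n * n.factorial)⁻¹) • X.can ^ n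

theorem exp_add_exp (X : HodgeLefschetz d V) : X.expHalf + X.expNeg = (2 : ℚ) • X.cosh := by
  unfold expHalf expNeg cosh
  rw [← Finset.sum_add_distrib, Finset.smul_sum]
  refine Finset.sum_congr rfl (fun n _ => ?_)
  rw [← add_smul, smul_smul]
  congr 1
  ring

theorem can_pow_dual (X : HodgeLefschetz d V) (n : ℕ) (x : V) :
    (X.can ^ n) (X.dual x) = (-1 : ℚ) ^ n • X.dual ((X.can ^ n) x) := by
  induction n with
  | zero => simp
  | succ n ih =>
    rw [pow_succ', Module.End.mul_apply, ih, map_smul, Module.End.mul_apply]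
    have h := LinearMap.congr_fun X.dual_can ((X.can ^ n) x)
    rw [LinearMap.comp_apply, LinearMap.neg_apply, LinearMap.comp_apply] at h
    rw [h, pow_succ, smul_neg]
    simp

theorem expHalf_dual (X : HodgeLefschetz d V) (x : V) :
    X.expHalf (X.dual x) = X.dual (X.expNeg x) := by
  unfold expHalf expNeg
  rw [LinearMap.sum_apply, LinearMap.sum_apply, map_sum]
  refine Finset.sum_congr rfl (fun n _ => ?_)
  rw [LinearMap.smul_apply, LinearMap.smul_apply, can_pow_dual, map_smul, smul_smul, mul_comm]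

theorem qf_can_pow (X : HodgeLefschetz d V) (n : ℕ) (x y : V) :
    X.qf ((X.can ^ n) x) y = X.qf x ((X.can ^ n) y) := by
  induction n generalizing x y with
  | zero => rfl
  | succ n ih =>
    rw [pow_succ, Module.End.mul_apply, ih, X.qf_can, ← Module.End.mul_apply, ← pow_succ',
      ← pow_succ]

theorem qf_expHalf (X : HodgeLefschetz d V) (x y : V) :
    X.qf (X.expHalf x) y = X.qf x (X.expHalf y) := by
  unfold expHalf
  rw [LinearMap.sum_apply, LinearMap.sum_apply, map_sum, map_sum, AddMonoidHom.finsetSum_apply]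
  refine Finset.sum_congr rfl (fun n _ => ?_)
  rw [LinearMap.smul_apply, LinearMap.smul_apply, qf_smul_left, qf_smul_right, qf_can_pow]

theorem isHodge_sum {ι : Type*} (s : Finset ι) {X : HodgeLefschetz d V}
    {X' : HodgeLefschetz d V'} (f : ι → (V →ₗ[ℚ] V')) (hf : ∀ i, X.IsHodge X' (f i)) :
    X.IsHodge X' (∑ i ∈ s, f i) := by
  classical
  induction s using Finset.induction_on with
  | empty => exact X.isHodge_zero X'
  | insert a s ha ih =>
    rw [Finset.sum_insert ha]
    exact (hf a).add ih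

theorem isHodge_expHalf (X : HodgeLefschetz d V) : X.IsHodge X X.expHalf :=
  isHodge_sum _ _ (fun n => (X.isHodge_pow X.isHodge_can n).smul _)

theorem isHodge_expNeg (X : HodgeLefschetz d V) : X.IsHodge X X.expNeg :=
  isHodge_sum _ _ (fun n => (X.isHodge_pow X.isHodge_can n).smul _)

/-- On the part of degree congruent to `d` modulo `2` the symmetrisation of the Mukai pairing is
the pairing twisted by `cosh(c₁(X)/2)`. -/
theorem qf_dual_cosh (X : HodgeLefschetz d V) (x : V) (hx : X.parE x = x) :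
    X.qf (X.dual x) (X.cosh x) = X.qf (X.dual x) (X.expHalf x) := by
  have h1 : X.qf (X.dual x) (X.expNeg x) = X.qf (X.dual x) (X.expHalf x) := by
    have h2 : X.parE (X.expNeg x) = X.expNeg x := by
      have h := LinearMap.congr_fun (parE_comm X.isHodge_expNeg) x
      rw [LinearMap.comp_apply, LinearMap.comp_apply, hx] at h
      exact h
    rw [X.qf_dual x _ hx, ← X.expHalf_dual, ← X.qf_expHalf, X.qf_symm]
  have h3 : X.qf (X.dual x) ((X.expHalf + X.expNeg) x) = 2 * X.qf (X.dual x) (X.expHalf x) := by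
    rw [LinearMap.add_apply, map_add, h1]
    ring
  rw [X.exp_add_exp, LinearMap.smul_apply, X.qf_smul_right] at h3
  push_cast at h3
  linarith

/-- The predicate satisfied by the elements of the algebra generated by `c₁(X)²`. -/
def Good (X : HodgeLefschetz d V) (f : Module.End ℚ V) : Prop :=
  X.IsHodge X f ∧ (∀ x y, X.qf (f x) y = X.qf x (f y)) ∧ ∀ x, X.dual (f x) = f (X.dual x)

theorem good_adjoin (X : HodgeLefschetz d V) {f : Module.End ℚ V}
    (hf : f ∈ Algebra.adjoin ℚ {X.can ^ 2}) : X.Good f := by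
  induction hf using Algebra.adjoin_induction with
  | mem f hf =>
    rw [Set.mem_singleton_iff] at hf
    rw [hf]
    refine ⟨X.isHodge_pow X.isHodge_can 2, fun x y => X.qf_can_pow 2 x y, fun x => ?_⟩
    rw [X.can_pow_dual]
    simp
  | algebraMap r =>
    have h : ∀ x, (algebraMap ℚ (Module.End ℚ V) r) x = r • x := fun x =>
      Module.algebraMap_end_apply _ _ _ _ _
    refine ⟨?_, fun x y => ?_, fun x => ?_⟩
    · have h2 : (algebraMap ℚ (Module.End ℚ V) r) = r • (LinearMap.id : V →ₗ[ℚ] V) := by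
        ext x
        rw [h]
        rfl
      rw [h2]
      exact X.isHodge_id.smul r
    · rw [h, h, qf_smul_left, qf_smul_right]
    · rw [h, h, map_smul]
  | add f g _ _ hf hg =>
    obtain ⟨f1, f2, f3⟩ := hf
    obtain ⟨g1, g2, g3⟩ := hg
    refine ⟨f1.add g1, fun x y => ?_, fun x => ?_⟩
    · rw [LinearMap.add_apply, LinearMap.add_apply, map_add, map_add, AddMonoidHom.add_apply, f2, g2]
    · rw [LinearMap.add_apply, LinearMap.add_apply, map_add, f3, g3]
  | mul f g hf' hg' hf hg =>
    obtain ⟨f1, f2, f3⟩ := hf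
    obtain ⟨g1, g2, g3⟩ := hg
    have hc : g * f = f * g :=
      Algebra.commute_of_mem_adjoin_singleton_of_commute hg'
        (Algebra.commute_of_mem_adjoin_self hf').symm |>.symm
    refine ⟨IsHodge.comp f1 g1, fun x y => ?_, fun x => ?_⟩
    · rw [Module.End.mul_apply, f2, g2, ← Module.End.mul_apply, hc]
    · rw [Module.End.mul_apply, f3, g3, Module.End.mul_apply]

theorem can_pow_zero (X : HodgeLefschetz d V) : X.can ^ (d + 1) = 0 := by
  have h : ∀ k j, X.can ^ k * X.pr j = X.pr (j + 2 * k) * X.can ^ k := by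
    intro k j
    induction k with
    | zero => simp
    | succ k ih =>
      rw [pow_succ', mul_assoc, ih, ← mul_assoc, X.can_pr, mul_assoc]
      rfl
  apply X.ext_pr
  intro j x
  rw [← Module.End.mul_apply, h, X.pr_top _ (by omega)]
  simp

theorem cosh_mem (X : HodgeLefschetz d V) : X.cosh ∈ Algebra.adjoin ℚ {X.can ^ 2} := by
  unfold cosh
  refine Subalgebra.sum_mem _ (fun n _ => ?_)
  rcases Nat.even_or_odd n with h | h
  · obtain ⟨k, hk⟩ := h
    refine Subalgebra.smul_mem _ ?_ _
    rw [hk, ← two_mul, pow_mul]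
    exact Subalgebra.pow_mem _ (Algebra.self_mem_adjoin_singleton ℚ _) _
  · rw [h.neg_one_pow]
    simp

theorem cosh_nilpotent (X : HodgeLefschetz d V) : (X.cosh - 1) ^ (d + 1) = 0 := by
  have h1 : X.cosh - 1 = X.can * ∑ n ∈ Finset.range d,
      ((1 + (-1 : ℚ) ^ (n + 1)) / 2 * ((2 : ℚ) ^ (n + 1) * (n + 1).factorial)⁻¹) • X.can ^ n := by
    unfold cosh
    rw [Finset.sum_range_succ', Finset.mul_sum]
    simp only [pow_zero, Nat.factorial_zero, Nat.cast_one, mul_one, inv_one]
    norm_num
    refine Finset.sum_congr rfl (fun n _ => ?_)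
    rw [pow_succ' X.can]
  rw [h1, Commute.mul_pow, X.can_pow_zero, zero_mul]
  refine Commute.sum_right _ _ _ (fun n _ => ?_)
  exact (Commute.refl X.can).pow_right n |>.smul_right _

open scoped IsMulCommutative in
theorem exists_sqrt_cosh (X : HodgeLefschetz d V) : ∃ r t : Module.End ℚ V,
    r ∈ Algebra.adjoin ℚ {X.can ^ 2} ∧ t ∈ Algebra.adjoin ℚ {X.can ^ 2} ∧
    r * r = X.cosh ∧ r * t = 1 ∧ t * r = 1 := by
  obtain ⟨r, t, h1, h2⟩ := exists_sqrt (⟨X.cosh, X.cosh_mem⟩ : Algebra.adjoin ℚ {X.can ^ 2}) (by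
    refine ⟨d + 1, ?_⟩
    ext1
    exact X.cosh_nilpotent)
  refine ⟨r, t, r.2, t.2, congrArg Subtype.val h1, congrArg Subtype.val h2, ?_⟩
  rw [mul_comm] at h2
  exact congrArg Subtype.val h2

/-- A Mukai isometry can be modified to an isometry for the pairing without `c₁`, on the part
of degree congruent to `d` modulo `2`. -/
theorem exists_isometry (X : HodgeLefschetz d V) (X' : HodgeLefschetz d V') (u : V ≃ₗ[ℚ] V')
    (hu : X.IsHodge X' u.toLinearMap) (hm : ∀ x y, X'.mukai (u x) (u y) = X.mukai x y) :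
    ∃ u' : V ≃ₗ[ℚ] V', X.IsHodge X' u'.toLinearMap ∧
      ∀ x, X.parE x = x → X'.qf (X'.dual (u' x)) (u' x) = X.qf (X.dual x) x := by
  have hb : ∀ x, X'.qf (X'.dual (u x)) (X'.expHalf (u x)) = X.qf (X.dual x) (X.expHalf x) := by
    intro x
    exact X.qf_of_pair X' (X'.dual ∘ₗ u.toLinearMap) (X'.expHalf ∘ₗ u.toLinearMap)
      (X'.isHodge_expHalf.comp hu) X.dual X.expHalf X.isHodge_expHalf (fun x y => hm x y) x x
  obtain ⟨r, t, hr, ht, hrr, hrt, htr⟩ := X.exists_sqrt_cosh
  obtain ⟨r', t', hr', ht', hrr', hrt', htr'⟩ := X'.exists_sqrt_cosh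
  obtain ⟨r1, r2, r3⟩ := X.good_adjoin hr
  obtain ⟨t1, t2, t3⟩ := X.good_adjoin ht
  obtain ⟨r1', r2', r3'⟩ := X'.good_adjoin hr'
  let e : V ≃ₗ[ℚ] V := LinearEquiv.ofLinearMap t r htr hrt
  let e' : V' ≃ₗ[ℚ] V' := LinearEquiv.ofLinearMap r' t' hrt' htr'
  refine ⟨(e.trans u).trans e', ?_, ?_⟩
  · have h : ((e.trans u).trans e').toLinearMap = r' ∘ₗ (u.toLinearMap ∘ₗ t) := rfl
    rw [h]
    exact r1'.comp (hu.comp t1)
  · intro x hx
    have h : ((e.trans u).trans e') x = r' (u (t x)) := rfl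
    rw [h]
    have htx : X.parE (t x) = t x := by
      have h1 := LinearMap.congr_fun (parE_comm t1) x
      rw [LinearMap.comp_apply, LinearMap.comp_apply, hx] at h1
      exact h1
    have hutx : X'.parE (u (t x)) = u (t x) := by
      have h1 := LinearMap.congr_fun (parE_comm hu) (t x)
      rw [LinearMap.comp_apply, LinearMap.comp_apply, htx] at h1
      exact h1
    have hrtx : r (t x) = x := LinearMap.congr_fun hrt x
    rw [r3', r2', ← Module.End.mul_apply, hrr', X'.qf_dual_cosh _ hutx, hb,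
      ← X.qf_dual_cosh _ htx, ← hrr, Module.End.mul_apply, ← r2, ← r3, hrtx]

end HodgeLefschetz

end Pool.Agent.Lib.OrlovSig
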